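import Mathlib

/-!
# Connected reductive groups over `Q_2` as linear algebraic groups
-/

noncomputable section

namespace Pool.Agent.P.MP_2ea9e4_al

open scoped MatrixGroups

variable {n : Type} [Fintype n] [DecidableEq n]

/-- The value at `g` of a polynomial in the matrix entries. -/
def polyVal {R K : Type} [CommRing R] [Field K] [Algebra R K] (p : MvPolynomial (n × n) R)
    (g : GL n K) : K :=
  MvPolynomial.aeval (fun x : n × n => g x.1 x.2) p

/-- `Γ` is a connected reductive linear algebraic group over `Q_2`: it is the zero set in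
`GL_n(Qbar_2)` of polynomials over `Q_2`, it is irreducible (its ideal is prime), and it has no
non-trivial normal subgroup made of unipotent matrices. -/
def ConnRed (Γ : Subgroup (GL n (AlgebraicClosure ℚ_[2]))) : Prop :=
  (∃ T : Set (MvPolynomial (n × n) ℚ_[2]), ∀ g, g ∈ Γ ↔ ∀ p ∈ T, polyVal p g = 0) ∧
  (∀ p q : MvPolynomial (n × n) (AlgebraicClosure ℚ_[2]),
    (∀ g ∈ Γ, polyVal (p * q) g = 0) → (∀ g ∈ Γ, polyVal p g = 0) ∨ ∀ g ∈ Γ, polyVal q g = 0) ∧
  ∀ N ≤ Γ, (∀ g ∈ Γ, ∀ u ∈ N, g * u * g⁻¹ ∈ N) → (∀ u ∈ N, IsNilpotent (u.val - 1)) → N = ⊥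

/-- The group `Γ(Q_2)` of rational points, a subgroup of `GL_n(Q_2)`. -/
def ratPts (Γ : Subgroup (GL n (AlgebraicClosure ℚ_[2]))) : Subgroup (GL n ℚ_[2]) :=
  Γ.comap (Matrix.GeneralLinearGroup.map (algebraMap ℚ_[2] (AlgebraicClosure ℚ_[2])))

end Pool.Agent.P.MP_2ea9e4_al
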