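import Pool.Agent.P.MP_2ea9e4_al.Grp

/-!
# Compact subgroups fix a vertex; the character of order four and the representation `St ⊗ χ`
-/

noncomputable section

namespace Pool.Agent.P.MP_2ea9e4_al

open scoped Classical

theorem be00 (z hz s) (j : S) : al z hz (yy (-s) * j * yy s) 0 0 = j 0 0 + j 0 1 * s := by
  simp only [al00, mul2, yy, mk2_00, mk2_01, mk2_10]; ring
theorem be01 (z hz s) (j : S) : al z hz (yy (-s) * j * yy s) 0 1 = z * j 0 1 := by
  simp only [al01, mul2, yy, mk2_00, mk2_01, mk2_11]; ring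
theorem be10 (z hz s) (j : S) : al z hz (yy (-s) * j * yy s) 1 0 =
    (j 1 0 + (j 1 1 - j 0 0) * s - j 0 1 * s * s) / z := by
  simp only [al10, mul2, yy, mk2_00, mk2_10, mk2_11]; ring
theorem be11 (z hz s) (j : S) : al z hz (yy (-s) * j * yy s) 1 1 = j 1 1 - j 0 1 * s := by
  simp only [al11, mul2, yy, mk2_01, mk2_10, mk2_11]; ring

theorem lattice {J : Subgroup S} (hJ : IsCompact (J : Set S)) :
    ∃ s z hz, ∀ j ∈ J, al z hz (yy (-s) * j * yy s) ∈ K0 := by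
  let Λ : Set (F × F) :=
    {v | ∀ j ∈ J, D 0 (j 0 0 * v.1 + j 0 1 * v.2) ∧ D 0 (j 1 0 * v.1 + j 1 1 * v.2)}
  have hcl : IsClosed Λ := by
    simp only [Λ, Set.ofPred_forall]
    exact isClosed_iInter fun j => isClosed_iInter fun _ =>
      ((isClosed_D 0).preimage (by fun_prop)).inter ((isClosed_D 0).preimage (by fun_prop))
  have hc : IsCompact Λ := by
    refine ((isCompact_closedBall (0 : F) 1).prod (isCompact_closedBall (0 : F) 1)).of_isClosed_subset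
      hcl fun v hv => ?_
    have := hv 1 J.one_mem
    simpa [one00, one01, one10, one11, D_zero_iff] using this
  obtain ⟨R, hR⟩ := bdd_of_isCompact hJ
  obtain ⟨N, hN⟩ := pow_unbounded_of_one_lt R (one_lt_two (α := ℝ))
  have hb : ∀ j ∈ J, ∀ a b, D 0 (j a b * 2 ^ (N : ℤ)) := fun j hj a b => by
    have : D (-N) (j a b) := by
      unfold D
      simpa using (hR j hj a b).trans hN.le
    exact this.mul' (D_pow N) (by omega)
  have m1 : ((2 : F) ^ (N : ℤ), (0 : F)) ∈ Λ := fun j hj =>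
    ⟨by simpa using hb j hj 0 0, by simpa using hb j hj 1 0⟩
  have m2 : ((0 : F), (2 : F) ^ (N : ℤ)) ∈ Λ := fun j hj =>
    ⟨by simpa using hb j hj 0 1, by simpa using hb j hj 1 1⟩
  obtain ⟨⟨p, q⟩, hv, hp⟩ := hc.exists_isMaxOn ⟨_, m1⟩ (f := fun v => ‖v.1‖) (by fun_prop)
  obtain ⟨⟨o, d⟩, ⟨hw, ho⟩, hd⟩ := (hc.inter_right (isClosed_eq continuous_fst
    (continuous_const (y := (0 : F))))).exists_isMaxOn ⟨_, m2, rfl⟩ (f := fun v => ‖v.2‖)
      (by fun_prop)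
  obtain rfl : o = 0 := ho
  have pos : 0 < ‖(2 : F) ^ (N : ℤ)‖ := norm_pos_iff.2 (two_zpow_ne _)
  have p0 : p ≠ 0 := norm_pos_iff.1 (pos.trans_le (hp m1))
  have d0 : d ≠ 0 := norm_pos_iff.1 (pos.trans_le (hd ⟨m2, rfl⟩))
  have coord : ∀ w ∈ Λ, D 0 (w.1 / p) ∧ D 0 ((w.2 - w.1 / p * q) / d) := by
    intro w hw'
    have a : D 0 (w.1 / p) := by
      rw [D_zero_iff, norm_div]
      exact div_le_one_of_le₀ (hp hw') (norm_nonneg _)
    refine ⟨a, ?_⟩
    have b : ((0 : F), w.2 - w.1 / p * q) ∈ Λ := fun j hj =>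
      ⟨((hw' j hj).1.sub (a.mul0 (hv j hj).1)).of_eq (by field_simp; ring),
        ((hw' j hj).2.sub (a.mul0 (hv j hj).2)).of_eq (by field_simp; ring)⟩
    rw [D_zero_iff, norm_div]
    exact div_le_one_of_le₀ (hd ⟨b, rfl⟩) (norm_nonneg _)
  have act : ∀ j ∈ J, ∀ v ∈ Λ, (j 0 0 * v.1 + j 0 1 * v.2, j 1 0 * v.1 + j 1 1 * v.2) ∈ Λ :=
    fun j hj v hv k hk =>
      ⟨(hv _ (J.mul_mem hk hj)).1.of_eq (by simp only [mul2]; ring),
        (hv _ (J.mul_mem hk hj)).2.of_eq (by simp only [mul2]; ring)⟩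
  refine ⟨q / p, d / p, div_ne_zero d0 p0, fun j hj => mem_K0.2 fun a b => ?_⟩
  have c1 := coord _ (act j hj _ hv)
  have c2 := coord _ (act j hj _ hw)
  fin_cases a <;> fin_cases b
  · exact c1.1.of_eq ((be00 _ _ _ _).trans (by field_simp))
  · exact c2.1.of_eq ((be01 _ _ _ _).trans (by field_simp; ring))
  · exact c1.2.of_eq ((be10 _ _ _ _).trans (by field_simp; ring))
  · exact c2.2.of_eq ((be11 _ _ _ _).trans (by field_simp; ring))

theorem rigid {J : Subgroup S} (hJ : IsCompact (J : Set S)) {r : S} (hr : r ∈ J) (h0 : r ∈ K0)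
    (hb : D 1 (r 0 1 - 1)) (hc : D 1 (r 1 0 - 1)) (ht : D 1 (r 0 0 + r 1 1 - 1)) : J ≤ K0 := by
  obtain ⟨s, z, hz, h⟩ := lattice hJ
  have k := mem_K0.1 (h r hr)
  have e := mem_K0.1 h0
  have nb := hb.norm_one
  have b0 := ne_of_norm nb
  have hs : D 0 s := (((k 0 0).sub (e 0 0)).div nb).of_eq (by rw [be00]; field_simp; ring)
  have z0 : D 0 z := ((k 0 1).div nb).of_eq (by rw [be01]; field_simp)
  have ss : D 1 (s * (s - 1)) := by
    rcases hs.dich0 with h1 | h1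
    · exact h1.mul0 (hs.sub D_one)
    · exact hs.zero_mul h1
  have hw : D 1 (r 1 0 + (r 1 1 - r 0 0) * s - r 0 1 * s * s - 1) :=
    ((((hc.add (ht.mul0 hs)).sub ((D_two.mul0 (e 0 0)).mul0 hs)).sub
      ((hb.mul0 hs).mul0 hs)).sub ss).of_eq (by ring)
  have w0 := hw.ne
  have z1 : D 0 z⁻¹ := ((k 1 0).div hw.norm_one).of_eq (by
    rw [be10, div_right_comm, div_self w0, one_div])
  intro j hj
  have kj := mem_K0.1 (h j hj)
  have m : yy (-s) * j * yy s ∈ K0 := by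
    rw [← al_al' z hz (yy (-s) * j * yy s)]
    refine mem_K0.2 fun a b => ?_
    fin_cases a <;> fin_cases b
    · exact kj 0 0
    · exact z1.mul0 (kj 0 1)
    · exact ((kj 1 0).mul0 z0).of_eq (div_inv_eq_mul _ _)
    · exact kj 1 1
  have := K0.mul_mem (K0.mul_mem (InP_yy hs) m) (InP_yy hs.neg)
  simpa [← mul_assoc, yy_mul, yy_zero, mul_assoc j] using this

/-- Reduction modulo 4. -/
def rd (x : F) : ZMod 4 :=
  if h : ‖x‖ ≤ 1 then (PadicInt.toZModPow 2 (⟨x, h⟩ : ℤ_[2]) : ZMod (2 ^ 2)) else 0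

theorem rd_eq (x : ℤ_[2]) : rd x = (PadicInt.toZModPow 2 x : ZMod (2 ^ 2)) := dif_pos x.2

theorem rd_add {x y : F} (hx : D 0 x) (hy : D 0 y) : rd (x + y) = rd x + rd y := by
  let a : ℤ_[2] := ⟨x, D_zero_iff.1 hx⟩
  let b : ℤ_[2] := ⟨y, D_zero_iff.1 hy⟩
  have := rd_eq (a + b)
  rw [map_add, ← rd_eq, ← rd_eq] at this
  exact this

theorem rd_mul {x y : F} (hx : D 0 x) (hy : D 0 y) : rd (x * y) = rd x * rd y := by
  let a : ℤ_[2] := ⟨x, D_zero_iff.1 hx⟩
  let b : ℤ_[2] := ⟨y, D_zero_iff.1 hy⟩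
  have := rd_eq (a * b)
  rw [map_mul, ← rd_eq, ← rd_eq] at this
  exact this

theorem rd_int (n : ℤ) : rd n = n := by
  have := rd_eq (n : ℤ_[2])
  rw [map_intCast] at this
  exact this

theorem rd_zero : rd 0 = 0 := by simpa using rd_int 0
theorem rd_one : rd 1 = 1 := by simpa using rd_int 1
theorem rd_two : rd 2 = 2 := by simpa using rd_int 2
theorem rd_neg_one : rd (-1) = -1 := by simpa using rd_int (-1)

theorem rd_of_D {x : F} (h : D 2 x) : rd x = 0 := by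
  let z : ℤ_[2] := ⟨x, D_zero_iff.1 (h.mono (by norm_num))⟩
  have h1 : z ∈ RingHom.ker (PadicInt.toZModPow 2) := by
    rw [PadicInt.ker_toZModPow, ← PadicInt.norm_le_pow_iff_mem_span_pow]
    exact h
  exact (rd_eq z).trans h1

theorem rd_of_D' {x : F} (h : D 2 (x - 1)) : rd x = 1 := by
  rw [show x = (x - 1) + 1 by ring, rd_add (h.mono (by norm_num)) D_one, rd_of_D h, rd_one,
    zero_add]

theorem rd_of_D1 {x : F} (h : D 1 x) : 2 * rd x = 0 := by
  rw [← rd_two, ← rd_mul (D_two.mono (by norm_num)) (h.mono (by norm_num))]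
  exact rd_of_D (D_two.mul h)

theorem rd_of_D1' {x : F} (h : D 1 (x - 1)) : 2 * rd x = 2 := by
  rw [show x = (x - 1) + 1 by ring, rd_add (h.mono (by norm_num)) D_one, mul_add, rd_of_D1 h,
    rd_one]
  rfl

theorem rd_det {k : S} (hk : k ∈ K0) :
    rd (k 0 0) * rd (k 1 1) = 1 + rd (k 0 1) * rd (k 1 0) := by
  have h := mem_K0.1 hk
  rw [← rd_mul (h 0 0) (h 1 1), ← rd_mul (h 0 1) (h 1 0), ← rd_one,
    ← rd_add D_one ((h 0 1).mul0 (h 1 0))]
  congr 1
  linear_combination det2 k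

theorem rd_mul2 {k k' : S} (hk : k ∈ K0) (hk' : k' ∈ K0) (i j : Fin 2) :
    rd ((k * k') i j) = rd (k i 0) * rd (k' 0 j) + rd (k i 1) * rd (k' 1 j) := by
  have h := mem_K0.1 hk
  have h' := mem_K0.1 hk'
  rw [mul2, rd_add ((h _ _).mul0 (h' _ _)) ((h _ _).mul0 (h' _ _)), rd_mul (h _ _) (h' _ _),
    rd_mul (h _ _) (h' _ _)]

/-- The character of order four of `SL_2(Z/4)`. -/
def chi4 (a b c d : ZMod 4) : ZMod 4 :=
  (1 - c * c) * (b * d + 3 * (c - 1) * d + c + 3) + c * (a + d - 3)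

/-- First coordinate of a non-zero vector of `F_2 ^ 2` in the root lattice. -/
def v1 (a c : ZMod 4) : ℤ := if 2 * a = 2 ∧ 2 * c = 0 then 1 else 0
/-- Second coordinate. -/
def v2 (a c : ZMod 4) : ℤ := if 2 * a = 0 ∧ 2 * c = 2 then 1 else 0

/-- The Steinberg representation of `SL_2(F_2)`. -/
def st4 (a b c d : ZMod 4) : Matrix (Fin 2) (Fin 2) ℤ :=
  !![v1 a c - v1 (a + b) (c + d), v1 b d - v1 (a + b) (c + d);
    v2 a c - v2 (a + b) (c + d), v2 b d - v2 (a + b) (c + d)]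

theorem chi4_mul : ∀ a b c d : ZMod 4, a * d = 1 + b * c → ∀ a' b' c' d' : ZMod 4,
    a' * d' = 1 + b' * c' → chi4 (a * a' + b * c') (a * b' + b * d') (c * a' + d * c')
      (c * b' + d * d') = chi4 a b c d + chi4 a' b' c' d' := by
  decide +kernel

theorem st4_aux : ∀ a b c d : ZMod 4, a * d = 1 + b * c → ∀ a' b' c' d' : ZMod 4,
    a' * d' = 1 + b' * c' → ∀ i j : Fin 2, st4 (a * a' + b * c') (a * b' + b * d')
      (c * a' + d * c') (c * b' + d * d') i j =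
        st4 a b c d i 0 * st4 a' b' c' d' 0 j + st4 a b c d i 1 * st4 a' b' c' d' 1 j := by
  decide +kernel

theorem st4_one : ∀ a b c d : ZMod 4, 2 * a = 2 → 2 * b = 0 → 2 * c = 0 → 2 * d = 2 →
    st4 a b c d = 1 := by
  decide +kernel

/-- The character `χ` of order four of `SL_2(Z_2)`. -/
def chi : K0 →* Multiplicative (ZMod 4) := MonoidHom.mk'
  (fun k => Multiplicative.ofAdd (chi4 (rd (k.1 0 0)) (rd (k.1 0 1)) (rd (k.1 1 0)) (rd (k.1 1 1))))
  fun k k' => by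
    rw [← ofAdd_add, ← chi4_mul _ _ _ _ (rd_det k.2) _ _ _ _ (rd_det k'.2)]
    simp only [Subgroup.coe_mul, rd_mul2 k.2 k'.2]

theorem chi_eq (k : K0) : chi k =
    Multiplicative.ofAdd (chi4 (rd (k.1 0 0)) (rd (k.1 0 1)) (rd (k.1 1 0)) (rd (k.1 1 1))) := rfl

theorem chi_of_InP (k : K0) (h : InP 2 2 2 k) : chi k = 1 := by
  rw [chi_eq, rd_of_D' h.2.2.1, rd_of_D h.1, rd_of_D h.2.1, rd_of_D' h.2.2.2]
  rfl

theorem chi_neg_one (h) : chi ⟨-1, h⟩ = Multiplicative.ofAdd 2 := by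
  rw [chi_eq]
  simp only [neg2, one00, one01, one10, one11, neg_zero, rd_zero, rd_neg_one]
  rfl

theorem continuous_chi : Continuous chi := by
  refine continuous_of_continuousAt_one chi (continuousAt_const (y := 1).congr ?_)
  filter_upwards [((isOpen_InP 2 2 2).preimage continuous_subtype_val).mem_nhds
    (show (1 : K0) ∈ _ from (PP 2 2 2 (by norm_num) (by norm_num)).one_mem)] with k hk
  exact (chi_of_InP k hk).symm

/-- The faithful character of `Z/4`. -/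
def eps0 : Multiplicative (ZMod 4) →* ℂˣ := MonoidHom.mk'
  (fun n => Units.mk0 (Complex.I ^ n.toAdd.val) (pow_ne_zero _ Complex.I_ne_zero))
  fun m n => by
    ext
    simp only [toAdd_mul, ZMod.val_add, Units.val_mk0, Units.val_mul]
    rw [← pow_eq_pow_mod _ Complex.I_pow_four, pow_add]

theorem eps0_val (n : ZMod 4) : (eps0 (Multiplicative.ofAdd n) : ℂ) = Complex.I ^ n.val := rfl

theorem eps0_two : (eps0 (Multiplicative.ofAdd 2) : ℂ) = -1 := by
  rw [eps0_val]; exact Complex.I_sq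

theorem eps0_inj : Function.Injective eps0 := by
  rw [injective_iff_map_eq_one]
  intro n hn
  have h : Complex.I ^ n.toAdd.val = 1 := congrArg Units.val hn
  have : ∀ m : ZMod 4, m = 0 ∨ m.val = 1 ∨ m.val = 2 ∨ m.val = 3 := by decide
  rcases this n.toAdd with h0 | h0 | h0 | h0
  · exact h0
  · rw [h0] at h; simp [Complex.ext_iff] at h
  · rw [h0, Complex.I_sq] at h; norm_num at h
  · rw [h0, Complex.I_pow_three] at h; simp [Complex.ext_iff] at h

theorem pow_four_M4 (n : Multiplicative (ZMod 4)) : n ^ 4 = 1 := by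
  revert n
  decide

/-- The Steinberg matrix of an element of `SL_2(Z_2)`. -/
def stM (k : S) : Matrix (Fin 2) (Fin 2) ℂ :=
  (st4 (rd (k 0 0)) (rd (k 0 1)) (rd (k 1 0)) (rd (k 1 1))).map (Int.castRingHom ℂ)

theorem stM_mul {k k' : S} (hk : k ∈ K0) (hk' : k' ∈ K0) : stM (k * k') = stM k * stM k' := by
  simp only [stM, ← Matrix.map_mul, rd_mul2 hk hk']
  congr 1
  ext i j
  rw [st4_aux _ _ _ _ (rd_det hk) _ _ _ _ (rd_det hk'), Matrix.mul_apply, Fin.sum_univ_two]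

theorem stM_of_InP {k : S} (h : InP 1 1 1 k) : stM k = 1 := by
  rw [stM, st4_one _ _ _ _ (rd_of_D1' h.2.2.1) (rd_of_D1 h.1) (rd_of_D1 h.2.1) (rd_of_D1' h.2.2.2)]
  simp

/-- The representation `St ⊗ χ` of `SL_2(Z_2)`. -/
def sig : Representation ℂ K0 (Fin 2 → ℂ) where
  toFun k := (eps0 (chi k) : ℂ) • Matrix.toLin' (stM k)
  map_one' := by
    rw [map_one, map_one, Units.val_one, one_smul, Subgroup.coe_one,
      stM_of_InP (PP 1 1 1 (by norm_num) (by norm_num)).one_mem, Matrix.toLin'_one]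
    rfl
  map_mul' k k' := by
    rw [map_mul, map_mul, Units.val_mul, Subgroup.coe_mul, stM_mul k.2 k'.2, Matrix.toLin'_mul,
      smul_mul_smul_comm]
    rfl

theorem sig_apply (k : K0) (w : Fin 2 → ℂ) :
    sig k w = (eps0 (chi k) : ℂ) • (stM k).mulVec w := rfl

theorem sig_two (k : K0) (h : InP 1 1 1 k) (w : Fin 2 → ℂ) :
    sig k w = (eps0 (chi k) : ℂ) • w := by
  rw [sig_apply, stM_of_InP h, Matrix.one_mulVec]

theorem sig_four (k : K0) (h : InP 2 2 2 k) (w : Fin 2 → ℂ) : sig k w = w := by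
  rw [sig_two k (h.mono one_le_two one_le_two one_le_two), chi_of_InP k h]
  simp

theorem sig_neg_one (h) (w : Fin 2 → ℂ) : sig ⟨-1, h⟩ w = -w := by
  rw [sig_two _ neg_one_InP, chi_neg_one, eps0_two, neg_one_smul]

theorem xx_K0 {b : F} (h : D 0 b) : xx b ∈ K0 := InP_xx h

theorem sig_xx_two (h) (w : Fin 2 → ℂ) : sig ⟨xx 2, h⟩ w = -w := by
  have : chi ⟨xx 2, h⟩ = Multiplicative.ofAdd 2 := by
    rw [chi_eq]
    simp only [xx, mk2_00, mk2_01, mk2_10, mk2_11, rd_zero, rd_one, rd_two]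
    rfl
  rw [sig_two _ (InP_xx D_two), this, eps0_two, neg_one_smul]

/-- An element of order three. -/
def rr : S := mk2 0 (-1) 1 (-1) (by ring)

theorem rr_K0 : rr ∈ K0 := mem_K0.2 fun i j => by
  fin_cases i <;> fin_cases j
  exacts [D_zero _, D_one.neg, D_one, D_one.neg]

theorem sig_xx_one (h) (w : Fin 2 → ℂ) :
    sig ⟨xx 1, h⟩ w = Complex.I • ![w 0, -w 0 - w 1] := by
  have h1 : chi ⟨xx 1, h⟩ = Multiplicative.ofAdd 1 := by
    rw [chi_eq]
    simp only [xx, mk2_00, mk2_01, mk2_10, mk2_11, rd_zero, rd_one]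
    rfl
  have h2 : st4 1 1 0 1 = !![1, 0; -1, -1] := by decide +kernel
  rw [sig_apply, h1, eps0_val, show (1 : ZMod 4).val = 1 from rfl, pow_one]
  congr 1
  simp only [stM, xx, mk2_00, mk2_01, mk2_10, mk2_11, rd_zero, rd_one, h2]
  ext i
  fin_cases i <;> simp [Matrix.mulVec, dotProduct, Fin.sum_univ_two, sub_eq_add_neg]

theorem sig_rr (h) (w : Fin 2 → ℂ) : sig ⟨rr, h⟩ w = ![-w 0 - w 1, w 0] := by
  have h1 : chi ⟨rr, h⟩ = 1 := by
    rw [chi_eq]
    simp only [rr, mk2_00, mk2_01, mk2_10, mk2_11, rd_zero, rd_one, rd_neg_one]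
    rfl
  have h2 : st4 0 (-1) 1 (-1) = !![-1, -1; 1, 0] := by decide +kernel
  rw [sig_apply, h1, map_one, Units.val_one, one_smul]
  simp only [stM, rr, mk2_00, mk2_01, mk2_10, mk2_11, rd_zero, rd_one, rd_neg_one, h2]
  ext i
  fin_cases i <;> simp [Matrix.mulVec, dotProduct, Fin.sum_univ_two, sub_eq_add_neg]

theorem sig_irr (Y : Submodule ℂ (Fin 2 → ℂ)) (hx : ∀ w ∈ Y, sig ⟨xx 1, xx_K0 D_one⟩ w ∈ Y)
    (hr : ∀ w ∈ Y, sig ⟨rr, rr_K0⟩ w ∈ Y) {w : Fin 2 → ℂ} (hw : w ∈ Y) (h0 : w ≠ 0)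
    (u : Fin 2 → ℂ) : u ∈ Y := by
  simp only [sig_xx_one, sig_rr] at hx hr
  have key : ∀ w ∈ Y, w 0 + 2 * w 1 ≠ 0 → u ∈ Y := fun w hw h => by
    have a := Y.add_mem hw (Y.smul_mem Complex.I (hx w hw))
    have b := hr _ a
    have := Y.sub_mem (Y.smul_mem (u 1 / (w 0 + 2 * w 1)) a) (Y.smul_mem (u 0 / (w 0 + 2 * w 1)) b)
    convert this using 1
    ext i
    fin_cases i <;> simp [← mul_assoc, Matrix.vecHead, Matrix.vecTail] <;> field_simp <;> ring
  by_cases h : w 0 + 2 * w 1 = 0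
  · refine key _ (hr w hw) fun h' => h0 ?_
    simp only [Matrix.cons_val_zero, Matrix.cons_val_one] at h'
    ext i
    fin_cases i
    · simp only [Fin.zero_eta, Pi.zero_apply]; linear_combination (1 / 3 : ℂ) * h + (2 / 3 : ℂ) * h'
    · simp only [Fin.mk_one, Pi.zero_apply]; linear_combination (1 / 3 : ℂ) * h - (1 / 3 : ℂ) * h'
  · exact key w hw h

theorem sig_not_scalar (h) (μ : ℂ) : ¬ ∀ w, sig ⟨xx 1, h⟩ w = μ • w := fun hw => by
  have := congrFun (hw ![1, 0]) 1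
  simp [sig_xx_one] at this

end Pool.Agent.P.MP_2ea9e4_al
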