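import Pool.Agent.P.MP_2ea9e4_al.Chi

/-!
# The cover, its splittings and the genuine supercuspidal representation
-/

noncomputable section

namespace Pool.Agent.P.MP_2ea9e4_al

open scoped Pointwise

abbrev M4 : Type := Multiplicative (ZMod 4)

instance : NonarchimedeanGroup M4 where
  is_nonarchimedean U hU := ⟨⟨⊥, isOpen_discrete _⟩, fun x hx => by
    obtain rfl : x = 1 := hx
    exact mem_of_mem_nhds hU⟩

variable {C : Type} [CommGroup C] {c : C}

/-- The element `(c, -1)` of `C × μ_4`. -/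
def cc (c : C) : C × M4 := (c, Multiplicative.ofAdd 2)

theorem cc_sq (h2 : c * c = 1) : cc c * cc c = 1 :=
  Prod.ext h2 (show (Multiplicative.ofAdd 2 : M4) * Multiplicative.ofAdd 2 = 1 by decide)

theorem cc_ne : cc c ≠ 1 := fun h =>
  absurd (congrArg Prod.snd h) (show (Multiplicative.ofAdd 2 : M4) ≠ 1 by decide)

/-- The covering map. -/
def pr (c : C) : Grp F (cc c) →* Grp F c :=
  QuotientGroup.lift _ ((mkG c).comp ((MonoidHom.id S).prodMap (MonoidHom.fst C M4))) (by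
    rw [Subgroup.zpowers_le]
    exact (QuotientGroup.eq_one_iff _).2 (Subgroup.mem_zpowers _))

theorem pr_rep (s : S) (a : C × M4) : pr c (io (cc c) s * ka (cc c) a) = io c s * ka c a.1 := by
  rw [← mkG_eq, ← mkG_eq]; rfl

theorem pr_io (s : S) : pr c (io (cc c) s) = io c s := rfl

theorem pr_ka (a : C × M4) : pr c (ka (cc c) a) = ka c a.1 := rfl

/-- The kernel of the covering map. -/
def jz (c : C) : M4 →* (pr c).ker :=
  MonoidHom.codRestrict ((ka (cc c)).comp (MonoidHom.inr C M4)) _ fun ζ => by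
    rw [MonoidHom.mem_ker, MonoidHom.comp_apply, pr_ka]
    exact map_one _

theorem jz_val (ζ : M4) : (jz c ζ : Grp F (cc c)) = ka (cc c) (1, ζ) := rfl

theorem neg_one_ne : (1 : S) ≠ -1 := fun h => by
  have := congrArg (fun g : S => g 0 0) h
  simp only [neg2, one00] at this
  norm_num at this

theorem jz_bij (h2 : c * c = 1) : Function.Bijective (jz c) := by
  constructor
  · rw [injective_iff_map_eq_one]
    intro ζ h
    have h1 : io (cc c) 1 * ka (cc c) 1 = io (cc c) 1 * ka (cc c) (1, ζ) := by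
      rw [← jz_val, h]; simp
    rcases rep_eq (cc_sq h2) h1 with h3 | h3
    · exact congrArg Prod.snd h3.2
    · exact absurd h3.1 neg_one_ne
  · rintro ⟨x, hx⟩
    obtain ⟨s, ⟨a, ζ⟩, rfl⟩ := exists_rep x
    have h1 : io c 1 * ka c 1 = io c s * ka c a := by
      rw [← pr_rep s (a, ζ), MonoidHom.mem_ker.1 hx]; simp
    rcases rep_eq h2 h1 with ⟨rfl, rfl⟩ | ⟨rfl, rfl⟩
    · exact ⟨ζ, Subtype.ext (by simp [jz_val])⟩
    · refine ⟨Multiplicative.ofAdd 2 * ζ, Subtype.ext ?_⟩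
      change _ = io (cc c) (-1) * ka (cc c) (c * 1, ζ)
      rw [jz_val, io_neg_one (cc_sq h2), ← map_mul]
      congr 1
      exact Prod.ext (by simp [cc, h2]) rfl

/-- The faithful character of the kernel. -/
def eps (h2 : c * c = 1) : (pr c).ker →* ℂˣ :=
  eps0.comp (MulEquiv.ofBijective (jz c) (jz_bij h2)).symm.toMonoidHom

theorem eps_jz (h2 : c * c = 1) (ζ : M4) : eps h2 (jz c ζ) = eps0 ζ :=
  congrArg eps0 ((MulEquiv.ofBijective (jz c) (jz_bij h2)).symm_apply_apply ζ)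

theorem eps_inj (h2 : c * c = 1) : Function.Injective (eps h2) :=
  eps0_inj.comp (MulEquiv.ofBijective (jz c) (jz_bij h2)).symm.injective

theorem card_ker (h2 : c * c = 1) : Nat.card (pr c).ker = 4 := by
  rw [← Nat.card_eq_of_bijective _ (jz_bij h2)]
  simp

theorem exists_rho0 (h2 : c * c = 1) :
    ∃ ρ : Representation ℂ (KJ (cc c) K0) (Fin 2 → ℂ), ∀ (k : K0) (a : C × M4) h w,
      ρ ⟨io (cc c) k * ka (cc c) a, h⟩ w = (eps0 a.2 : ℂ) • sig k w := by
  have hK := center_le_KJ (cc_sq h2) cc_ne K0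
  have m : -1 ∈ K0 := neg_one_InP.mono le_rfl le_rfl zero_le_one
  have hJ : ∀ j : (KJ (cc c) K0).comap (io (cc c)), (j : S) ∈ K0 := fun j =>
    (mem_KJ (cc_sq h2) m j 1).1 ((rep_mem hK _ _).2 j.2)
  let β : (KJ (cc c) K0).comap (io (cc c)) →* K0 := MonoidHom.codRestrict (Subgroup.subtype _) _ hJ
  let φ : (KJ (cc c) K0).comap (io (cc c)) × (C × M4) →* Module.End ℂ (Fin 2 → ℂ) :=
    { toFun := fun x => (eps0 x.2.2 : ℂ) • sig (β x.1)
      map_one' := by simp
      map_mul' := fun x y => by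
        simp only [Prod.fst_mul, Prod.snd_mul, map_mul, Units.val_mul, smul_mul_smul_comm] }
  obtain ⟨ψ, hψ⟩ := exists_lift (cc_sq h2) _ hK φ.toHomUnits fun h => by
    refine Units.ext (LinearMap.ext fun w => ?_)
    change (eps0 (Multiplicative.ofAdd 2) : ℂ) • sig ⟨-1, m⟩ w = w
    rw [eps0_two, sig_neg_one]; simp
  refine ⟨(Units.coeHom _).comp ψ, fun k a h w => ?_⟩
  have := hψ (⟨k, (rep_mem hK _ a).1 h⟩, a)
  have e : toK _ hK (⟨k, (rep_mem hK _ a).1 h⟩, a) = ⟨_, h⟩ := Subtype.ext (toK_val _ _ _ _)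
  rw [e] at this
  simp only [MonoidHom.comp_apply, this]
  rfl

section Top

variable [TopologicalSpace C] [IsTopologicalGroup C]

theorem isCover (h2 : c * c = 1) : IsCover (pr c) := by
  have hc : Continuous (pr c ∘ mkG (cc c)) :=
    continuous_mkG.comp (continuous_id.prodMap continuous_fst)
  have ho : IsOpenMap (pr c ∘ mkG (cc c)) :=
    mkG_open.isOpenMap.comp (IsOpenMap.id.prodMap isOpenMap_fst)
  refine ⟨mkG_open.continuous_comp_iff.1 hc, fun U hU => ?_, fun x => ?_, fun x hx => ?_,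
    Finite.of_surjective _ (jz_bij h2).2, isCyclic_of_surjective _ (jz_bij h2).2⟩
  · have := ho _ (hU.preimage continuous_mkG)
    rwa [Set.image_comp, Set.image_preimage_eq _ mkG_open.surjective] at this
  · obtain ⟨s, a, rfl⟩ := exists_rep x
    exact ⟨_, pr_rep s (a, 1)⟩
  · obtain ⟨ζ, h⟩ := (jz_bij h2).2 ⟨x, hx⟩
    rw [show x = _ from (congrArg Subtype.val h).symm]
    exact ka_center _

theorem exists_splitting (h2 : c * c = 1) (h1 : c ≠ 1) {K : Subgroup (Grp F c)} (hK : CMC K) :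
    ∃ s, IsSplitting (pr c) K s := by
  obtain ⟨j1, -, j3⟩ := hK.comap h2 h1
  obtain ⟨s, z, hz, h⟩ := lattice j1
  let β : K.comap (io c) →* K0 := MonoidHom.codRestrict
    ((al z hz).comp ((MulAut.conj (yy (-s))).toMonoidHom.comp (Subgroup.subtype _))) _ fun j => by
      simpa [yy_inv] using h j j.2
  have hβ : Continuous β := Continuous.subtype_mk ((continuous_al z hz).comp
    ((continuous_const.mul continuous_subtype_val).mul continuous_const)) _
  let φ : K.comap (io c) × C →* Grp F (cc c) := (mkG (cc c)).comp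
    (((Subgroup.subtype _).comp (MonoidHom.fst _ _)).prod
      ((MonoidHom.snd _ _).prod (chi.comp (β.comp (MonoidHom.fst _ _)))))
  have hφ : Continuous φ := continuous_mkG.comp ((continuous_subtype_val.comp continuous_fst).prodMk
    (continuous_snd.prodMk (continuous_chi.comp (hβ.comp continuous_fst))))
  obtain ⟨ψ, hψ⟩ := exists_lift h2 K hK.2.1 φ fun h => by
    have : β ⟨-1, h⟩ = ⟨-1, neg_one_InP.mono le_rfl le_rfl zero_le_one⟩ := by
      apply Subtype.ext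
      change al z hz (yy (-s) * -1 * (yy (-s))⁻¹) = -1
      rw [mul_neg, mul_one, neg_mul, mul_inv_cancel, al_neg_one]
    change mkG (cc c) (-1, c, chi (β ⟨-1, h⟩)) = 1
    rw [this, chi_neg_one]
    exact (QuotientGroup.eq_one_iff _).2 (Subgroup.mem_zpowers _)
  refine ⟨ψ, (toK_open K hK.2.1 hK.1).continuous_comp_iff.1 (hφ.congr fun x => (hψ x).symm),
    fun k => ?_⟩
  obtain ⟨x, rfl⟩ := toK_surj K hK.2.1 k
  rw [hψ]
  rfl

end Top

/-- The inducing datum: `St ⊗ χ` on `SL_2(Z_2)`, trivial on `C`, `ε` on `μ_4`. -/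
def IsRho (ρ : Representation ℂ (KJ (cc c) K0) (Fin 2 → ℂ)) : Prop :=
  c * c = 1 ∧ ∀ (k : K0) (a : C × M4) h w,
    ρ ⟨io (cc c) k * ka (cc c) a, h⟩ w = (eps0 a.2 : ℂ) • sig k w

variable {ρ : Representation ℂ (KJ (cc c) K0) (Fin 2 → ℂ)}

theorem IsRho.ka_act (h : IsRho ρ) (a : C × M4) (f : indSpace _ ρ) :
    cInd _ ρ (ka (cc c) a) f = (eps0 a.2 : ℂ) • f := by
  ext1
  funext g
  have m : ka (cc c) a ∈ KJ (cc c) K0 := center_le_KJ (cc_sq h.1) cc_ne K0 (ka_center a)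
  have := h.2 1 a (by simpa using m) (f.1 g)
  simp only [Subgroup.coe_one, map_one, one_mul] at this
  rw [cInd_apply, ← ka_comm, ind_mul f m, this]
  rfl

theorem IsRho.mem (h : IsRho ρ) (s : S) : io (cc c) s ∈ KJ (cc c) K0 ↔ s ∈ K0 := by
  simpa using mem_KJ (cc_sq h.1) (neg_one_InP.mono le_rfl le_rfl zero_le_one : -1 ∈ K0) s 1

theorem IsRho.io_act (h : IsRho ρ) (k : K0) (hk) (w) : ρ ⟨io (cc c) k, hk⟩ w = sig k w := by
  simpa using h.2 k 1 (by simpa using hk) w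

theorem IsRho.emb_act (h : IsRho ρ) (k : K0) (w) :
    cInd _ ρ (io (cc c) k) (emb _ ρ w) = emb _ ρ (sig k w) := by
  rw [cInd_emb ((h.mem k).2 k.2), h.io_act]

theorem IsRho.far (h : IsRho ρ) {X : Type} [AddCommGroup X] [Module ℂ X]
    (f : indSpace _ ρ →ₗ[ℂ] X) {m n : ℤ} (hm : m ≤ 2 * n + 3)
    (hf : ∀ γ, InP m m m γ → ∀ v, f (cInd _ ρ (io (cc c) γ) v) = f v) {g : S}
    (hg : ∃ i j, ¬ D (-n) (g⁻¹ i j)) (w) : f (cInd _ ρ (io (cc c) g) (emb _ ρ w)) = 0 := by
  obtain ⟨N, μ₁, μ₂, a, b, b', d, e, e'⟩ := exists_col hg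
  obtain ⟨κ, hκ, hu⟩ := un_conj d e e'
  have h1 : un 2 μ₁ μ₂ * g = g * (κ * xx 2 * κ⁻¹) := by
    rw [← hu, ← conj_un]
    simp [mul_assoc]
  have h3 : xx 2 ∈ K0 := xx_K0 (D_two.mono zero_le_one)
  have h5 : cInd _ ρ (io (cc c) (κ * xx 2 * κ⁻¹)) (emb _ ρ w) = -emb _ ρ w := by
    have a1 := h.emb_act ⟨κ⁻¹, K0.inv_mem hκ⟩ w
    have a2 := h.emb_act ⟨xx 2, h3⟩ (sig ⟨κ⁻¹, K0.inv_mem hκ⟩ w)
    simp only at a1 a2
    rw [sig_xx_two, LinearMap.map_neg, ← a1] at a2
    rw [MonoidHom.map_mul, rep_mul, MonoidHom.map_mul, rep_mul, a2, LinearMap.map_neg,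
      MonoidHom.map_inv, rep_inv']
  have h6 := hf (un 2 μ₁ μ₂) (InP_un ((D_two.mul b).mul' b (by omega))
    ((D_two.mul b').mul' b' (by omega)) ((D_two.mul b).mul' b' (by omega)))
    (cInd _ ρ (io (cc c) g) (emb _ ρ w))
  rw [← rep_mul, ← map_mul, h1, map_mul, rep_mul, h5, LinearMap.map_neg, LinearMap.map_neg] at h6
  exact eq_zero_of_neg h6.symm

variable [TopologicalSpace C] [IsTopologicalGroup C]

theorem IsRho.smooth (h : IsRho ρ) : Smooth (cInd _ ρ) := by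
  have ho := (cmc_KJ (cc_sq h.1) cc_ne (isCompact_InP 0 0 0) (isOpen_InP 0 0 0) (J := K0)).1
  refine smooth_cInd ho fun w => Subgroup.isOpen_of_mem_nhds (stab ρ w) (g := 1) ?_
  have : {x : Grp F (cc c) | ∀ hx, ρ ⟨x, hx⟩ w = w} ∈ nhds (1 : Grp F (cc c)) :=
    nhds_rep ((isOpen_InP 2 2 2).mem_nhds (PP 2 2 2 (by norm_num) (by norm_num)).one_mem)
      (((isOpen_discrete {1}).preimage continuous_snd).mem_nhds (show (1 : C × M4).2 = 1 from rfl))
      fun s hs a ha hx => by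
        have m : s ∈ K0 := InP.mono hs zero_le_two zero_le_two zero_le_two
        rw [h.2 ⟨s, m⟩ a hx, sig_four ⟨s, m⟩ hs, show a.2 = 1 from ha]
        simp
  exact Filter.mem_of_superset (continuous_subtype_val.continuousAt this) fun k hk => hk k.2

theorem IsRho.proj (h : IsRho ρ) : ∃ e : indSpace _ ρ →ₗ[ℂ] indSpace _ ρ,
    IsProj ((cInd _ ρ).comp (io (cc c))) (PP 2 2 2 (by norm_num) (by norm_num)) e ∧
      ∀ f, ∃ w, e f = emb _ ρ w := by
  obtain ⟨e, he⟩ := exists_proj ((cInd _ ρ).comp (io (cc c)))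
    (fun v => (h.smooth v).preimage continuous_io) (PP 2 2 2 (by norm_num) (by norm_num))
    (isCompact_InP _ _ _)
  refine ⟨e, he, fun f => ?_⟩
  obtain ⟨w, hw⟩ := ind_span ((LinearMap.range (emb _ ρ)).comap e) (fun x w => by
    obtain ⟨s, a, rfl⟩ := exists_rep x
    rw [Submodule.mem_comap, rep_mul, h.ka_act, ← map_smul]
    by_cases hs : s ∈ K0
    · rw [h.emb_act ⟨s, hs⟩, he.id]
      · exact ⟨_, rfl⟩
      · intro γ hγ
        have m : γ ∈ K0 := InP.mono hγ zero_le_two zero_le_two zero_le_two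
        exact (h.emb_act ⟨γ, m⟩ _).trans (by rw [sig_four ⟨γ, m⟩ hγ])
    · rw [h.far e (m := 2) (n := 0) (by norm_num) he.inv
        (not_K0 fun h' => hs (by simpa using K0.inv_mem h'))]
      exact Submodule.zero_mem _) f
  exact ⟨w, hw.symm⟩

theorem IsRho.fixed_eq (h : IsRho ρ) {f : indSpace _ ρ}
    (hf : ∀ γ, InP 2 2 2 γ → cInd _ ρ (io (cc c) γ) f = f) : ∃ w, f = emb _ ρ w := by
  obtain ⟨e, he, h1⟩ := h.proj
  obtain ⟨w, hw⟩ := h1 f
  exact ⟨w, by rw [← hw, he.id f hf]⟩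

theorem IsRho.irr (h : IsRho ρ) : (cInd _ ρ).IsIrreducible := by
  refine (irr_iff _).2 ⟨⟨emb _ ρ 1, fun e => ?_⟩, fun Y hY => ?_⟩
  · have := emb_one (ρ := ρ) 1
    rw [e] at this
    exact zero_ne_one this
  · rw [or_iff_not_imp_left]
    intro h0
    obtain ⟨f, hf, f0⟩ := (Submodule.ne_bot_iff Y).1 h0
    obtain ⟨g, hg⟩ : ∃ g, f.1 g ≠ 0 := by
      by_contra hn
      push Not at hn
      exact f0 (Subtype.ext (funext hn))
    obtain ⟨e, he, h1⟩ := h.proj
    obtain ⟨w, hw⟩ := h1 (cInd _ ρ g f)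
    have h2 : emb _ ρ w ∈ Y := hw ▸ he.mem Y _ fun γ _ => hY _ _ (hY _ _ hf)
    have h3 := he.avg _ (ev _ ρ 1) (cInd _ ρ g f) fun γ hγ => by
      have m : γ ∈ K0 := InP.mono hγ zero_le_two zero_le_two zero_le_two
      change (cInd _ ρ g f).1 (1 * io (cc c) γ) = (cInd _ ρ g f).1 1
      rw [one_mul, ← mul_one (io (cc c) γ), ind_mul _ ((h.mem γ).2 m), h.io_act ⟨γ, m⟩,
        sig_four ⟨γ, m⟩ hγ]
    rw [hw, ev_apply, ev_apply, emb_one, cInd_apply, one_mul] at h3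
    rw [eq_top_iff]
    intro v _
    refine ind_span Y (fun x u => hY _ _ ?_) v
    exact sig_irr (Y.comap (emb _ ρ)) (fun w hw => by
      rw [Submodule.mem_comap, ← h.emb_act]; exact hY _ _ hw) (fun w hw => by
      rw [Submodule.mem_comap, ← h.emb_act]; exact hY _ _ hw) h2 (h3 ▸ hg) u

theorem IsRho.sc (h : IsRho ρ) : Supercuspidal (cInd _ ρ) := by
  intro f ξ hξ
  obtain ⟨m, hm, hξ'⟩ := exists_InP_subset ((hξ.preimage continuous_io).mem_nhds
    (fun w => by rw [map_one, rep_one]))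
  let U : Submodule ℂ (indSpace _ ρ) :=
    { carrier := {f | ∃ Ω : Set (Grp F (cc c)), IsCompact Ω ∧
        {g | ξ (cInd _ ρ g f) ≠ 0} ⊆ Ω * (Subgroup.center (Grp F (cc c)) : Set (Grp F (cc c)))}
      zero_mem' := ⟨∅, isCompact_empty, fun g hg => by simp at hg⟩
      add_mem' := by
        rintro a b ⟨Ω, h1, h2⟩ ⟨Ω', h1', h2'⟩
        refine ⟨Ω ∪ Ω', h1.union h1', fun g hg => ?_⟩
        by_cases h0 : ξ (cInd _ ρ g a) = 0
        · exact Set.mul_subset_mul_right Set.subset_union_right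
            (h2' fun h3 => hg (by rw [map_add, map_add, h0, h3, add_zero]))
        · exact Set.mul_subset_mul_right Set.subset_union_left (h2 h0)
      smul_mem' := by
        rintro a b ⟨Ω, h1, h2⟩
        exact ⟨Ω, h1, fun g hg => h2 fun h3 => hg (by rw [map_smul, map_smul, h3, smul_zero])⟩ }
  refine ind_span U (fun x w => ?_) f
  refine ⟨(fun s => io (cc c) s * x⁻¹) '' {s | ∀ i j, ‖s i j‖ ≤ 2 ^ (- -m)}⁻¹,
    (isCompact_bdd _).inv.image (continuous_io.mul continuous_const), fun g hg => ?_⟩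
  obtain ⟨s, a, e⟩ := exists_rep (g * x)
  refine ⟨_, ⟨s, ?_, rfl⟩, ka (cc c) a, ka_center a, ?_⟩
  · by_contra hn
    apply hg
    rw [← rep_mul, e, rep_mul, h.ka_act, ← map_smul]
    refine h.far ξ (m := m) (n := m) (by omega) hξ' ?_ _
    by_contra hn'
    push Not at hn'
    exact hn hn'
  · simp only
    rw [mul_assoc, ← ka_comm, ← mul_assoc, ← e, mul_inv_cancel_right]

omit [TopologicalSpace C] [IsTopologicalGroup C] in
theorem IsRho.genuine (h : IsRho ρ) : Genuine (pr c) (eps h.1) (cInd _ ρ) := by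
  intro z v
  obtain ⟨ζ, rfl⟩ := (jz_bij h.1).2 z
  rw [eps_jz, jz_val, h.ka_act]

end Pool.Agent.P.MP_2ea9e4_al
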