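import Mathlib

/-!
# Compact induction on finite central covers: definitions
-/

noncomputable section

namespace Pool.Agent.P.MP_2ea9e4_al

open scoped Pointwise MatrixGroups

section General

variable {H : Type} [Group H] [TopologicalSpace H]
variable {V : Type} [AddCommGroup V] [Module ℂ V] {W : Type} [AddCommGroup W] [Module ℂ W]

/-- A locally compact totally disconnected (Hausdorff) topological group. -/
def LCTD (H : Type) [Group H] [TopologicalSpace H] : Prop :=
  IsTopologicalGroup H ∧ T2Space H ∧ LocallyCompactSpace H ∧ TotallyDisconnectedSpace H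

/-- Every vector has an open stabiliser. -/
def Smooth (π : Representation ℂ H V) : Prop := ∀ v, IsOpen {g : H | π g v = v}

/-- Every matrix coefficient `g ↦ ξ (π g v)`, with `ξ` in the smooth dual, is compactly supported
modulo the centre. -/
def Supercuspidal (π : Representation ℂ H V) : Prop :=
  ∀ (v : V) (ξ : V →ₗ[ℂ] ℂ), IsOpen {g : H | ∀ w, ξ (π g w) = ξ w} →
    ∃ Ω : Set H, IsCompact Ω ∧ {g | ξ (π g v) ≠ 0} ⊆ Ω * (Subgroup.center H : Set H)

/-- Smooth, irreducible and supercuspidal. -/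
def IrrSC (π : Representation ℂ H V) : Prop := Smooth π ∧ π.IsIrreducible ∧ Supercuspidal π

/-- A compact-modulo-centre subgroup: open, contains the centre, compact image modulo the
centre. -/
def CMC (K : Subgroup H) : Prop :=
  IsOpen (K : Set H) ∧ Subgroup.center H ≤ K ∧
    IsCompact ((QuotientGroup.mk : H → H ⧸ Subgroup.center H) '' (K : Set H))

omit [TopologicalSpace H] in
/-- Isomorphic representations. -/
def Iso (π : Representation ℂ H V) (σ : Representation ℂ H W) : Prop :=
  ∃ e : V ≃ₗ[ℂ] W, ∀ g v, e (π g v) = σ g (e v)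

omit [TopologicalSpace H] in
/-- The space of the compactly induced representation (for an open subgroup `K`): functions with
`f (k g) = ρ k (f g)` supported on finitely many cosets `K g`. -/
def indSpace (K : Subgroup H) (ρ : Representation ℂ K W) : Submodule ℂ (H → W) where
  carrier := {f | (∀ (k : K) (g : H), f (k * g) = ρ k (f g)) ∧
    ∃ s : Set H, s.Finite ∧ {g | f g ≠ 0} ⊆ (K : Set H) * s}
  zero_mem' := ⟨fun k g => by simp, ∅, Set.finite_empty, fun g hg => by simp at hg⟩
  add_mem' := by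
    rintro f f' ⟨h, s, hs, hf⟩ ⟨h', s', hs', hf'⟩
    refine ⟨fun k g => by simp [h, h'], s ∪ s', hs.union hs', fun g hg => ?_⟩
    by_cases h0 : f g = 0
    · have h1 : f' g ≠ 0 := fun h1 => hg (by simp [h0, h1])
      exact Set.mul_subset_mul_left Set.subset_union_right (hf' h1)
    · exact Set.mul_subset_mul_left Set.subset_union_left (hf h0)
  smul_mem' := by
    rintro a f ⟨h, s, hs, hf⟩
    refine ⟨fun k g => by simp [h], s, hs, fun g hg => hf fun h0 => hg (by simp [h0])⟩

/-- Right translation on functions. -/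
def rightReg (H : Type) [Group H] (W : Type) [AddCommGroup W] [Module ℂ W] :
    Representation ℂ H (H → W) where
  toFun x := LinearMap.funLeft ℂ W fun g => g * x
  map_one' := by ext f g; simp
  map_mul' x y := by ext f g; simp [mul_assoc]

omit [TopologicalSpace H] in
theorem rightReg_mem (K : Subgroup H) (ρ : Representation ℂ K W) (x : H) ⦃f : H → W⦄
    (hf : f ∈ indSpace K ρ) : rightReg H W x f ∈ indSpace K ρ := by
  refine ⟨fun k g => (congrArg f (mul_assoc _ _ _)).trans (hf.1 k (g * x)), ?_⟩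
  obtain ⟨s, hs, hf⟩ := hf.2
  refine ⟨(fun y => y * x⁻¹) '' s, hs.image _, fun g hg => ?_⟩
  obtain ⟨k, hk, y, hy, e⟩ := hf hg
  exact ⟨k, hk, y * x⁻¹, ⟨y, hy, rfl⟩, by
    simp only at e ⊢
    rw [← mul_assoc, e, mul_inv_cancel_right]⟩

omit [TopologicalSpace H] in
/-- Compact induction `ind_K^H ρ`: `H` acts on `indSpace K ρ` by right translation. -/
def cInd (K : Subgroup H) (ρ : Representation ℂ K W) : Representation ℂ H (indSpace K ρ) :=
  (⟨indSpace K ρ, rightReg_mem K ρ⟩ : Subrepresentation (rightReg H W)).toRepresentation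

/-- Every irreducible supercuspidal representation of `H` is compactly induced from an
irreducible (smooth) representation of a compact-modulo-centre subgroup. -/
def AllInduced (H : Type) [Group H] [TopologicalSpace H] : Prop :=
  ∀ (V : Type) [AddCommGroup V] [Module ℂ V] (π : Representation ℂ H V), IrrSC π →
    ∃ K : Subgroup H, CMC K ∧ ∃ (W : Type) (_ : AddCommGroup W) (_ : Module ℂ W)
      (ρ : Representation ℂ K W), Smooth ρ ∧ ρ.IsIrreducible ∧ Iso π (cInd K ρ)

variable {E : Type} [Group E] [TopologicalSpace E]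

/-- `1 → ker p → E → H → 1` is a central extension of topological groups with finite cyclic
kernel. -/
def IsCover (p : E →* H) : Prop :=
  Continuous p ∧ IsOpenMap p ∧ Function.Surjective p ∧ p.ker ≤ Subgroup.center E ∧
    Finite p.ker ∧ IsCyclic p.ker

/-- `s` is a splitting of the cover over `K`. -/
def IsSplitting (p : E →* H) (K : Subgroup H) (s : K →* E) : Prop :=
  Continuous s ∧ ∀ k, p (s k) = k

omit [TopologicalSpace H] [TopologicalSpace E] in
/-- The kernel `Z` acts through `ε`. -/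
def Genuine (p : E →* H) (ε : p.ker →* ℂˣ) (π : Representation ℂ E V) : Prop :=
  ∀ (z : p.ker) (v : V), π z v = (ε z : ℂ) • v

omit [TopologicalSpace H] [TopologicalSpace E] in
/-- `ρ'` is the representation of the preimage `Z s(K)` of `K` equal to `ρ ∘ s⁻¹` on `s(K)` and to
`ε` on `Z`. -/
def IsLift (p : E →* H) (ε : p.ker →* ℂˣ) (K : Subgroup H) (s : K →* E)
    (ρ : Representation ℂ K W) (ρ' : Representation ℂ (K.comap p) W) : Prop :=
  (∀ (k : K) (h : s k ∈ K.comap p), ρ' ⟨s k, h⟩ = ρ k) ∧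
    ∀ (z : p.ker) (h : (z : E) ∈ K.comap p) (w : W), ρ' ⟨z, h⟩ w = (ε z : ℂ) • w

/-- `π` is isomorphic to some `ind ρ'`, where `K` is compact modulo the centre, `s` is a splitting
over `K`, `ρ` is an irreducible representation of `K` with `ind_K^H ρ` irreducible and
supercuspidal, and `ρ'` is the lift of `ρ`. -/
def OfForm (p : E →* H) (ε : p.ker →* ℂˣ) (π : Representation ℂ E V) : Prop :=
  ∃ K : Subgroup H, CMC K ∧ ∃ s : K →* E, IsSplitting p K s ∧
    ∃ (W : Type) (_ : AddCommGroup W) (_ : Module ℂ W) (ρ : Representation ℂ K W)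
      (ρ' : Representation ℂ (K.comap p) W), Smooth ρ ∧ ρ.IsIrreducible ∧ IrrSC (cInd K ρ) ∧
        IsLift p ε K s ρ ρ' ∧ Iso π (cInd (K.comap p) ρ')

end General

/-- `(-1, c)` generates a normal (central) subgroup. -/
instance normal_zpowers {k : Type} [Field k] {C : Type} [CommGroup C] (c : C) :
    (Subgroup.zpowers ((-1, c) : SL(2, k) × C)).Normal := ⟨by
  rintro _ ⟨n, rfl⟩ g
  have h : Commute ((-1, c) : SL(2, k) × C) g := Prod.ext (by simp) (mul_comm _ _)
  refine ⟨n, ?_⟩
  simp only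
  rw [← (h.zpow_left n).eq, mul_inv_cancel_right]⟩

/-- `(SL_2(k) × C) / ⟨(-1, c)⟩`. -/
abbrev Grp (k : Type) [Field k] {C : Type} [CommGroup C] (c : C) : Type :=
  (SL(2, k) × C) ⧸ Subgroup.zpowers ((-1, c) : SL(2, k) × C)

/-- The scalars `k^×` inside `A^×`. -/
def scal (k A : Type) [Field k] [CommRing A] [Algebra k A] : Subgroup Aˣ :=
  (Units.map (algebraMap k A).toMonoidHom).range

/-- `A^× / k^×`. -/
def PU (k A : Type) [Field k] [CommRing A] [Algebra k A] : Type := Aˣ ⧸ scal k A

instance PU.group (k A : Type) [Field k] [CommRing A] [Algebra k A] : CommGroup (PU k A) :=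
  QuotientGroup.Quotient.commGroup (scal k A)

/-- The quotient topology. -/
instance PU.top (k A : Type) [Field k] [CommRing A] [Algebra k A] [TopologicalSpace A] :
    TopologicalSpace (PU k A) :=
  QuotientGroup.instTopologicalSpace (scal k A)

/-- The class of a unit in `A^× / k^×`. -/
def PU.mk (k : Type) {A : Type} [Field k] [CommRing A] [Algebra k A] (u : Aˣ) : PU k A :=
  QuotientGroup.mk u

/-- The numbers `b = 2, -2, 10`; they generate `Q_2^×` modulo squares. -/
def bb : Fin 3 → ℚ_[2] := ![2, -2, 10]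

/-- A root of `X ^ 8 = b` in the algebraic closure of `Q_2`. -/
def rt (i : Fin 3) : PadicAlgCl 2 :=
  Classical.choose (IsAlgClosed.exists_pow_nat_eq (algebraMap ℚ_[2] (PadicAlgCl 2) (bb i))
    (show 0 < 8 by norm_num))

theorem rt_pow (i : Fin 3) : rt i ^ 8 = algebraMap ℚ_[2] (PadicAlgCl 2) (bb i) :=
  Classical.choose_spec (IsAlgClosed.exists_pow_nat_eq (algebraMap ℚ_[2] (PadicAlgCl 2) (bb i))
    (show 0 < 8 by norm_num))

/-- The field `L_b = Q_2(b ^ (1/8))`. -/
def Lf (i : Fin 3) : Type := IntermediateField.adjoin ℚ_[2] {rt i}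

/-- The 2-adic norm on `L_b`. -/
instance Lf.normedField (i : Fin 3) : NormedField (Lf i) :=
  SubfieldClass.toNormedField (IntermediateField.adjoin ℚ_[2] {rt i})

instance Lf.algebra (i : Fin 3) : Algebra ℚ_[2] (Lf i) :=
  IntermediateField.algebra' (IntermediateField.adjoin ℚ_[2] {rt i})

theorem gen_ne (i : Fin 3) :
    (show Lf i from IntermediateField.AdjoinSimple.gen ℚ_[2] (rt i)) ≠ 0 := by
  intro h
  have h1 : rt i = 0 := congrArg Subtype.val h
  have h2 := rt_pow i
  rw [h1, zero_pow (by norm_num), eq_comm, map_eq_zero] at h2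
  fin_cases i <;> simp [bb] at h2

/-- `b ^ (1/8)` as a unit of `L_b`. -/
def gen (i : Fin 3) : (Lf i)ˣ :=
  Units.mk0 (show Lf i from IntermediateField.AdjoinSimple.gen ℚ_[2] (rt i)) (gen_ne i)

/-- The element `(√2, √-2, √10)` of order two of `T(Q_2) = ∏ L_b^× / Q_2^×`. -/
def c0 : ∀ i, PU ℚ_[2] (Lf i) := fun i => PU.mk ℚ_[2] (gen i ^ 4)

/-- `G = (SL_2(Q_2) × T(Q_2)) / ⟨(-1, c0)⟩`. -/
def GG : Type := Grp ℚ_[2] c0

instance GG.group : Group GG := QuotientGroup.Quotient.group _

/-- The quotient topology. -/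
instance GG.top : TopologicalSpace GG := QuotientGroup.instTopologicalSpace _

/-- The class in `G` of a matrix and units of the `L_b`. -/
def clsG (s : SL(2, ℚ_[2])) (l : ∀ i, (Lf i)ˣ) : GG :=
  QuotientGroup.mk (s, fun i => PU.mk ℚ_[2] (l i))

/-- `Qbar ⊗ L_b`, with `Qbar` the algebraic closure of `Q_2`. -/
def Ab (i : Fin 3) : Type := TensorProduct ℚ_[2] (PadicAlgCl 2) (Lf i)

instance Ab.ring (i : Fin 3) : CommRing (Ab i) := Algebra.TensorProduct.instCommRing

instance Ab.algebra (i : Fin 3) : Algebra (PadicAlgCl 2) (Ab i) :=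
  Algebra.TensorProduct.leftAlgebra

/-- `l ↦ 1 ⊗ l`. -/
def incl (i : Fin 3) : Lf i →* Ab i :=
  (Algebra.TensorProduct.includeRight (R := ℚ_[2]) (A := PadicAlgCl 2) (B := Lf i)).toMonoidHom

/-- `σ ⊗ 1`. -/
def gal (σ : PadicAlgCl 2 ≃ₐ[ℚ_[2]] PadicAlgCl 2) (i : Fin 3) : Ab i →* Ab i :=
  (Algebra.TensorProduct.map σ.toAlgHom (AlgHom.id ℚ_[2] (Lf i))).toMonoidHom

/-- The image of `c0` in `T(Qbar) = ∏ (Qbar ⊗ L_b)^× / Qbar^×`. -/
def cB : ∀ i, PU (PadicAlgCl 2) (Ab i) :=
  fun i => PU.mk (PadicAlgCl 2) (Units.map (incl i) (gen i ^ 4))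

/-- The `Qbar`-points `(SL_2(Qbar) × T(Qbar)) / μ_2` of the group `(SL_2 × T) / μ_2`. -/
def GB : Type := Grp (PadicAlgCl 2) cB

instance GB.group : Group GB := QuotientGroup.Quotient.group _

/-- The class in `GB` of a matrix and units of the `Qbar ⊗ L_b`. -/
def clsB (s : SL(2, PadicAlgCl 2)) (t : ∀ i, (Ab i)ˣ) : GB :=
  QuotientGroup.mk (s, fun i => PU.mk (PadicAlgCl 2) (t i))

/-- The natural map identifies `GG` with the Galois-fixed points of `GB`. -/
def IsPoints : Prop :=
  ∃ j : GG →* GB, Function.Injective j ∧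
    (∀ s l, j (clsG s l) = clsB (Matrix.SpecialLinearGroup.map (algebraMap ℚ_[2] (PadicAlgCl 2)) s)
      fun i => Units.map (incl i) (l i)) ∧
    ∀ s t, clsB s t ∈ j.range ↔ ∀ σ : PadicAlgCl 2 ≃ₐ[ℚ_[2]] PadicAlgCl 2,
      clsB (Matrix.SpecialLinearGroup.map σ.toRingEquiv.toRingHom s)
        (fun i => Units.map (gal σ i) (t i)) = clsB s t

end Pool.Agent.P.MP_2ea9e4_al
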