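import Pool.Agent.P.MP_2ea9e4_al.SL2

/-!
# Split strata and Iwahori-fixed vectors do not occur in supercuspidals of `SL_2(Q_2)`
-/

noncomputable section

namespace Pool.Agent.P.MP_2ea9e4_al

open scoped Classical

variable {V : Type} [AddCommGroup V] [Module ℂ V] {π : Representation ℂ S V}

variable (π) in
/-- Matrix coefficients have bounded support. -/
def SCb : Prop :=
  ∀ (v : V) (ξ : V →ₗ[ℂ] ℂ), {g | ∀ w, ξ (π g w) = ξ w} ∈ nhds (1 : S) →
    ∃ R, ∀ g, ξ (π g v) ≠ 0 → ∀ i j, ‖g i j‖ ≤ R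

variable (π) in
/-- `v` is fixed by the congruence subgroup. -/
def Fix (i j k : ℤ) (v : V) : Prop := ∀ g, InP i j k g → π g v = v

theorem eq_zero_of_neg {v : V} (h : v = -v) : v = 0 := by
  have h2 : (2 : ℂ) • v = 0 := by rw [two_smul]; nth_rewrite 2 [h]; exact add_neg_cancel v
  exact (smul_eq_zero.1 h2).resolve_left two_ne_zero

theorem fix_of {i j k : ℤ} {v : V} (hk : 1 ≤ k) (hx : ∀ b, D i b → π (xx b) v = v)
    (hy : ∀ c, D j c → π (yy c) v = v) (hu : ∀ u hu, D k (u - 1) → π (hh u hu) v = v) :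
    Fix π i j k v := by
  intro g hg
  have h1 : ‖g 0 0‖ = 1 := (hg.2.2.1.mono hk).norm_one
  rw [iwahori g (ne_of_norm h1), rep_mul, rep_mul, hx _ (hg.1.div h1), hu _ _ hg.2.2.1,
    hy _ (hg.2.1.div h1)]

theorem Fix.x {i j k : ℤ} {v : V} (h : Fix π i j k v) {b : F} (hb : D i b) : π (xx b) v = v :=
  h _ (InP_xx hb)

theorem Fix.y {i j k : ℤ} {v : V} (h : Fix π i j k v) {c : F} (hc : D j c) : π (yy c) v = v :=
  h _ (InP_yy hc)

theorem Fix.h {i j k : ℤ} {v : V} (h : Fix π i j k v) (hk : 1 ≤ k) {u : F} (hu)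
    (hc : D k (u - 1)) : π (hh u hu) v = v :=
  h _ (InP_hh hu hc (hc.mono hk).norm_one)

theorem Fix.mono {i j k i' j' k' : ℤ} {v : V} (h : Fix π i j k v) (hi : i ≤ i') (hj : j ≤ j')
    (hk : k ≤ k') : Fix π i' j' k' v := fun g hg => h g (hg.mono hi hj hk)

/-- `diag (2 ^ m, 2 ^ (-m))`. -/
def TT2 (m : ℤ) : S := hh (2 ^ m) (two_zpow_ne m)

theorem TT2_add (m n : ℤ) : TT2 (m + n) = TT2 m * TT2 n := by
  simp only [TT2, hh_mul, zpow_add₀ (two_ne_zero' F)]

theorem noY (hs : Smooth π) (hsc : SCb π) (Y : ℤ → V → Prop) {N k : ℤ} (h0 : 0 ≤ k) (h1 : k ≤ N)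
    (ha : ∀ i v, Y i v → Fix π i (N - i) k v)
    (hb : ∀ i v, Y (i + 1) v → Y i (v + π (xx (2 ^ i)) v))
    (hc : ∀ i v, Y (i + 1) v → π (xx (2 ^ i)) v = -v → v = 0)
    (hd : ∀ i v, Y i v → Y (i + 2) (π (TT2 1) v)) (i : ℤ) (v : V) (hv : Y i v) : v = 0 := by
  by_contra hne
  let A : ℤ → V → V := fun m w => w + π (xx (2 ^ m)) w
  have hA : ∀ m w, Y (m + 1) w ∧ w ≠ 0 → Y m (A m w) ∧ A m w ≠ 0 := fun m w h =>
    ⟨hb m w h.1, fun e => h.2 (hc m w h.1 (eq_neg_of_add_eq_zero_right e))⟩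
  let U : V → V := fun w => π (TT2 1) (A (i - 2) (A (i - 1) w))
  have hU : ∀ w, Y i w ∧ w ≠ 0 → Y i (U w) ∧ U w ≠ 0 := fun w h => by
    have a := hA (i - 1) w (by simpa using h)
    have b := hA (i - 2) _ (by rw [show i - 2 + 1 = i - 1 by ring]; exact a)
    exact ⟨by simpa using hd _ _ b.1, rep_ne π _ b.2⟩
  have hu : ∀ n : ℕ, Y i (U^[n] v) ∧ U^[n] v ≠ 0 := fun n => by
    induction n with
    | zero => exact ⟨hv, hne⟩
    | succ n ih => rw [Function.iterate_succ_apply']; exact hU _ ih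
  obtain ⟨ξ0, hξ0⟩ := exists_functional (fun n => U^[n] v) fun n => (hu n).2
  obtain ⟨e, he⟩ := exists_proj π hs (PP i (N - i) k h0 (by omega)) (isCompact_InP _ _ _)
  let ξ := ξ0 ∘ₗ e
  have hξ : ∀ g, InP i (N - i) k g → ∀ w, ξ (π g w) = ξ w := fun g hg w => by
    simp only [ξ, LinearMap.comp_apply, he.inv g hg w]
  have h2 : ∀ (m l : ℤ) w, i ≤ l + 2 * m → ξ (π (TT2 m) (A l w)) = 2 * ξ (π (TT2 m) w) := by
    intro m l w hl
    simp only [A, map_add]
    rw [← rep_mul, TT2, hh_xx, rep_mul, hξ _ (InP_xx ?_), two_mul]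
    exact (((D_pow m).mul (D_pow m)).mul (D_pow l)).mono (by omega)
  have h3 : ∀ (n : ℕ) (m : ℤ), 0 ≤ m →
      ξ (π (TT2 m) (U^[n] v)) = 4 ^ n * ξ (π (TT2 (m + n)) v) := by
    intro n
    induction n with
    | zero => intro m _; simp
    | succ n ih =>
      intro m hm
      rw [Function.iterate_succ_apply']
      simp only [U]
      rw [← rep_mul, ← TT2_add, h2 _ _ _ (by omega), h2 _ _ _ (by omega), ih _ (by omega)]
      push_cast
      rw [show m + 1 + n = m + (n + 1) by ring]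
      ring
  obtain ⟨R, hR⟩ := hsc v ξ (Filter.mem_of_superset ((isOpen_InP i (N - i) k).mem_nhds
    (PP i (N - i) k h0 (by omega)).one_mem) hξ)
  obtain ⟨n, hn⟩ := pow_unbounded_of_one_lt R (one_lt_two (α := ℝ))
  have h4 := h3 n 0 le_rfl
  have h5 : TT2 0 = 1 := by apply ext2 <;> simp [TT2, hh]
  rw [h5, rep_one, zero_add] at h4
  have h6 : ξ (U^[n] v) ≠ 0 := by
    simp only [ξ, LinearMap.comp_apply]
    rw [he.id _ (ha _ _ (hu n).1)]
    exact hξ0 n
  have h7 := hR (TT2 n) (fun h => h6 (by rw [h4, h, mul_zero])) 1 1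
  have h8 : ‖TT2 n 1 1‖ = 2 ^ n := by
    simp only [TT2, hh, mk2_11, norm_inv, norm_two_zpow]
    simp
  linarith

variable (π) in
/-- Fixed by the two unipotent groups, and the torus acts through `s`. -/
def Ys (s : F → ℂ) (i j k : ℤ) (v : V) : Prop :=
  (∀ b, D i b → π (xx b) v = v) ∧ (∀ c, D j c → π (yy c) v = v) ∧
    ∀ u hu, D k (u - 1) → π (hh u hu) v = s u • v

theorem Ys.fix {s : F → ℂ} {i j k k' : ℤ} {v : V} (h : Ys π s i j k v) (h1 : 1 ≤ k) (h2 : k ≤ k')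
    (hs : ∀ u, D k' (u - 1) → s u = 1) : Fix π i j k' v :=
  fix_of (by omega) h.1 h.2.1 fun u hu hk => by rw [h.2.2 u hu (hk.mono h2), hs u hk, one_smul]

theorem x_add {i : ℤ} {v : V} (h : ∀ b, D (i + 1) b → π (xx b) v = v) (b : F) (hb : D i b) :
    π (xx b) (v + π (xx (2 ^ i)) v) = v + π (xx (2 ^ i)) v := by
  rw [map_add, ← rep_mul, xx_mul]
  rcases hb.dich with h1 | h1
  · rw [h b h1, add_comm b, ← xx_mul, rep_mul, h b h1]
  · rw [h (b + 2 ^ i) ((h1.add ((D_pow i).mul D_two)).of_eq (by ring)), add_comm]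
    congr 1
    rw [show b = 2 ^ i + (b - 2 ^ i) by ring, ← xx_mul, rep_mul, h _ h1]

theorem y_add {i : ℤ} {v : V} (h : ∀ b, D (i + 1) b → π (yy b) v = v) (b : F) (hb : D i b) :
    π (yy b) (v + π (yy (2 ^ i)) v) = v + π (yy (2 ^ i)) v := by
  rw [map_add, ← rep_mul, yy_mul]
  rcases hb.dich with h1 | h1
  · rw [h b h1, add_comm b, ← yy_mul, rep_mul, h b h1]
  · rw [h (b + 2 ^ i) ((h1.add ((D_pow i).mul D_two)).of_eq (by ring)), add_comm]
    congr 1
    rw [show b = 2 ^ i + (b - 2 ^ i) by ring, ← yy_mul, rep_mul, h _ h1]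

theorem rep_conj (g x : S) (v : V) : π g (π x v) = π x (π (x⁻¹ * g * x) v) := by
  rw [← rep_mul, ← rep_mul]
  simp [mul_assoc]

theorem Ys.add {s : F → ℂ} {N i k k' : ℤ} {v : V} (h : Ys π s (i + 1) (N - (i + 1)) k v)
    (h1 : 1 ≤ k) (h2 : k ≤ k') (h3 : k' ≤ N) (hs : ∀ u, D k' (u - 1) → s u = 1) :
    Ys π s i (N - i) k (v + π (xx (2 ^ i)) v) := by
  have hf := h.fix h1 h2 hs
  refine ⟨x_add h.1, fun c hc => ?_, fun u hu hk => ?_⟩
  · rw [map_add, h.2.1 c (hc.mono (by omega)), rep_conj, hf]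
    unfold InP
    rw [xx_inv]
    simp only [mul2, xx, yy, mk2_00, mk2_01, mk2_10, mk2_11]
    have := (D_pow i).mul hc
    exact ⟨(((D_pow i).mul this).neg.mono (by omega)).of_eq (by ring),
      (hc.mono (by omega)).of_eq (by ring), (this.neg.mono (by omega)).of_eq (by ring),
      (this.mono (by omega)).of_eq (by ring)⟩
  · rw [map_add, ← rep_mul, hh_xx, rep_mul, h.2.2 u hu hk, smul_add, map_smul]
    congr 2
    rw [show u * u * 2 ^ i = 2 ^ i + (u * u - 1) * 2 ^ i by ring, ← xx_mul, rep_mul, h.1]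
    exact (hk.sq_sub h1).mul' (D_pow i) (by omega)

theorem Ys.shift {s : F → ℂ} {N i k : ℤ} {v : V} (h : Ys π s i (N - i) k v) :
    Ys π s (i + 2) (N - (i + 2)) k (π (TT2 1) v) := by
  refine ⟨fun b hb => ?_, fun c hc => ?_, fun u hu hk => ?_⟩
  · have : xx b * TT2 1 = TT2 1 * xx (2 ^ (-2 : ℤ) * b) := by
      rw [TT2, hh_xx]
      congr 2
      field_simp
    rw [← rep_mul, this, rep_mul, h.1]
    exact (D_pow (-2)).mul' hb (by omega)
  · rw [← rep_mul, TT2, yy_hh, rep_mul, h.2.1]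
    exact ((D_pow 1).mul (D_pow 1)).mul' hc (by omega)
  · have : hh u hu * TT2 1 = TT2 1 * hh u hu := by simp only [TT2, hh_mul, mul_comm]
    rw [← rep_mul, this, rep_mul, h.2.2 u hu hk, map_smul]

theorem noYs (hs : Smooth π) (hsc : SCb π) {s : F → ℂ} {N k k' : ℤ} (h1 : 1 ≤ k) (h2 : k ≤ k')
    (h3 : k' ≤ N) (hs1 : ∀ u, D k' (u - 1) → s u = 1)
    (hc : ∀ i v, Ys π s (i + 1) (N - (i + 1)) k v → π (xx (2 ^ i)) v = -v → v = 0) (i : ℤ)
    (v : V) (hv : Ys π s i (N - i) k v) : v = 0 :=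
  noY hs hsc (fun i v => Ys π s i (N - i) k v) (by omega) h3 (fun _ _ h => h.fix h1 h2 hs1)
    (fun _ _ h => h.add h1 h2 h3 hs1) hc (fun _ _ h => h.shift) i v hv

theorem cube_eq (a : F) (ha : a ≠ 0) :
    xx a * yy (-a⁻¹) * (xx a * yy (-a⁻¹) * (xx a * yy (-a⁻¹))) = -1 := by
  apply ext2 <;> simp only [mul2, xx, yy, mk2_00, mk2_01, mk2_10, mk2_11, neg2, one00, one01,
    one10, one11] <;> field_simp <;> ring

/-- No Iwahori-fixed vectors. -/
theorem no_iwahori (hs : Smooth π) (hsc : SCb π) (i : ℤ) (v : V) (hv : Fix π i (1 - i) 1 v) :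
    v = 0 := by
  refine noYs hs hsc (s := fun _ => 1) (N := 1) le_rfl le_rfl le_rfl (fun _ _ => rfl) ?_ i v
    ⟨fun b => hv.x, fun c => hv.y, fun u hu hk => by rw [hv.h le_rfl hu hk, one_smul]⟩
  intro i v h hx
  have hf := h.fix le_rfl le_rfl fun _ _ => rfl
  have h1 : π (xx (2 ^ i) * yy (-(2 ^ i)⁻¹)) v = -v := by
    rw [rep_mul, hf.y, hx]
    rw [← zpow_neg]
    exact (D_pow (-i)).neg.mono (by omega)
  have h2 := hf _ neg_one_InP
  rw [← cube_eq _ (two_zpow_ne i), rep_mul _ (_ * _), rep_mul _ (_ * _), h1, map_neg, h1, neg_neg,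
    h1] at h2
  exact eq_zero_of_neg h2.symm

/-- The sign character of `(1 + 2 ^ k Z_2) / (1 + 2 ^ (k + 1) Z_2)`. -/
def sg (k : ℤ) (u : F) : ℂ := if D (k + 1) (u - 1) then 1 else -1

theorem Ys.neg {i j k : ℤ} {v : V} (h : Ys π (sg k) i j k v) (hk : 1 ≤ k) {g : S}
    (h1 : D j (g 1 0)) (h2 : D k (g 0 0 - 1)) (h3 : ¬ D (k + 1) (g 0 0 - 1)) {w : V}
    (h4 : π (xx (g 0 1 / g 0 0)) v = w) (h5 : w = v ∨ w = -v) : π g v = -w := by
  have h0 : ‖g 0 0‖ = 1 := (h2.mono hk).norm_one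
  rw [iwahori g (ne_of_norm h0), rep_mul, rep_mul, h4]
  rcases h5 with rfl | rfl
  · rw [h.2.2 _ _ h2, sg, if_neg h3, map_smul, h.2.1 _ (h1.div h0)]; simp
  · rw [map_neg, h.2.2 _ _ h2, sg, if_neg h3, map_neg, map_smul, h.2.1 _ (h1.div h0)]; simp

theorem no_split_aux (hs : Smooth π) (hsc : SCb π) {k : ℤ} (hk : 1 ≤ k) (n : ℕ) :
    (n : ℤ) ≤ k + 1 → ∀ i v, Ys π (sg k) i (k + n - i) k v → v = 0 := by
  induction n with
  | zero =>
    intro _ i v h
    have e : (2 : F) ^ i * 2 ^ (k - i) = 2 ^ k := by rw [← zpow_add₀ two_ne_zero]; simp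
    have e0 : (xx (2 ^ i) * yy (2 ^ (k - i))) 0 0 - 1 = 2 ^ k := by simp [mul2, xx, yy, e]
    have h0 : D k ((xx (2 ^ i) * yy (2 ^ (k - i))) 0 0 - 1) := e0 ▸ D_pow k
    have h1 := h.neg hk (g := xx (2 ^ i) * yy (2 ^ (k - i)))
      ((D_pow (k - i)).of_eq (by simp [mul2, xx, yy]) |>.mono (by simp)) h0 (e0 ▸ not_D_pow k)
      (h.1 _ (D.div ((D_pow i).of_eq (by simp [mul2, xx, yy])) (h0.mono hk).norm_one)) (Or.inl rfl)
    rw [rep_mul, h.2.1 _ ((D_pow _).mono (by simp)), h.1 _ (D_pow i)] at h1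
    exact eq_zero_of_neg h1
  | succ n ih =>
    intro hn
    push_cast at hn ⊢
    refine noYs hs hsc (N := k + (n + 1)) (k' := k + 1) hk (by omega) (by omega)
      (fun u hu => if_pos hu) ?_
    intro i v h hx
    have hf := h.fix hk (k' := k + 1) (by omega) fun u hu => if_pos hu
    have hσ := D_pow (k - i)
    have e : (2 : F) ^ i * 2 ^ (k - i) = 2 ^ k := by rw [← zpow_add₀ two_ne_zero]; simp
    have := ih (by omega) i (π (yy (2 ^ (k - i))) v) ⟨fun b hb => ?_, fun c hc => ?_,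
      fun u hu hu1 => ?_⟩
    · rw [← rep_inv π (yy (2 ^ (k - i))) v, this, map_zero]
    · rw [rep_conj]
      congr 1
      rw [yy_inv]
      set g := yy (-2 ^ (k - i)) * xx b * yy (2 ^ (k - i)) with hg
      have g00 : g 0 0 = 1 + b * 2 ^ (k - i) := by simp [hg, mul2, xx, yy]
      have g01 : g 0 1 = b := by simp [hg, mul2, xx, yy]
      have g10 : g 1 0 = -(b * 2 ^ (k - i) * 2 ^ (k - i)) := by
        simp only [hg, mul2, xx, yy, mk2_00, mk2_01, mk2_10, mk2_11]; ring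
      have g11 : g 1 1 = 1 - b * 2 ^ (k - i) := by
        simp only [hg, mul2, xx, yy, mk2_00, mk2_01, mk2_10, mk2_11]; ring
      rcases hb.dich with h1 | h1
      · apply hf
        unfold InP
        rw [g00, g01, g10, g11]
        exact ⟨h1, ((h1.mul hσ).mul' hσ (by omega)).neg,
          (h1.mul' hσ (by omega)).of_eq (by ring), (h1.mul' hσ (by omega)).neg.of_eq (by ring)⟩
      · have a1 : D k (g 0 0 - 1) := (hb.mul' hσ (by omega)).of_eq (by rw [g00]; ring)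
        have a2 : ‖g 0 0‖ = 1 := (a1.mono hk).norm_one
        have a3 := h.neg hk (g := g) (g10 ▸ ((hb.mul hσ).mul' hσ (by omega)).neg) a1
          (fun a => not_D_pow k ((a.sub (h1.mul' hσ (by omega))).of_eq (by rw [g00, ← e]; ring)))
          (w := -v) ?_ (Or.inr rfl)
        · rw [a3, neg_neg]
        · rw [show g 0 1 / g 0 0 = 2 ^ i + (g 0 1 / g 0 0 - 2 ^ i) by ring, ← xx_mul, rep_mul,
            h.1, hx]
          have := ne_of_norm a2
          exact ((h1.sub ((D_pow i).mul' a1 (by omega))).div a2).of_eq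
            (by rw [g01]; field_simp; ring)
    · rw [← rep_mul, yy_mul, add_comm, ← yy_mul, rep_mul, h.2.1 c (hc.mono (by omega))]
    · have h1 := (hu1.mono hk).norm_one
      have e1 : hh u hu * yy (2 ^ (k - i)) = yy (2 ^ (k - i) / (u * u)) * hh u hu := by
        rw [yy_hh]
        congr 2
        field_simp
      rw [← rep_mul, e1, rep_mul, h.2.2 u hu hu1, map_smul]
      congr 1
      rw [show 2 ^ (k - i) / (u * u) = 2 ^ (k - i) + (2 ^ (k - i) / (u * u) - 2 ^ (k - i)) by ring,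
        ← yy_mul, rep_mul, h.2.1]
      exact (((hσ.mul' (hu1.sq_sub hk) (by omega)).neg.div h1).div h1).of_eq
        (by field_simp; ring)

/-- No split strata. -/
theorem no_split (hs : Smooth π) (hsc : SCb π) {i j k : ℤ} (hk : 1 ≤ k) (hij : i + j = 2 * k + 1)
    {w : V} (hw : Fix π i j (k + 1) w) : Fix π i j k w := by
  have d0 : D k ((1 + 2 ^ k : F) - 1) := (D_pow k).of_eq (by ring)
  have n0 : ‖(1 + 2 ^ k : F)‖ = 1 := (d0.mono hk).norm_one
  set h := hh (1 + 2 ^ k) (ne_of_norm n0) with hdef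
  have key : ∀ u (hu : u ≠ 0), D k (u - 1) → ¬ D (k + 1) (u - 1) →
      ∃ u' hu', D (k + 1) (u' - 1) ∧ hh u hu = h * hh u' hu' := fun u hu h1 h2 => by
    have := ne_of_norm n0
    refine ⟨u / (1 + 2 ^ k), div_ne_zero hu this,
      ((h1.dich.resolve_left h2).div n0).of_eq (by field_simp; ring), ?_⟩
    rw [hdef, hh_mul]
    congr 1
    field_simp
  have comm : ∀ u hu, hh u hu * h = h * hh u hu := fun u hu => by
    simp only [hdef, hh_mul, mul_comm]
  have hz := no_split_aux hs hsc hk (k + 1).toNat (by omega) i (w - π h w)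
    ⟨fun b hb => ?_, fun c hc => ?_, fun u hu h1 => ?_⟩
  · refine fix_of hk (fun b => hw.x) (fun c => hw.y) fun u hu h1 => ?_
    by_cases h2 : D (k + 1) (u - 1)
    · exact hw.h (by omega) hu h2
    · obtain ⟨u', hu', h3, e⟩ := key u hu h1 h2
      rw [e, rep_mul, hw.h (by omega) hu' h3, ← sub_eq_zero.1 hz]
  · have : xx b * h = h * xx (b / (1 + 2 ^ k) / (1 + 2 ^ k)) := by
      have := ne_of_norm n0
      rw [hdef, hh_xx]
      congr 2
      field_simp
    rw [map_sub, hw.x hb, ← rep_mul, this, rep_mul, hw.x ((hb.div n0).div n0)]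
  · have hc' : D j c := hc.mono (by omega)
    rw [map_sub, hw.y hc', ← rep_mul, hdef, yy_hh, rep_mul,
      hw.y (((D_of_norm n0).mul0 (D_of_norm n0)).zero_mul hc')]
  · by_cases h2 : D (k + 1) (u - 1)
    · rw [map_sub, ← rep_mul, comm, rep_mul, hw.h (by omega) hu h2, sg, if_pos h2, one_smul]
    · obtain ⟨u', hu', h3, e⟩ := key u hu h1 h2
      have h4 : π (h * h) w = w := by
        rw [hdef, hh_mul]
        exact hw.h (by omega) _ (d0.sq_sub hk)
      rw [map_sub, ← rep_mul, e, mul_assoc, comm, ← mul_assoc, rep_mul, rep_mul π (h * h),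
        hw.h (by omega) hu' h3, h4, sg, if_neg h2]
      simp

end Pool.Agent.P.MP_2ea9e4_al
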