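import Pool.Agent.P.MP_2ea9e4_al.Exh

/-!
# Every supercuspidal representation of `SL_2(Q_2)` contains a cuspidal type
-/

noncomputable section

namespace Pool.Agent.P.MP_2ea9e4_al

variable {V : Type} [AddCommGroup V] [Module ℂ V] {π : Representation ℂ S V}

/-- Conjugation by `diag (z, 1)`. -/
def al (z : F) (hz : z ≠ 0) : S →* S where
  toFun g := mk2 (g 0 0) (z * g 0 1) (g 1 0 / z) (g 1 1) (by
    have := det2 g
    field_simp
    linear_combination this)
  map_one' := by apply ext2 <;> simp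
  map_mul' g h := by
    apply ext2 <;> simp only [mul2, mk2_00, mk2_01, mk2_10, mk2_11] <;> field_simp

theorem al00 (z hz) (g : S) : al z hz g 0 0 = g 0 0 := rfl
theorem al01 (z hz) (g : S) : al z hz g 0 1 = z * g 0 1 := rfl
theorem al10 (z hz) (g : S) : al z hz g 1 0 = g 1 0 / z := rfl
theorem al11 (z hz) (g : S) : al z hz g 1 1 = g 1 1 := rfl

theorem al_al (z hz) (g : S) : al z hz (al z⁻¹ (inv_ne_zero hz) g) = g := by
  apply ext2 <;> simp only [al00, al01, al10, al11] <;> field_simp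

theorem al_al' (z hz) (g : S) : al z⁻¹ (inv_ne_zero hz) (al z hz g) = g := by
  apply ext2 <;> simp only [al00, al01, al10, al11] <;> field_simp

theorem al_neg_one (z hz) : al z hz (-1) = -1 := by
  apply ext2 <;> simp [al00, al01, al10, al11]

theorem continuous_al (z hz) : Continuous (al z hz) := by
  refine Continuous.subtype_mk (continuous_matrix fun i j => ?_) _
  fin_cases i <;> fin_cases j
  · exact continuous_entry 0 0
  · exact (continuous_entry 0 1).const_mul z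
  · exact (continuous_entry 1 0).div_const z
  · exact continuous_entry 1 1

theorem InP.al {i j k : ℤ} {g : S} (h : InP i j k g) (m : ℤ) :
    InP (i + m) (j - m) k (al (2 ^ m) (two_zpow_ne m) g) :=
  ⟨(D_pow m).mul' h.1 (by omega), (h.2.1.mul' (D_pow (-m)) (by omega)).of_eq
    (by rw [al10, zpow_neg, div_eq_mul_inv]), h.2.2.1, h.2.2.2⟩

theorem fix_al {i j k : ℤ} {v : V} (m : ℤ) :
    Fix (π.comp (al (2 ^ m) (two_zpow_ne m))) i j k v ↔ Fix π (i + m) (j - m) k v := by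
  refine ⟨fun h g hg => ?_, fun h g hg => h _ (hg.al m)⟩
  have h1 := h _ ((hg.al (-m)).mono (by omega) (by omega) le_rfl)
  simp only [zpow_neg] at h1
  rw [← al_al _ (two_zpow_ne m) g]
  exact h1

variable (π) in
/-- A compact open subgroup `J` and a `J`-subspace whose translates are independent. -/
def Concl : Prop :=
  ∃ (J : Subgroup S) (U : Submodule ℂ V) (e : V →ₗ[ℂ] V), IsCompact (J : Set S) ∧
    IsOpen (J : Set S) ∧ -1 ∈ J ∧ U ≠ ⊥ ∧ (∀ g ∈ J, ∀ v ∈ U, π g v ∈ U) ∧ (∀ v ∈ U, e v = v) ∧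
      ∀ g ∉ J, ∀ v ∈ U, e (π g v) = 0

theorem Concl.of_al {z hz} (h : Concl (π.comp (al z hz))) : Concl π := by
  obtain ⟨J, U, e, h1, h2, h3, h4, h5, h6, h7⟩ := h
  have hJ : ((J.comap (al z⁻¹ (inv_ne_zero hz)) : Subgroup S) : Set S) = al z hz '' J := by
    ext g
    exact ⟨fun hg => ⟨_, hg, al_al z hz g⟩, by
      rintro ⟨g, hg, rfl⟩
      simpa [al_al'] using hg⟩
  refine ⟨J.comap (al z⁻¹ (inv_ne_zero hz)), U, e, hJ ▸ h1.image (continuous_al _ _),
    h2.preimage (continuous_al _ _), by simpa [al_neg_one] using h3, h4, fun g hg v hv => ?_, h6,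
    fun g hg v hv => ?_⟩
  · simpa [al_al] using h5 _ hg v hv
  · simpa [al_al] using h7 _ hg v hv

/-- The fixed vectors of a subgroup. -/
def fixed {H : Type} [Group H] (π : Representation ℂ H V) (Γ : Subgroup H) : Submodule ℂ V where
  carrier := {v | ∀ γ ∈ Γ, π γ v = v}
  zero_mem' := fun _ _ => map_zero _
  add_mem' := fun ha hb γ h => by rw [map_add, ha γ h, hb γ h]
  smul_mem' := fun a v hv γ h => by rw [map_smul, hv γ h]

theorem mkConcl (hs : Smooth π) (J Γ : Subgroup S) (h1 : IsCompact (J : Set S))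
    (h2 : IsOpen (J : Set S)) (h3 : -1 ∈ J) (h4 : IsCompact (Γ : Set S))
    (hn : ∀ u ∈ J, ∀ γ ∈ Γ, u * γ * u⁻¹ ∈ Γ) {v : V} (hv : v ≠ 0) (hf : v ∈ fixed π Γ)
    (key : ∀ g ∉ J, ∃ κ ∈ J, ∃ u ∈ J, g⁻¹ * (κ * u * κ⁻¹) * g ∈ Γ ∧
      ∀ w ∈ fixed π Γ, π u w = -w) : Concl π := by
  obtain ⟨e, he⟩ := exists_proj π hs Γ h4
  have hn' : ∀ u ∈ J, ∀ γ ∈ Γ, u⁻¹ * γ * u ∈ Γ := fun u hu γ hγ => by
    simpa using hn _ (J.inv_mem hu) γ hγ
  have hi : ∀ g ∈ J, ∀ v ∈ fixed π Γ, π g v ∈ fixed π Γ := fun g hg w hw γ hγ => by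
    rw [rep_conj, hw _ (hn' g hg γ hγ)]
  refine ⟨J, fixed π Γ, e, h1, h2, h3, fun h => hv (by simpa [h] using hf), hi,
    fun w hw => he.id w hw, fun g hg w hw => ?_⟩
  obtain ⟨κ, hκ, u, hu, a, b⟩ := key g hg
  have hu' : κ * u * κ⁻¹ ∈ J := J.mul_mem (J.mul_mem hκ hu) (J.inv_mem hκ)
  apply eq_zero_of_neg
  have c : π (κ * u * κ⁻¹) (π g w) = π g w := by rw [rep_conj, hw _ a]
  conv_lhs => rw [← c, he.comm (hn _ hu') (hn' _ hu'), rep_mul, rep_mul,
    b _ (hi _ (J.inv_mem hκ) _ fun γ hγ => he.fix γ hγ _), map_neg, rep_inv']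

theorem fix_x {i j k : ℤ} (hk : 1 ≤ k) {w : V} (hw : Fix π (i + 1) j k w)
    (hn : ∀ γ, InP (i + 1) j k γ → InP (i + 1) j k ((xx (2 ^ i))⁻¹ * γ * xx (2 ^ i))) :
    Fix π i j k (w + π (xx (2 ^ i)) w) := by
  have h : Fix π (i + 1) j k (w + π (xx (2 ^ i)) w) := fun γ hγ => by
    rw [map_add, rep_conj, hw _ hγ, hw _ (hn _ hγ)]
  exact fix_of hk (x_add fun b => hw.x) (fun c => h.y) fun u hu => h.h hk hu

theorem fix_y {i j k : ℤ} (hk : 1 ≤ k) {w : V} (hw : Fix π i (j + 1) k w)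
    (hn : ∀ γ, InP i (j + 1) k γ → InP i (j + 1) k ((yy (2 ^ j))⁻¹ * γ * yy (2 ^ j))) :
    Fix π i j k (w + π (yy (2 ^ j)) w) := by
  have h : Fix π i (j + 1) k (w + π (yy (2 ^ j)) w) := fun γ hγ => by
    rw [map_add, rep_conj, hw _ hγ, hw _ (hn _ hγ)]
  exact fix_of hk (fun b => h.x) (y_add fun b => hw.y) fun u hu => h.h hk hu

theorem conj_un' (g : S) (l p q : F) :
    g⁻¹ * un l (g 0 0 * p + g 0 1 * q) (g 1 0 * p + g 1 1 * q) * g = un l p q := by
  rw [← conj_un]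
  simp [mul_assoc]

theorem not_K0 {g : S} (hg : g ∉ K0) : ∃ i j, ¬ D (-0) (g i j) := by
  by_contra h
  push Not at h
  exact hg (mem_K0.2 h)

theorem concl_even (hs : Smooth π) {m : ℤ} (hm : 0 ≤ m)
    (hno : ∀ w, Fix π m (m + 1) (m + 1) w → w = 0) {v : V} (hv : v ≠ 0)
    (hf : Fix π (m + 1) (m + 1) (m + 1) v) : Concl π := by
  have hx : xx (2 ^ m) ∈ K0 := InP_xx ((D_pow m).mono hm)
  refine mkConcl hs K0 (PP (m + 1) (m + 1) (m + 1) (by omega) (by omega)) (isCompact_InP _ _ _)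
    (isOpen_InP _ _ _) (neg_one_InP.mono le_rfl le_rfl zero_le_one) (isCompact_InP _ _ _)
    (fun u hu γ hγ => InP.conj hγ hu) hv hf fun g hg => ?_
  obtain ⟨N, μ₁, μ₂, a, b, c, d, e, f⟩ := exists_col (not_K0 hg)
  obtain ⟨κ, hκ, h⟩ := un_conj d e f
  refine ⟨κ, hκ, _, hx, ?_, fun w hw => ?_⟩
  · rw [← h, conj_un']
    exact InP_un (((D_pow m).mul b).mul' b (by omega)) (((D_pow m).mul c).mul' c (by omega))
      (((D_pow m).mul b).mul' c (by omega))
  · exact eq_neg_of_add_eq_zero_right (hno _ (fix_x (by omega) hw fun γ hγ => by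
      simpa using hγ.conj (K0.inv_mem hx)))

/-- The Iwahori subgroup normalises its filtration subgroups. -/
theorem InP.conjI {m : ℤ} {g k : S} (hg : InP m (m + 1) m g) (hk : InP 0 1 1 k) :
    InP m (m + 1) m (k * g * k⁻¹) := by
  have h0 := (hg.mono le_rfl (by omega) le_rfl).conj (hk.mono le_rfl zero_le_one zero_le_one)
  refine ⟨h0.1, ?_, h0.2.2.1, h0.2.2.2⟩
  obtain ⟨b, c, a, d⟩ := hg
  have r := hk.2.1
  have s := (hk.2.2.2.mono zero_le_one).zero_of
  simp only [mul2, inv00, inv10]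
  exact (((((r.mul0 s).mul' a (by omega)).add ((s.mul0 s).zero_mul c)).add
    ((r.mul r).mul' b (by omega)).neg).add ((r.mul0 s).mul' d (by omega)).neg).of_eq (by ring)

theorem concl_odd (hs : Smooth π) {k : ℤ} (hk : 0 ≤ k)
    (hx : ∀ w, Fix π k (k + 1 + 1) (k + 1) w → w = 0)
    (hy : ∀ w, Fix π (k + 1) (k + 1) (k + 1) w → w = 0) {v : V} (hv : v ≠ 0)
    (hf : Fix π (k + 1) (k + 1 + 1) (k + 1) v) : Concl π := by
  have mx : InP 0 1 1 (xx (2 ^ k)) := InP_xx ((D_pow k).mono hk)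
  have my : InP 0 1 1 (yy (2 ^ (k + 1))) := InP_yy ((D_pow _).mono (by omega))
  have ax : ∀ w, Fix π (k + 1) (k + 1 + 1) (k + 1) w → π (xx (2 ^ k)) w = -w := fun w hw =>
    eq_neg_of_add_eq_zero_right (hx _ (fix_x (by omega) hw fun γ hγ => by
      simpa using hγ.conjI mx.inv))
  have ay : ∀ w, Fix π (k + 1) (k + 1 + 1) (k + 1) w → π (yy (2 ^ (k + 1))) w = -w := fun w hw =>
    eq_neg_of_add_eq_zero_right (hy _ (fix_y (by omega) hw fun γ hγ => by
      simpa using hγ.conjI my.inv))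
  refine mkConcl hs (PP 0 1 1 (by omega) (by omega))
    (PP (k + 1) (k + 1 + 1) (k + 1) (by omega) (by omega)) (isCompact_InP _ _ _)
    (isOpen_InP _ _ _) neg_one_InP (isCompact_InP _ _ _)
    (fun u hu γ hγ => InP.conjI hγ hu) hv hf fun g hg => ?_
  have caseb : ∀ μ₁ μ₂, D 0 μ₁ → D 1 μ₂ → D 0 (g 0 0 * μ₁ + g 0 1 * μ₂) →
      ‖g 1 0 * μ₁ + g 1 1 * μ₂‖ = 1 → ∃ κ ∈ PP 0 1 1 (by omega) (by omega),
        ∃ u ∈ PP 0 1 1 (by omega) (by omega), g⁻¹ * (κ * u * κ⁻¹) * g ∈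
          PP (k + 1) (k + 1 + 1) (k + 1) (by omega) (by omega) ∧
            ∀ w ∈ fixed π (PP (k + 1) (k + 1 + 1) (k + 1) (by omega) (by omega)), π u w = -w := by
    intro μ₁ μ₂ a b c d
    refine ⟨mk2 (g 1 0 * μ₁ + g 1 1 * μ₂)⁻¹ (g 0 0 * μ₁ + g 0 1 * μ₂) 0 (g 1 0 * μ₁ + g 1 1 * μ₂)
      (by have := ne_of_norm d; field_simp; ring),
      ⟨c, D_zero _, (D_sub_one d).inv_sub d, D_sub_one d⟩, _, my, ?_, ay⟩
    rw [← un_yy, conj_un]
    simp only [mk2_00, mk2_01, mk2_10, mk2_11, mul_zero, mul_one, zero_add]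
    rw [conj_un']
    have p := (D_pow (k + 1)).neg
    exact InP_un ((p.mul0 a).mul0 a) ((p.mul b).mul' b (by omega)) ((p.mul0 a).mul' b (by omega))
  by_cases hK : g ∈ K0
  · have h := mem_K0.1 hK
    refine caseb 1 0 D_one (D_zero _) (by simpa using h 0 0) ?_
    simp only [mul_one, mul_zero, add_zero]
    refine (h 1 0).unit fun hc => hg ⟨h 0 1, hc, ?_, ?_⟩
    · refine (h 0 0).dich0.resolve_left fun ha => not_D_one ?_
      exact ((ha.mul0 (h 1 1)).sub ((h 0 1).zero_mul hc)).of_eq (det2 g).symm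
    · refine (h 1 1).dich0.resolve_left fun ha => not_D_one ?_
      exact (((h 0 0).zero_mul ha).sub ((h 0 1).zero_mul hc)).of_eq (det2 g).symm
  · obtain ⟨N, μ₁, μ₂, a, b, c, d, e, f⟩ := exists_col (not_K0 hK)
    by_cases h1 : D 1 (g 1 0 * μ₁ + g 1 1 * μ₂)
    · have h2 := f.resolve_right fun h => by
        rw [D_one_iff, h] at h1
        exact lt_irrefl _ h1
      refine ⟨mk2 (g 0 0 * μ₁ + g 0 1 * μ₂) 0 (g 1 0 * μ₁ + g 1 1 * μ₂) (g 0 0 * μ₁ + g 0 1 * μ₂)⁻¹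
        (by have := ne_of_norm h2; field_simp; ring),
        ⟨D_zero _, h1, D_sub_one h2, (D_sub_one h2).inv_sub h2⟩, _, mx, ?_, ax⟩
      rw [← un_xx, conj_un]
      simp only [mk2_00, mk2_01, mk2_10, mk2_11, mul_zero, mul_one, add_zero]
      rw [conj_un']
      exact InP_un (((D_pow k).mul b).mul' b (by omega)) (((D_pow k).mul c).mul' c (by omega))
        (((D_pow k).mul b).mul' c (by omega))
    · exact caseb μ₁ μ₂ (b.mono (by omega)) (c.mono (by omega)) d (e.unit h1)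

theorem concl_of_sc (hs : Smooth π) (hsc : SCb π) {v : V} (hv : v ≠ 0) : Concl π := by
  classical
  have hex : ∃ n : ℕ, ∃ i w, w ≠ 0 ∧ Fix π i (n + 1 - i) ((n + 2) / 2) w := by
    obtain ⟨m, hm, h⟩ := exists_InP_subset ((hs v).mem_nhds (rep_one π v))
    exact ⟨(2 * m - 1).toNat, m, v, hv, Fix.mono h le_rfl (by omega) (by omega)⟩
  obtain ⟨i, w, hw, hf⟩ := Nat.find_spec hex
  set n := Nat.find hex
  have hsm : ∀ m, Smooth (π.comp (al (2 ^ m) (two_zpow_ne m))) := fun m u =>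
    (hs u).preimage (continuous_al _ _)
  have hmin : ∀ (a b c : ℤ) u, a + b = n → c = (n + 1) / 2 → 1 ≤ n → Fix π a b c u → u = 0 := by
    intro a b c u h1 h2 h3 h4
    by_contra hu
    exact Nat.find_min hex (m := n - 1) (by omega)
      ⟨a, u, hu, h4.mono le_rfl (by omega) (by omega)⟩
  rcases Nat.even_or_odd' n with ⟨k, hk | hk⟩
  · rcases Nat.eq_zero_or_pos k with rfl | hk0
    · exact absurd (no_iwahori hs hsc i w (hf.mono le_rfl (by omega) (by omega))) hw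
    · have hf' := no_split hs hsc (i := i) (j := n + 1 - i) (k := k) (by omega) (by omega)
        (hf.mono le_rfl le_rfl (by omega))
      refine Concl.of_al (concl_odd (hsm (i - k)) (k := k - 1) (by omega) (fun u hu => ?_)
        (fun u hu => ?_) hw ((fix_al _).2 (hf'.mono (by omega) (by omega) (by omega))))
      · exact hmin _ _ _ u (by omega) (by omega) (by omega) ((fix_al _).1 hu)
      · exact hmin _ _ _ u (by omega) (by omega) (by omega) ((fix_al _).1 hu)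
  · refine Concl.of_al (concl_even (hsm (i - k - 1)) (m := k) (by omega) (fun u hu => ?_) hw
      ((fix_al _).2 (hf.mono (by omega) (by omega) (by omega))))
    exact hmin _ _ _ u (by omega) (by omega) (by omega) ((fix_al _).1 hu)

end Pool.Agent.P.MP_2ea9e4_al
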