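import Pool.Agent.P.MP_2ea9e4_al.Defs

/-!
# General lemmas: irreducibility, averaging projectors, functionals
-/

noncomputable section

namespace Pool.Agent.P.MP_2ea9e4_al

variable {H : Type} [Group H]
variable {V : Type} [AddCommGroup V] [Module ℂ V]

theorem irr_iff (π : Representation ℂ H V) : π.IsIrreducible ↔
    (∃ v : V, v ≠ 0) ∧ ∀ U : Submodule ℂ V, (∀ g, ∀ v ∈ U, π g v ∈ U) → U = ⊥ ∨ U = ⊤ := by
  constructor
  · intro h
    refine ⟨?_, fun U hU => ?_⟩
    · by_contra hn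
      push Not at hn
      have : (⊥ : Subrepresentation π) = ⊤ := by
        apply Subrepresentation.toSubmodule_injective
        ext v
        simp [hn v]
      exact bot_ne_top this
    · rcases h.eq_bot_or_eq_top ⟨U, fun g v hv => hU g v hv⟩ with h1 | h1
      · exact Or.inl (congrArg Subrepresentation.toSubmodule h1)
      · exact Or.inr (congrArg Subrepresentation.toSubmodule h1)
  · rintro ⟨⟨v, hv⟩, h⟩
    have hne : (⊥ : Subrepresentation π) ≠ ⊤ := by
      intro h1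
      have h2 : (⊥ : Submodule ℂ V) = ⊤ := congrArg Subrepresentation.toSubmodule h1
      have : v ∈ (⊥ : Submodule ℂ V) := by rw [h2]; trivial
      exact hv (by simpa using this)
    haveI : Nontrivial (Subrepresentation π) := ⟨⊥, ⊤, hne⟩
    refine ⟨fun U => ?_⟩
    rcases h U.toSubmodule (fun g v hv => U.apply_mem_toSubmodule g hv) with h1 | h1
    · exact Or.inl (Subrepresentation.toSubmodule_injective h1)
    · exact Or.inr (Subrepresentation.toSubmodule_injective h1)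

theorem rep_mul (π : Representation ℂ H V) (g h : H) (v : V) : π (g * h) v = π g (π h v) := by
  rw [map_mul]; rfl

theorem rep_one (π : Representation ℂ H V) (v : V) : π 1 v = v := by
  rw [map_one]; rfl

theorem rep_inv (π : Representation ℂ H V) (g : H) (v : V) : π g⁻¹ (π g v) = v := by
  rw [← rep_mul, inv_mul_cancel, rep_one]

theorem rep_inv' (π : Representation ℂ H V) (g : H) (v : V) : π g (π g⁻¹ v) = v := by
  rw [← rep_mul, mul_inv_cancel, rep_one]

theorem rep_ne (π : Representation ℂ H V) (g : H) {v : V} (hv : v ≠ 0) : π g v ≠ 0 := by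
  intro h
  apply hv
  rw [← rep_inv π g v, h, map_zero]

/-- The stabiliser of a vector. -/
def stab (π : Representation ℂ H V) (v : V) : Subgroup H where
  carrier := {g | π g v = v}
  one_mem' := rep_one π v
  mul_mem' := by
    intro a b ha hb
    simp only [Set.mem_ofPred_eq] at *
    rw [rep_mul, hb, ha]
  inv_mem' := by
    intro a ha
    simp only [Set.mem_ofPred_eq] at *
    conv_lhs => rw [← ha]
    exact rep_inv π a v

/-- The stabiliser of a functional. -/
def fstab (π : Representation ℂ H V) (ξ : V →ₗ[ℂ] ℂ) : Subgroup H where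
  carrier := {g | ∀ w, ξ (π g w) = ξ w}
  one_mem' := fun w => by rw [rep_one]
  mul_mem' := by
    intro a b ha hb w
    rw [rep_mul, ha, hb]
  inv_mem' := by
    intro a ha w
    rw [← ha, rep_inv']

/-- `e` is the averaging projector onto the `Γ`-fixed vectors. -/
structure IsProj (π : Representation ℂ H V) (Γ : Subgroup H) (e : V →ₗ[ℂ] V) : Prop where
  inv : ∀ γ ∈ Γ, ∀ v, e (π γ v) = e v
  fix : ∀ γ ∈ Γ, ∀ v, π γ (e v) = e v
  id : ∀ v, (∀ γ ∈ Γ, π γ v = v) → e v = v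
  avg : ∀ (X : Type) [AddCommGroup X] [Module ℂ X] (f : V →ₗ[ℂ] X) (v : V),
    (∀ γ ∈ Γ, f (π γ v) = f v) → f (e v) = f v

theorem IsProj.mem {π : Representation ℂ H V} {Γ : Subgroup H} {e : V →ₗ[ℂ] V}
    (h : IsProj π Γ e) (U : Submodule ℂ V) (v : V) (hU : ∀ γ ∈ Γ, π γ v ∈ U) : e v ∈ U := by
  have h0 : v ∈ U := by simpa [rep_one] using hU 1 Γ.one_mem
  have := h.avg (V ⧸ U) U.mkQ v (fun γ hγ => by
    rw [Submodule.mkQ_apply, Submodule.mkQ_apply, (Submodule.Quotient.mk_eq_zero U).2 h0,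
      (Submodule.Quotient.mk_eq_zero U).2 (hU γ hγ)])
  rw [Submodule.mkQ_apply, Submodule.mkQ_apply, (Submodule.Quotient.mk_eq_zero U).2 h0] at this
  exact (Submodule.Quotient.mk_eq_zero U).1 this

theorem IsProj.comm {π : Representation ℂ H V} {Γ : Subgroup H} {e : V →ₗ[ℂ] V}
    (h : IsProj π Γ e) {u : H} (h1 : ∀ γ ∈ Γ, u * γ * u⁻¹ ∈ Γ) (h2 : ∀ γ ∈ Γ, u⁻¹ * γ * u ∈ Γ)
    (v : V) : e (π u v) = π u (e v) := by
  have a := h.avg V (e ∘ₗ π u) v (fun γ hγ => by
    simp only [LinearMap.comp_apply]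
    rw [← h.inv _ (h1 γ hγ) (π u v), ← rep_mul, ← rep_mul]
    simp)
  simp only [LinearMap.comp_apply] at a
  rw [← a]
  apply h.id
  intro γ hγ
  conv_rhs => rw [← h.fix _ (h2 γ hγ) v]
  rw [← rep_mul, ← rep_mul]
  simp [mul_assoc]

section Avg

variable {Γ : Type} [Group Γ] (σ : Representation ℂ Γ V)

/-- The average over `Γ ⧸ N`. -/
def avgN (N : Subgroup Γ) [N.FiniteIndex] : V →ₗ[ℂ] V :=
  haveI : Fintype (Γ ⧸ N) := Fintype.ofFinite _
  (Fintype.card (Γ ⧸ N) : ℂ)⁻¹ • ∑ q : Γ ⧸ N, σ q.out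

theorem avgN_avg (N : Subgroup Γ) [N.FiniteIndex] {X : Type} [AddCommGroup X] [Module ℂ X]
    (f : V →ₗ[ℂ] X) (v : V) (h : ∀ γ, f (σ γ v) = f v) : f (avgN σ N v) = f v := by
  letI : Fintype (Γ ⧸ N) := Fintype.ofFinite _
  have hc : (Fintype.card (Γ ⧸ N) : ℂ) ≠ 0 := by exact_mod_cast Fintype.card_ne_zero
  simp only [avgN, LinearMap.smul_apply, LinearMap.coe_sum, Finset.sum_apply, map_smul, map_sum, h,
    Finset.sum_const, Finset.card_univ]
  rw [← Nat.cast_smul_eq_nsmul ℂ, smul_smul, inv_mul_cancel₀ hc, one_smul]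

theorem out_eq (N : Subgroup Γ) {v : V} (hv : ∀ γ ∈ N, σ γ v = v) (g : Γ) (q : Γ ⧸ N)
    (h : (g : Γ ⧸ N) = q) : σ g v = σ q.out v := by
  have h1 : (q.out : Γ ⧸ N) = g := by rw [h, QuotientGroup.out_eq']
  have h2 := QuotientGroup.eq.1 h1
  conv_rhs => rw [← hv _ h2, ← rep_mul]
  simp

theorem avgN_fix (N : Subgroup Γ) [N.FiniteIndex] {v : V} (hv : ∀ γ ∈ N, σ γ v = v) (γ : Γ) :
    σ γ (avgN σ N v) = avgN σ N v := by
  letI : Fintype (Γ ⧸ N) := Fintype.ofFinite _
  simp only [avgN, LinearMap.smul_apply, LinearMap.coe_sum, Finset.sum_apply, map_smul, map_sum]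
  congr 1
  refine Fintype.sum_equiv (MulAction.toPerm γ) _ _ fun q => ?_
  rw [← rep_mul]
  apply out_eq σ N hv
  simp only [MulAction.toPerm_apply]
  conv_rhs => rw [← QuotientGroup.out_eq' q]
  rfl

theorem avgN_inv (N : Subgroup Γ) [N.FiniteIndex] [N.Normal] {v : V} (hv : ∀ γ ∈ N, σ γ v = v)
    (γ : Γ) : avgN σ N (σ γ v) = avgN σ N v := by
  letI : Fintype (Γ ⧸ N) := Fintype.ofFinite _
  simp only [avgN, LinearMap.smul_apply, LinearMap.coe_sum, Finset.sum_apply]
  congr 1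
  refine Fintype.sum_equiv (Equiv.mulRight (γ : Γ ⧸ N)) _ _ fun q => ?_
  rw [← rep_mul]
  apply out_eq σ N hv
  simp

theorem avgN_indep (N N' : Subgroup Γ) [N.FiniteIndex] [N'.FiniteIndex] [N'.Normal] {v : V}
    (hv : ∀ γ ∈ N, σ γ v = v) (hv' : ∀ γ ∈ N', σ γ v = v) : avgN σ N v = avgN σ N' v := by
  have h1 := avgN_avg σ N (avgN σ N') v (avgN_inv σ N' hv')
  rw [← h1]
  exact (avgN_avg σ N' LinearMap.id (avgN σ N v) (avgN_fix σ N hv)).symm

theorem exists_proj_alg (hf : ∀ v, (stab σ v).FiniteIndex) : ∃ e, IsProj σ ⊤ e := by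
  let N : V → Subgroup Γ := fun v => (stab σ v).normalCore
  haveI : ∀ v, (N v).FiniteIndex := fun v => Subgroup.finiteIndex_normalCore _
  haveI : ∀ v, (N v).Normal := fun v => Subgroup.normalCore_normal _
  have hN : ∀ v, ∀ γ ∈ N v, σ γ v = v := fun v γ h => Subgroup.normalCore_le _ h
  let e : V →ₗ[ℂ] V :=
    { toFun := fun v => avgN σ (N v) v
      map_add' := fun v w => by
        have a : ∀ γ ∈ N v ⊓ N w, σ γ v = v := fun γ h => hN v γ h.1
        have b : ∀ γ ∈ N v ⊓ N w, σ γ w = w := fun γ h => hN w γ h.2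
        rw [avgN_indep σ (N v) (N v ⊓ N w) (hN v) a, avgN_indep σ (N w) (N v ⊓ N w) (hN w) b,
          avgN_indep σ (N (v + w)) (N v ⊓ N w) (hN _) (fun γ h => by rw [map_add, a γ h, b γ h]),
          map_add]
      map_smul' := fun a v => by
        rw [avgN_indep σ (N (a • v)) (N v) (hN _) (fun γ h => by rw [map_smul, hN v γ h]),
          map_smul]
        rfl }
  have he : ∀ v, e v = avgN σ (N v) v := fun _ => rfl
  refine ⟨e, fun γ _ v => ?_, fun γ _ v => ?_, fun v hv => ?_, fun X _ _ f v hv => ?_⟩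
  · rw [he, he, ← avgN_inv σ (N v) (hN v) γ]
    apply avgN_indep σ _ _ (hN _)
    intro δ hδ
    have := hN v _ ((inferInstance : (N v).Normal).conj_mem' δ hδ γ)
    conv_rhs => rw [← this]
    rw [← rep_mul, ← rep_mul]
    simp [mul_assoc]
  · rw [he]; exact avgN_fix σ _ (hN v) γ
  · rw [he]; exact avgN_avg σ _ LinearMap.id v (fun γ => hv γ trivial)
  · rw [he]; exact avgN_avg σ _ f v (fun γ => hv γ trivial)

end Avg

theorem exists_proj [TopologicalSpace H] [IsTopologicalGroup H] (π : Representation ℂ H V)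
    (hπ : Smooth π) (Γ : Subgroup H) (hΓ : IsCompact (Γ : Set H)) : ∃ e, IsProj π Γ e := by
  haveI : CompactSpace Γ := isCompact_iff_compactSpace.1 hΓ
  obtain ⟨e, he⟩ := exists_proj_alg (π.comp Γ.subtype) (fun v => by
    have : IsOpen ((stab (π.comp Γ.subtype) v : Subgroup Γ) : Set Γ) :=
      (hπ v).preimage continuous_subtype_val
    haveI := Subgroup.quotient_finite_of_isOpen _ this
    exact Subgroup.finiteIndex_of_finite_quotient)
  exact ⟨e, fun γ h v => he.inv ⟨γ, h⟩ trivial v, fun γ h v => he.fix ⟨γ, h⟩ trivial v,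
    fun v hv => he.id v fun γ _ => hv γ γ.2,
    fun X _ _ f v hv => he.avg X f v fun γ _ => hv γ γ.2⟩

/-- The orbit of a vector under a compact subgroup is finite. -/
theorem finite_orbit [TopologicalSpace H] [IsTopologicalGroup H] (π : Representation ℂ H V)
    (hπ : Smooth π) (Γ : Subgroup H) (hΓ : IsCompact (Γ : Set H)) (v : V) :
    ((fun g => π g v) '' (Γ : Set H)).Finite := by
  haveI : CompactSpace Γ := isCompact_iff_compactSpace.1 hΓ
  have : IsOpen ((stab (π.comp Γ.subtype) v : Subgroup Γ) : Set Γ) :=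
    (hπ v).preimage continuous_subtype_val
  haveI := Subgroup.quotient_finite_of_isOpen _ this
  refine (Set.finite_range (fun q : Γ ⧸ stab (π.comp Γ.subtype) v => π q.out v)).subset ?_
  rintro _ ⟨g, hg, rfl⟩
  exact ⟨((⟨g, hg⟩ : Γ) : Γ ⧸ _),
    (out_eq (π.comp Γ.subtype) _ (fun γ h => h) ⟨g, hg⟩ _ rfl).symm⟩

/-- A functional that vanishes at none of countably many non-zero vectors. -/
theorem exists_functional (u : ℕ → V) (hu : ∀ n, u n ≠ 0) :
    ∃ ξ : V →ₗ[ℂ] ℂ, ∀ n, ξ (u n) ≠ 0 := by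
  classical
  let b := Module.Basis.ofVectorSpace ℂ V
  have hc : (⋃ n, ((b.repr (u n)).support : Set (Module.Basis.ofVectorSpaceIndex ℂ V))).Countable :=
    Set.countable_iUnion fun n => (Finset.finite_toSet _).countable
  obtain ⟨φ, hφ⟩ := Set.countable_iff_exists_injOn.1 hc
  let P : ℕ → Polynomial ℂ := fun n =>
    ∑ j ∈ (b.repr (u n)).support, Polynomial.monomial (φ j) (b.repr (u n) j)
  have hP : ∀ n, P n ≠ 0 := by
    intro n h0
    have h1 : b.repr (u n) ≠ 0 := by simpa using hu n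
    obtain ⟨j, hj⟩ := Finsupp.support_nonempty_iff.2 h1
    have h2 : (P n).coeff (φ j) = b.repr (u n) j := by
      simp only [P, Polynomial.finsetSum_coeff, Polynomial.coeff_monomial]
      rw [Finset.sum_eq_single j]
      · simp
      · intro i hi hij
        rw [if_neg]
        exact fun h => hij (hφ (Set.mem_iUnion.2 ⟨n, hi⟩) (Set.mem_iUnion.2 ⟨n, hj⟩) h)
      · exact fun h => absurd hj h
    rw [h0] at h2
    exact (Finsupp.mem_support_iff.1 hj) (by simpa using h2.symm)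
  have hr : (⋃ n, {z : ℂ | (P n).IsRoot z}).Countable :=
    Set.countable_iUnion fun n => (Polynomial.finite_setOfPred_isRoot (hP n)).countable
  obtain ⟨z, hz⟩ : ∃ z, z ∉ ⋃ n, {z : ℂ | (P n).IsRoot z} := by
    by_contra h
    push Not at h
    exact not_countable_complex (hr.mono fun z _ => h z)
  refine ⟨b.constr ℂ fun j => z ^ φ j, fun n h => hz (Set.mem_iUnion.2 ⟨n, ?_⟩)⟩
  simp only [Set.mem_ofPred_eq, Polynomial.IsRoot, P, Polynomial.eval_finsetSum,
    Polynomial.eval_monomial]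
  rw [Module.Basis.constr_apply] at h
  simpa [Finsupp.sum] using h

/-- A non-zero finite-dimensional invariant subspace contains an irreducible one. -/
theorem exists_min {Γ : Set H} (π : Representation ℂ H V) (U : Submodule ℂ V) (hU : U ≠ ⊥)
    [FiniteDimensional ℂ U] (hi : ∀ g ∈ Γ, ∀ v ∈ U, π g v ∈ U) :
    ∃ U' ≤ U, U' ≠ ⊥ ∧ (∀ g ∈ Γ, ∀ v ∈ U', π g v ∈ U') ∧
      ∀ U'' ≤ U', (∀ g ∈ Γ, ∀ v ∈ U'', π g v ∈ U'') → U'' = ⊥ ∨ U'' = U' := by
  classical
  have hex : ∃ n, ∃ U' ≤ U, U' ≠ ⊥ ∧ (∀ g ∈ Γ, ∀ v ∈ U', π g v ∈ U') ∧ Module.finrank ℂ U' = n :=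
    ⟨_, U, le_rfl, hU, hi, rfl⟩
  obtain ⟨U', h1, h2, h3, h4⟩ := Nat.find_spec hex
  refine ⟨U', h1, h2, h3, fun U'' h5 h6 => ?_⟩
  by_cases h7 : U'' = ⊥
  · exact Or.inl h7
  · right
    haveI : FiniteDimensional ℂ U' := Submodule.finiteDimensional_of_le h1
    apply Submodule.eq_of_le_of_finrank_le h5
    rw [h4]
    exact Nat.find_min' hex ⟨U'', h5.trans h1, h7, h6, rfl⟩

end Pool.Agent.P.MP_2ea9e4_al
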