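import Pool.Agent.P.MP_2ea9e4_al.Exh2

/-!
# The groups `(SL_2(Q_2) × C) / ⟨(-1, c)⟩`
-/

noncomputable section

namespace Pool.Agent.P.MP_2ea9e4_al

open scoped Pointwise

variable {C : Type} [CommGroup C]

/-- The quotient map. -/
def mkG (c : C) : S × C →* Grp F c := QuotientGroup.mk' _
/-- The image of `SL_2`. -/
def io (c : C) : S →* Grp F c := (mkG c).comp (MonoidHom.inl S C)
/-- The image of `C`. -/
def ka (c : C) : C →* Grp F c := (mkG c).comp (MonoidHom.inr S C)

variable {c : C}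

theorem mkG_eq (s : S) (a : C) : mkG c (s, a) = io c s * ka c a := by
  simp only [io, ka, MonoidHom.comp_apply, ← map_mul]
  simp

theorem exists_rep (x : Grp F c) : ∃ s a, x = io c s * ka c a := by
  obtain ⟨⟨s, a⟩, rfl⟩ := QuotientGroup.mk'_surjective _ x
  exact ⟨s, a, mkG_eq s a⟩

theorem ka_comm (a : C) (x : Grp F c) : ka c a * x = x * ka c a := by
  obtain ⟨⟨s, b⟩, rfl⟩ := QuotientGroup.mk'_surjective _ x
  change mkG c (1, a) * mkG c (s, b) = mkG c (s, b) * mkG c (1, a)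
  simp only [← map_mul, Prod.mk_mul_mk, one_mul, mul_one, mul_comm a b]

theorem ka_center (a : C) : ka c a ∈ Subgroup.center (Grp F c) :=
  Subgroup.mem_center_iff.2 fun x => (ka_comm a x).symm

theorem rep_mul_rep (s s' : S) (a a' : C) :
    io c s * ka c a * (io c s' * ka c a') = io c (s * s') * ka c (a * a') := by
  simp only [← mkG_eq, ← map_mul, Prod.mk_mul_mk]

theorem mem_zp (h2 : c * c = 1) {x : S × C} :
    x ∈ Subgroup.zpowers ((-1, c) : S × C) ↔ x = 1 ∨ x = (-1, c) := by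
  have h : ((-1, c) : S × C) ^ 2 = 1 := by rw [pow_two]; ext1 <;> simp [h2]
  constructor
  · rintro ⟨n, rfl⟩
    simp only
    rcases Int.even_or_odd' n with ⟨k, rfl | rfl⟩
    · left; rw [zpow_mul, zpow_ofNat, h, one_zpow]
    · right; rw [zpow_add_one, zpow_mul, zpow_ofNat, h, one_zpow, one_mul]
  · rintro (rfl | rfl)
    · exact one_mem _
    · exact Subgroup.mem_zpowers _

theorem io_neg_one (h2 : c * c = 1) : io c (-1) = ka c c := by
  have h : mkG c (-1, c) = 1 := (QuotientGroup.eq_one_iff _).2 (Subgroup.mem_zpowers _)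
  rw [mkG_eq] at h
  rw [eq_inv_of_mul_eq_one_left h, ← map_inv, inv_eq_of_mul_eq_one_left h2]

theorem rep_eq (h2 : c * c = 1) {s s' : S} {a a' : C} (h : io c s * ka c a = io c s' * ka c a') :
    (s' = s ∧ a' = a) ∨ (s' = -s ∧ a' = c * a) := by
  rw [← mkG_eq, ← mkG_eq] at h
  rcases (mem_zp h2).1 (QuotientGroup.eq.1 h) with h1 | h1
  · left
    have := inv_mul_eq_one.1 h1
    exact ⟨(congrArg Prod.fst this).symm, (congrArg Prod.snd this).symm⟩
  · right
    have := inv_mul_eq_iff_eq_mul.1 h1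
    exact ⟨by simpa using congrArg Prod.fst this, by simpa [mul_comm] using congrArg Prod.snd this⟩

theorem central_SL {s : S} (h : ∀ g, g * s = s * g) : s = 1 ∨ s = -1 := by
  have a := congrArg (fun g : S => g 0 0) (h (xx 1))
  have b := congrArg (fun g : S => g 0 1) (h (xx 1))
  have d := congrArg (fun g : S => g 0 0) (h (yy 1))
  have e := det2 s
  simp only [mul2, xx, yy, mk2_00, mk2_01, mk2_10, mk2_11] at a b d
  have h10 : s 1 0 = 0 := by linear_combination a
  have h01 : s 0 1 = 0 := by linear_combination -d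
  have h11 : s 1 1 = s 0 0 := by linear_combination b
  have : (s 0 0 - 1) * (s 0 0 + 1) = 0 := by rw [h10, h11] at e; linear_combination e
  rcases mul_eq_zero.1 this with h0 | h0
  · left
    apply ext2 <;> simp only [one00, one01, one10, one11, h10, h01, h11] <;> linear_combination h0
  · right
    apply ext2 <;> simp only [neg2, one00, one01, one10, one11, h10, h01, h11, neg_zero] <;>
      linear_combination h0

theorem mem_center (h2 : c * c = 1) (h1 : c ≠ 1) {x : Grp F c} (hx : x ∈ Subgroup.center (Grp F c)) :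
    ∃ a, x = ka c a := by
  obtain ⟨s, a, rfl⟩ := exists_rep x
  have := central_SL (s := s) fun g => by
    have h := Subgroup.mem_center_iff.1 hx (io c g * ka c 1)
    rw [rep_mul_rep, rep_mul_rep] at h
    rcases rep_eq h2 h with h | h
    · exact h.1.symm
    · exact absurd (by simpa using h.2.symm) h1
  rcases this with rfl | rfl
  · exact ⟨a, by simp⟩
  · exact ⟨c * a, by rw [io_neg_one h2, map_mul]⟩

theorem rep_mem {K : Subgroup (Grp F c)} (hK : Subgroup.center (Grp F c) ≤ K) (s : S) (a : C) :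
    io c s * ka c a ∈ K ↔ io c s ∈ K := K.mul_mem_cancel_right (hK (ka_center a))

/-- The size of a matrix. -/
def nm (s : S) : ℝ := ‖s 0 0‖ + ‖s 0 1‖ + ‖s 1 0‖ + ‖s 1 1‖

theorem le_nm (s : S) (i j : Fin 2) : ‖s i j‖ ≤ nm s := by
  have h1 := norm_nonneg (s 0 0)
  have h2 := norm_nonneg (s 0 1)
  have h3 := norm_nonneg (s 1 0)
  have h4 := norm_nonneg (s 1 1)
  unfold nm
  fin_cases i <;> fin_cases j <;> simp only [Fin.zero_eta, Fin.mk_one, Fin.isValue] <;> linarith

theorem nm_neg (s : S) : nm (-s) = nm s := by simp only [nm, neg2, norm_neg]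

theorem continuous_nm : Continuous nm :=
  (((continuous_entry 0 0).norm.add (continuous_entry 0 1).norm).add
    (continuous_entry 1 0).norm).add (continuous_entry 1 1).norm

/-- The preimage construction `(J × C) / ±1`. -/
def KJ (c : C) (J : Subgroup S) : Subgroup (Grp F c) := (J.prod ⊤).map (mkG c)

theorem mem_KJ (h2 : c * c = 1) {J : Subgroup S} (hJ : -1 ∈ J) (s : S) (a : C) :
    io c s * ka c a ∈ KJ c J ↔ s ∈ J := by
  constructor
  · rintro ⟨⟨s', a'⟩, h, e⟩
    rw [mkG_eq] at e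
    rcases rep_eq h2 e with h1 | h1
    · exact h1.1 ▸ h.1
    · rw [h1.1]; simpa using J.mul_mem hJ h.1
  · exact fun h => ⟨(s, a), ⟨h, trivial⟩, mkG_eq s a⟩

theorem center_le_KJ (h2 : c * c = 1) (h1 : c ≠ 1) (J : Subgroup S) :
    Subgroup.center (Grp F c) ≤ KJ c J := fun x hx => by
  obtain ⟨a, rfl⟩ := mem_center h2 h1 hx
  exact ⟨(1, a), ⟨J.one_mem, trivial⟩, rfl⟩

/-- The map `J × C → K`. -/
def toK (K : Subgroup (Grp F c)) (hK : Subgroup.center (Grp F c) ≤ K) : K.comap (io c) × C →* K :=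
  MonoidHom.codRestrict ((mkG c).comp ((K.comap (io c)).subtype.prodMap (MonoidHom.id C))) K
    fun x => by
      change mkG c (x.1, x.2) ∈ K
      rw [mkG_eq, rep_mem hK]
      exact x.1.2

theorem toK_val (K : Subgroup (Grp F c)) (hK) (j : K.comap (io c)) (a : C) :
    (toK K hK (j, a) : Grp F c) = io c j * ka c a := mkG_eq _ _

theorem toK_surj (K : Subgroup (Grp F c)) (hK) : Function.Surjective (toK K hK) := by
  rintro ⟨x, hx⟩
  obtain ⟨s, a, rfl⟩ := exists_rep x
  exact ⟨(⟨s, (rep_mem hK s a).1 hx⟩, a), Subtype.ext (toK_val _ _ _ _)⟩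

theorem exists_lift (h2 : c * c = 1) {M : Type} [Group M] (K : Subgroup (Grp F c)) (hK)
    (φ : K.comap (io c) × C →* M) (hφ : ∀ h, φ (⟨-1, h⟩, c) = 1) :
    ∃ ψ : K →* M, ∀ x, ψ (toK K hK x) = φ x := by
  have hk : (toK K hK).ker ≤ φ.ker := by
    rintro ⟨j, a⟩ h
    have h1 : io c 1 * ka c 1 = io c j * ka c a := by
      rw [← toK_val K hK, MonoidHom.mem_ker.1 h]; simp
    rw [MonoidHom.mem_ker]
    rcases rep_eq h2 h1 with h3 | h3
    · rw [show (j, a) = 1 from Prod.ext (Subtype.ext h3.1) h3.2, map_one]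
    · have h4 : (j : S) = -1 := h3.1
      have h5 := j.2
      rw [h4] at h5
      rw [← hφ h5]
      congr 1
      exact Prod.ext (Subtype.ext h3.1) (by simpa using h3.2)
  exact ⟨(toK K hK).liftOfSurjective (toK_surj K hK) ⟨φ, hk⟩, fun x =>
    MonoidHom.liftOfRightInverse_comp_apply _ _ _ _ x⟩

variable [TopologicalSpace C] [IsTopologicalGroup C]

theorem mkG_open : IsOpenQuotientMap (mkG c) := QuotientGroup.isOpenQuotientMap_mk

omit [IsTopologicalGroup C] in
theorem continuous_mkG : Continuous (mkG c) := QuotientGroup.continuous_mk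

omit [IsTopologicalGroup C] in
theorem continuous_io : Continuous (io c) :=
  continuous_mkG.comp (continuous_id.prodMk continuous_const)

omit [IsTopologicalGroup C] in
theorem continuous_ka : Continuous (ka c) :=
  continuous_mkG.comp (continuous_const.prodMk continuous_id)

theorem toK_open (K : Subgroup (Grp F c)) (hK) (ho : IsOpen (K : Set (Grp F c))) :
    IsOpenQuotientMap (toK K hK) := by
  have h1 : IsOpenMap (Prod.map (Subtype.val : K.comap (io c) → S) (id : C → C)) :=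
    (ho.preimage continuous_io).isOpenMap_subtype_val.prodMap IsOpenMap.id
  refine ⟨toK_surj K hK, Continuous.subtype_mk
    (continuous_mkG.comp (continuous_subtype_val.prodMap continuous_id)) _, ?_⟩
  exact (mkG_open.isOpenMap.comp h1).subtype_mk _

theorem exists_nrm (h2 : c * c = 1) (h1 : c ≠ 1) :
    ∃ f : Grp F c ⧸ Subgroup.center (Grp F c) → ℝ, Continuous f ∧
      ∀ s a, f (io c s * ka c a : Grp F c) = nm s := by
  let q : S × C → Grp F c ⧸ Subgroup.center (Grp F c) := QuotientGroup.mk ∘ mkG c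
  have hq : IsOpenQuotientMap q := QuotientGroup.isOpenQuotientMap_mk.comp mkG_open
  have key : ∀ x y, q x = q y → nm x.1 = nm y.1 := by
    rintro ⟨s, a⟩ ⟨s', a'⟩ h
    obtain ⟨b, hb⟩ := mem_center h2 h1 (QuotientGroup.eq.1 h)
    rw [inv_mul_eq_iff_eq_mul, mkG_eq, mkG_eq, mul_assoc, ← map_mul] at hb
    rcases rep_eq h2 hb with h | h
    · rw [h.1]
    · rw [h.1, nm_neg]
  have hf : ∀ x, nm (Function.surjInv hq.surjective (q x)).1 = nm x.1 := fun x =>
    key _ _ (Function.surjInv_eq _ _)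
  refine ⟨fun y => nm (Function.surjInv hq.surjective y).1, ?_, fun s a => ?_⟩
  · rw [← hq.continuous_comp_iff]
    exact (continuous_nm.comp continuous_fst).congr fun x => (hf x).symm
  · rw [← mkG_eq]
    exact hf (s, a)

theorem bdd_of_mod (h2 : c * c = 1) (h1 : c ≠ 1) {Ω : Set (Grp F c)} (hΩ : IsCompact Ω) :
    ∃ R, ∀ s, io c s ∈ Ω * (Subgroup.center (Grp F c) : Set (Grp F c)) → ∀ i j, ‖s i j‖ ≤ R := by
  obtain ⟨f, hf, e⟩ := exists_nrm h2 h1
  obtain ⟨R, hR⟩ := (hΩ.image QuotientGroup.continuous_mk).bddAbove_image hf.continuousOn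
  refine ⟨R, fun s ⟨ω, hω, z, hz, h⟩ i j => (le_nm s i j).trans ?_⟩
  rw [← e s 1]
  refine hR ⟨_, ⟨ω, hω, ?_⟩, rfl⟩
  rw [QuotientGroup.eq, map_one, mul_one, ← h]
  simpa using hz

theorem CMC.comap (h2 : c * c = 1) (h1 : c ≠ 1) {K : Subgroup (Grp F c)} (hK : CMC K) :
    IsCompact (K.comap (io c) : Set S) ∧ IsOpen (K.comap (io c) : Set S) ∧ -1 ∈ K.comap (io c) := by
  have ho : IsOpen (K.comap (io c) : Set S) := hK.1.preimage continuous_io
  refine ⟨?_, ho, ?_⟩
  · obtain ⟨f, hf, e⟩ := exists_nrm h2 h1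
    obtain ⟨R, hR⟩ := hK.2.2.bddAbove_image hf.continuousOn
    refine (isCompact_bdd R).of_isClosed_subset (Subgroup.isClosed_of_isOpen _ ho)
      fun s hs i j => (le_nm s i j).trans ?_
    rw [← e s 1]
    exact hR ⟨_, ⟨_, (rep_mem hK.2.1 s 1).2 hs, rfl⟩, rfl⟩
  · rw [Subgroup.mem_comap, io_neg_one h2]
    exact hK.2.1 (ka_center c)

theorem cmc_KJ (h2 : c * c = 1) (h1 : c ≠ 1) {J : Subgroup S} (hc : IsCompact (J : Set S))
    (ho : IsOpen (J : Set S)) : CMC (KJ c J) := by
  refine ⟨mkG_open.isOpenMap _ (ho.prod isOpen_univ), center_le_KJ h2 h1 J, ?_⟩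
  convert (hc.image continuous_io).image
    (QuotientGroup.continuous_mk (N := Subgroup.center (Grp F c))) using 1
  ext y
  constructor
  · rintro ⟨_, ⟨⟨s, a⟩, h, rfl⟩, rfl⟩
    refine ⟨_, ⟨s, h.1, rfl⟩, ?_⟩
    rw [QuotientGroup.eq, mkG_eq]
    simpa using ka_center a
  · rintro ⟨_, ⟨s, h, rfl⟩, rfl⟩
    exact ⟨_, ⟨(s, 1), ⟨h, trivial⟩, rfl⟩, rfl⟩

theorem nhds_rep {U : Set S} (hU : U ∈ nhds (1 : S)) {U' : Set C} (hU' : U' ∈ nhds (1 : C))
    {A : Set (Grp F c)} (h : ∀ s ∈ U, ∀ a ∈ U', io c s * ka c a ∈ A) : A ∈ nhds (1 : Grp F c) := by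
  have := mkG_open.isOpenMap.image_mem_nhds (f := mkG c) (prod_mem_nhds hU hU')
  rw [show mkG c (1, 1) = 1 from map_one _] at this
  refine Filter.mem_of_superset this ?_
  rintro _ ⟨⟨s, a⟩, hs, rfl⟩
  rw [mkG_eq]
  exact h s hs.1 a hs.2

instance : NonarchimedeanGroup S where
  is_nonarchimedean U hU := by
    obtain ⟨m, hm, h⟩ := exists_InP_subset hU
    exact ⟨⟨PP m m m (by omega) (by omega), isOpen_InP _ _ _⟩, h⟩

instance : LocallyCompactSpace S :=
  haveI : LocallyCompactSpace (Matrix (Fin 2) (Fin 2) F) :=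
    inferInstanceAs (LocallyCompactSpace (Fin 2 → Fin 2 → F))
  Matrix.SpecialLinearGroup.isClosedEmbedding_val.locallyCompactSpace

theorem nonarch_quot {G : Type} [Group G] [TopologicalSpace G] [NonarchimedeanGroup G]
    (N : Subgroup G) [N.Normal] : NonarchimedeanGroup (G ⧸ N) where
  is_nonarchimedean U hU := by
    obtain ⟨W, hW⟩ := NonarchimedeanGroup.is_nonarchimedean (QuotientGroup.mk ⁻¹' U)
      (QuotientGroup.continuous_mk.continuousAt (x := (1 : G)) hU)
    exact ⟨⟨W.toSubgroup.map (QuotientGroup.mk' N), QuotientGroup.isOpenMap_coe _ W.isOpen⟩,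
      Set.image_subset_iff.2 hW⟩

theorem lctd_Grp {C : Type} [CommGroup C] [TopologicalSpace C] [NonarchimedeanGroup C]
    [CompactSpace C] [T2Space C] {c : C} (h2 : c * c = 1) : LCTD (Grp F c) := by
  haveI : IsClosed ((Subgroup.zpowers ((-1, c) : S × C) : Subgroup (S × C)) : Set (S × C)) := by
    refine Set.Finite.isClosed ((Set.toFinite {1, (-1, c)}).subset fun x hx => ?_)
    exact (mem_zp h2).1 hx
  haveI := nonarch_quot (Subgroup.zpowers ((-1, c) : S × C))
  exact ⟨inferInstance, inferInstance, inferInstance, inferInstance⟩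

variable {V : Type} [AddCommGroup V] [Module ℂ V]

theorem ka_scalar [CompactSpace C] {π : Representation ℂ (Grp F c) V} (hs : Smooth π)
    (hi : π.IsIrreducible) (a : C) : ∃ μ : ℂ, ∀ v, π (ka c a) v = μ • v := by
  obtain ⟨⟨v, hv⟩, h⟩ := (irr_iff π).1 hi
  have hf := finite_orbit (π.comp (ka c)) (fun v => (hs v).preimage continuous_ka) ⊤
    isCompact_univ v
  let O := Submodule.span ℂ ((fun g => π.comp (ka c) g v) '' ((⊤ : Subgroup C) : Set C))
  haveI : FiniteDimensional ℂ O := FiniteDimensional.span_of_finite ℂ hf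
  have hv' : v ∈ O := Submodule.subset_span ⟨1, trivial, rep_one _ v⟩
  haveI : Nontrivial O := ⟨⟨v, hv'⟩, 0, fun e => hv (congrArg Subtype.val e)⟩
  have hO : ∀ w ∈ O, π (ka c a) w ∈ O := fun w hw => by
    refine (Submodule.span_le (p := O.comap (π (ka c a)))).2 ?_ hw
    rintro _ ⟨b, -, rfl⟩
    exact Submodule.subset_span ⟨a * b, trivial, rep_mul _ a b v⟩
  obtain ⟨μ, hμ⟩ := Module.End.exists_eigenvalue ((π (ka c a)).restrict hO)
  obtain ⟨w, hw⟩ := hμ.exists_hasEigenvector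
  have hw1 : π (ka c a) w = μ • (w : V) := congrArg Subtype.val hw.apply_eq_smul
  rcases h (LinearMap.eqLocus (π (ka c a)) (μ • LinearMap.id)) (fun g u hu => by
    change π (ka c a) (π g u) = μ • π g u
    rw [← rep_mul, ka_comm, rep_mul, show π (ka c a) u = μ • u from hu, map_smul]) with h | h
  · have : (w : V) ∈ LinearMap.eqLocus (π (ka c a)) (μ • LinearMap.id) := hw1
    rw [h] at this
    exact absurd (Subtype.ext (by simpa using this)) hw.2
  · refine ⟨μ, fun u => ?_⟩
    have : u ∈ LinearMap.eqLocus (π (ka c a)) (μ • LinearMap.id) := by rw [h]; trivial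
    exact this

theorem allInduced [CompactSpace C] (h2 : c * c = 1) (h1 : c ≠ 1) : AllInduced (Grp F c) := by
  intro V _ _ π ⟨hs, hi, hsc⟩
  obtain ⟨⟨v, hv⟩, -⟩ := (irr_iff π).1 hi
  have hs' : Smooth (π.comp (io c)) := fun v => (hs v).preimage continuous_io
  have hC : {a | ∀ w, π (ka c a) w = w} ∈ nhds (1 : C) := by
    refine Filter.mem_of_superset (((hs v).preimage continuous_ka).mem_nhds
      (show π (ka c 1) v = v by rw [map_one, rep_one])) fun a ha w => ?_
    obtain ⟨μ, hμ⟩ := ka_scalar hs hi a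
    have : μ = 1 := smul_left_injective ℂ hv (by simpa [← hμ] using ha)
    rw [hμ, this, one_smul]
  have hb : SCb (π.comp (io c)) := fun u ξ hξ => by
    obtain ⟨Ω, hΩ, h⟩ := hsc u ξ (Subgroup.isOpen_of_mem_nhds (fstab π ξ)
      (nhds_rep hξ hC fun s hs a ha w => by rw [rep_mul, ha w]; exact hs w))
    obtain ⟨R, hR⟩ := bdd_of_mod h2 h1 hΩ
    exact ⟨R, fun g hg => hR g (h hg)⟩
  obtain ⟨J, U, e, j1, j2, j3, u0, u1, e1, e2⟩ := concl_of_sc hs' hb hv
  obtain ⟨w, hw, hw0⟩ := (Submodule.ne_bot_iff U).1 u0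
  let O := Submodule.span ℂ ((fun g => π.comp (io c) g w) '' (J : Set S))
  haveI : FiniteDimensional ℂ O := FiniteDimensional.span_of_finite ℂ (finite_orbit _ hs' J j1 w)
  have hOU : O ≤ U := Submodule.span_le.2 (by rintro _ ⟨g, hg, rfl⟩; exact u1 g hg w hw)
  obtain ⟨U', a1, a2, a3, a4⟩ := exists_min (Γ := (J : Set S)) (π.comp (io c)) O
    ((Submodule.ne_bot_iff O).2 ⟨w, Submodule.subset_span ⟨1, J.one_mem, rep_one _ w⟩, hw0⟩)
    (fun g hg u hu => by
      refine (Submodule.span_le (p := O.comap (π.comp (io c) g))).2 ?_ hu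
      rintro _ ⟨b, hb, rfl⟩
      exact Submodule.subset_span ⟨g * b, J.mul_mem hg hb, rep_mul _ g b w⟩)
  have hinv : ∀ g ∈ KJ c J, ∀ u ∈ U', π g u ∈ U' := fun g hg u hu => by
    obtain ⟨s, a, rfl⟩ := exists_rep g
    obtain ⟨μ, hμ⟩ := ka_scalar hs hi a
    rw [rep_mul, hμ]
    exact a3 s ((mem_KJ h2 j3 s a).1 hg) _ (U'.smul_mem μ hu)
  refine ⟨KJ c J, cmc_KJ h2 h1 j1 j2, U', inferInstance, inferInstance, subRep π _ U' hinv,
    fun u => ?_, (irr_iff _).2 ⟨?_, fun Y hY => ?_⟩,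
    iso_of_imprim hi hinv a2 e (fun u hu => e1 u (hOU (a1 hu))) fun g hg u hu => ?_⟩
  · convert (hs u).preimage (continuous_subtype_val (p := fun x => x ∈ KJ c J)) using 1
    ext k
    exact Subtype.ext_iff
  · obtain ⟨u, hu, hu0⟩ := (Submodule.ne_bot_iff U').1 a2
    exact ⟨⟨u, hu⟩, fun h => hu0 (congrArg Subtype.val h)⟩
  · rcases a4 (Y.map U'.subtype) (Submodule.map_subtype_le _ _) (by
      rintro g hg _ ⟨y, hy, rfl⟩
      exact ⟨_, hY ⟨io c g, by simpa using (mem_KJ h2 j3 g 1).2 hg⟩ y hy, rfl⟩) with h | h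
    · left
      exact Submodule.map_injective_of_injective U'.injective_subtype (by simpa using h)
    · right
      exact Submodule.map_injective_of_injective U'.injective_subtype (by simpa using h)
  · obtain ⟨s, a, rfl⟩ := exists_rep g
    obtain ⟨μ, hμ⟩ := ka_scalar hs hi a
    rw [rep_mul, hμ]
    exact e2 s (fun h => hg ((mem_KJ h2 j3 s a).2 h)) _ (hOU (a1 (U'.smul_mem μ hu)))

end Pool.Agent.P.MP_2ea9e4_al
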