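import Pool.Agent.P.MP_2ea9e4_al.Gen

/-!
# Compact induction: basic lemmas
-/

noncomputable section

namespace Pool.Agent.P.MP_2ea9e4_al

open scoped Pointwise Classical

variable {H : Type} [Group H]
variable {V : Type} [AddCommGroup V] [Module ℂ V] {W : Type} [AddCommGroup W] [Module ℂ W]
variable {K : Subgroup H} {ρ : Representation ℂ K W}

@[simp] theorem cInd_apply (x : H) (f : indSpace K ρ) (g : H) :
    (cInd K ρ x f).1 g = f.1 (g * x) := rfl

theorem ind_mul (f : indSpace K ρ) {k : H} (hk : k ∈ K) (g : H) :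
    f.1 (k * g) = ρ ⟨k, hk⟩ (f.1 g) := f.2.1 ⟨k, hk⟩ g

variable (K ρ) in
/-- The function supported on `K` with value `w` at `1`. -/
def emb : W →ₗ[ℂ] indSpace K ρ where
  toFun w := ⟨fun g => if h : g ∈ K then ρ ⟨g, h⟩ w else 0, fun k g => by
      by_cases h : g ∈ K
      · have h' : (k : H) * g ∈ K := K.mul_mem k.2 h
        simp only [dif_pos h, dif_pos h']
        rw [← rep_mul]; rfl
      · have h' : (k : H) * g ∉ K := fun h' => h ((K.mul_mem_cancel_left k.2).1 h')
        simp only [dif_neg h, dif_neg h', map_zero],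
    {1}, Set.finite_singleton _, fun g hg => by
      by_cases h : g ∈ K
      · exact ⟨g, h, 1, rfl, mul_one g⟩
      · simp [h] at hg⟩
  map_add' w w' := by
    ext g
    by_cases h : g ∈ K <;> simp [h]
  map_smul' a w := by
    ext g
    by_cases h : g ∈ K <;> simp [h]

theorem emb_mem (w : W) {g : H} (h : g ∈ K) : (emb K ρ w).1 g = ρ ⟨g, h⟩ w := dif_pos h

theorem emb_not (w : W) {g : H} (h : g ∉ K) : (emb K ρ w).1 g = 0 := dif_neg h

theorem emb_one (w : W) : (emb K ρ w).1 1 = w := by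
  rw [emb_mem w K.one_mem]
  exact rep_one ρ w

theorem cInd_emb {k : H} (hk : k ∈ K) (w : W) :
    cInd K ρ k (emb K ρ w) = emb K ρ (ρ ⟨k, hk⟩ w) := by
  ext g
  by_cases h : g ∈ K
  · rw [cInd_apply, emb_mem _ (K.mul_mem h hk), emb_mem _ h, ← rep_mul]; rfl
  · rw [cInd_apply, emb_not _ h, emb_not]
    exact fun h' => h ((K.mul_mem_cancel_right hk).1 h')

variable (K ρ) in
/-- Evaluation at a point. -/
def ev (g : H) : indSpace K ρ →ₗ[ℂ] W where
  toFun f := f.1 g
  map_add' _ _ := rfl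
  map_smul' _ _ := rfl

@[simp] theorem ev_apply (g : H) (f : indSpace K ρ) : ev K ρ g f = f.1 g := rfl

variable (ρ) in
/-- Restriction of the support to a left `K`-invariant set. -/
def restr (A : Set H) (hA : ∀ k ∈ K, ∀ g, k * g ∈ A ↔ g ∈ A) :
    indSpace K ρ →ₗ[ℂ] indSpace K ρ where
  toFun f := ⟨fun g => if g ∈ A then f.1 g else 0, fun k g => by
      by_cases h : g ∈ A
      · simp only [if_pos h, if_pos ((hA k k.2 g).2 h), f.2.1]
      · simp only [if_neg h, if_neg (fun h' => h ((hA k k.2 g).1 h')), map_zero], by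
      obtain ⟨s, hs, hf⟩ := f.2.2
      refine ⟨s, hs, fun g hg => hf fun h0 => hg ?_⟩
      simp [h0]⟩
  map_add' f f' := by
    ext g
    by_cases h : g ∈ A <;> simp [h]
  map_smul' a f := by
    ext g
    by_cases h : g ∈ A <;> simp [h]

theorem restr_mem {A : Set H} {hA} (f : indSpace K ρ) {g : H} (h : g ∈ A) :
    (restr ρ A hA f).1 g = f.1 g := if_pos h

theorem restr_not {A : Set H} {hA} (f : indSpace K ρ) {g : H} (h : g ∉ A) :
    (restr ρ A hA f).1 g = 0 := if_neg h

theorem ind_span (U : Submodule ℂ (indSpace K ρ)) (hU : ∀ g w, cInd K ρ g (emb K ρ w) ∈ U)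
    (f : indSpace K ρ) : f ∈ U := by
  obtain ⟨s, hs, hf⟩ := f.2.2
  induction s, hs using Set.Finite.induction_on generalizing f with
  | empty =>
    have : f = 0 := by
      ext g
      by_contra h
      simpa using hf h
    rw [this]; exact U.zero_mem
  | @insert y s _ _ ih =>
    have h1 := ih (f - cInd K ρ y⁻¹ (emb K ρ (f.1 y))) (by
      intro g hg
      by_cases h : g * y⁻¹ ∈ K
      · exfalso
        apply hg
        change f.1 g - (cInd K ρ y⁻¹ (emb K ρ (f.1 y))).1 g = 0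
        rw [cInd_apply, emb_mem _ h, ← ind_mul f h, inv_mul_cancel_right, sub_self]
      · have h2 : f.1 g ≠ 0 := by
          intro h0
          apply hg
          change f.1 g - (cInd K ρ y⁻¹ (emb K ρ (f.1 y))).1 g = 0
          rw [cInd_apply, emb_not _ h, h0, sub_zero]
        obtain ⟨k, hk, z, hz, e⟩ := hf h2
        rcases hz with rfl | hz
        · exfalso
          apply h
          simp only at e
          rw [← e, mul_inv_cancel_right]
          exact hk
        · exact ⟨k, hk, z, hz, e⟩)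
    simpa using U.add_mem h1 (hU y⁻¹ (f.1 y))

theorem ind_ext {X : Type} [AddCommGroup X] [Module ℂ X] {φ ψ : indSpace K ρ →ₗ[ℂ] X}
    (h : ∀ g w, φ (cInd K ρ g (emb K ρ w)) = ψ (cInd K ρ g (emb K ρ w))) (f : indSpace K ρ) :
    φ f = ψ f :=
  ind_span (LinearMap.eqLocus φ ψ) h f

/-- The restriction of `π` to an invariant subspace of a subgroup. -/
def subRep (π : Representation ℂ H V) (K : Subgroup H) (U : Submodule ℂ V)
    (hU : ∀ g ∈ K, ∀ v ∈ U, π g v ∈ U) : Representation ℂ K U where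
  toFun k := (π k).restrict (hU k k.2)
  map_one' := by ext; simp
  map_mul' x y := by ext; simp

theorem span_top {π : Representation ℂ H V} (hπ : π.IsIrreducible) {U : Submodule ℂ V}
    (hU : U ≠ ⊥) (Y : Submodule ℂ V) (hY : ∀ g, ∀ w ∈ U, π g w ∈ Y) (v : V) : v ∈ Y := by
  let Z : Submodule ℂ V := ⨅ g, Y.comap (π g)
  have hZ : ∀ v, v ∈ Z ↔ ∀ g, π g v ∈ Y := fun v => by simp [Z]
  rcases ((irr_iff π).1 hπ).2 Z (fun g v hv => (hZ _).2 fun h => by
    rw [← rep_mul]; exact (hZ _).1 hv _) with h | h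
  · exact absurd (eq_bot_iff.2 (h ▸ fun w hw => (hZ w).2 fun g => hY g w hw)) hU
  · have := (hZ v).1 (h ▸ Submodule.mem_top) 1
    rwa [rep_one] at this

theorem iso_of_imprim {π : Representation ℂ H V} (hπ : π.IsIrreducible) {U : Submodule ℂ V}
    (hU : ∀ g ∈ K, ∀ v ∈ U, π g v ∈ U) (h0 : U ≠ ⊥) (e : V →ₗ[ℂ] V) (h1 : ∀ w ∈ U, e w = w)
    (h2 : ∀ g ∉ K, ∀ w ∈ U, e (π g w) = 0) : Iso π (cInd K (subRep π K U hU)) := by
  have hm : ∀ v, e v ∈ U := span_top hπ h0 (U.comap e) fun g w hw => by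
    by_cases h : g ∈ K
    · change e _ ∈ U
      rw [h1 _ (hU g h w hw)]; exact hU g h w hw
    · change e _ ∈ U
      rw [h2 g h w hw]; exact U.zero_mem
  have hc : ∀ k ∈ K, ∀ v, e (π k v) = π k (e v) := fun k hk =>
    span_top hπ h0 (LinearMap.eqLocus (e ∘ₗ π k) (π k ∘ₗ e)) fun g w hw => by
      change e (π k (π g w)) = π k (e (π g w))
      by_cases h : g ∈ K
      · rw [h1 _ (hU g h w hw), h1 _ (hU k hk _ (hU g h w hw))]
      · rw [h2 g h w hw, ← rep_mul, h2 _ (fun h' => h ((K.mul_mem_cancel_left hk).1 h')) w hw,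
          map_zero]
  let F : V →ₗ[ℂ] (H → U) := LinearMap.pi fun g => (e.codRestrict U hm) ∘ₗ π g
  have hF : ∀ v g, (F v g : V) = e (π g v) := fun _ _ => rfl
  have hFm : ∀ v, F v ∈ indSpace K (subRep π K U hU) :=
    span_top hπ h0 ((indSpace K (subRep π K U hU)).comap F) fun x w hw => by
      refine ⟨fun k g => Subtype.ext ?_, {x⁻¹}, Set.finite_singleton _, fun g hg => ?_⟩
      · rw [hF, rep_mul, hc _ k.2]; rfl
      · by_cases h : g * x ∈ K
        · exact ⟨g * x, h, x⁻¹, rfl, by simp⟩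
        · exact absurd (Subtype.ext (by rw [hF, ← rep_mul, h2 _ h w hw]; rfl)) hg
  let Ψ : V →ₗ[ℂ] indSpace K (subRep π K U hU) := F.codRestrict _ hFm
  have hΨ : ∀ v g, ((Ψ v).1 g : V) = e (π g v) := fun _ _ => rfl
  have hq : ∀ g v, Ψ (π g v) = cInd K _ g (Ψ v) := fun g v => by
    ext x
    rw [hΨ, cInd_apply, hΨ, rep_mul]
  have he : ∀ w : U, Ψ w = emb K _ w := fun w => by
    ext x
    by_cases h : x ∈ K
    · rw [hΨ, emb_mem _ h, h1 _ (hU x h w w.2)]; rfl
    · rw [hΨ, emb_not _ h, h2 x h w w.2]; rfl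
  have hinj : Function.Injective Ψ := by
    rw [← LinearMap.ker_eq_bot]
    rcases ((irr_iff π).1 hπ).2 (LinearMap.ker Ψ) (fun g v hv => by
      rw [LinearMap.mem_ker] at hv ⊢
      rw [hq, hv, map_zero]) with h | h
    · exact h
    · exfalso
      apply h0
      rw [eq_bot_iff]
      intro w hw
      have : Ψ w = 0 := by rw [← LinearMap.mem_ker, h]; trivial
      have h3 := hΨ w 1
      rw [this, rep_one, h1 w hw] at h3
      exact h3.symm
  have hsurj : Function.Surjective Ψ := fun f =>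
    ind_span (LinearMap.range Ψ) (fun g w => ⟨π g w, by rw [hq, he]⟩) f
  exact ⟨LinearEquiv.ofBijective Ψ ⟨hinj, hsurj⟩, hq⟩

theorem exists_functional_ind (Ξ : H → W →ₗ[ℂ] ℂ)
    (hΞ : ∀ (k : K) g w, Ξ (k * g) (ρ k w) = Ξ g w) :
    ∃ ℓ : indSpace K ρ →ₗ[ℂ] ℂ, ∀ g w, ℓ (cInd K ρ g⁻¹ (emb K ρ w)) = Ξ g w := by
  let Q := Quotient (QuotientGroup.rightRel K)
  have hrel : ∀ {x y : H}, (Quotient.mk (QuotientGroup.rightRel K) x : Q) = Quotient.mk _ y ↔
      y * x⁻¹ ∈ K := fun {x y} => by rw [Quotient.eq, QuotientGroup.rightRel_apply]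
  have hfin : ∀ f : indSpace K ρ,
      (Function.support fun q : Q => Ξ q.out (f.1 q.out)).Finite := by
    intro f
    obtain ⟨s, hs, hf⟩ := f.2.2
    refine (hs.image (Quotient.mk _)).subset fun q hq => ?_
    have : f.1 q.out ≠ 0 := fun h => hq (by simp [h])
    obtain ⟨k, hk, y, hy, e⟩ := hf this
    refine ⟨y, hy, ?_⟩
    rw [← Quotient.out_eq q, hrel, ← e]
    simpa using hk
  refine ⟨{ toFun := fun f => ∑ᶠ q : Q, Ξ q.out (f.1 q.out)
            map_add' := fun f f' => ?_
            map_smul' := fun a f => ?_ }, fun g w => ?_⟩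
  · rw [← finsum_add_distrib (hfin f) (hfin f')]
    simp
  · simp only [RingHom.id_apply]
    rw [smul_finsum' a (hfin f)]
    simp
  · change ∑ᶠ q : Q, Ξ q.out ((cInd K ρ g⁻¹ (emb K ρ w)).1 q.out) = _
    rw [finsum_eq_single _ (Quotient.mk _ g : Q)]
    · have h : (Quotient.mk (QuotientGroup.rightRel K) g : Q).out * g⁻¹ ∈ K := by
        rw [← hrel, Quotient.out_eq]
      rw [cInd_apply, emb_mem _ h, ← hΞ ⟨_, h⟩ g w]
      simp
    · intro q hq
      rw [cInd_apply, emb_not, map_zero]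
      intro h
      apply hq
      rw [← Quotient.out_eq q, eq_comm, hrel]
      exact h

theorem smooth_cInd [TopologicalSpace H] [IsTopologicalGroup H] (hK : IsOpen (K : Set H))
    (hρ : Smooth ρ) : Smooth (cInd K ρ) := by
  let U : Submodule ℂ (indSpace K ρ) :=
    { carrier := {f | {g | cInd K ρ g f = f} ∈ nhds (1 : H)}
      zero_mem' := by simp
      add_mem' := fun {a b} ha hb => Filter.mem_of_superset (Filter.inter_mem ha hb) fun g hg => by
        change cInd K ρ g (a + b) = a + b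
        rw [map_add, hg.1, hg.2]
      smul_mem' := fun a f hf => Filter.mem_of_superset hf fun g hg => by
        change cInd K ρ g (a • f) = a • f
        rw [map_smul, hg] }
  intro f
  refine Subgroup.isOpen_of_mem_nhds (stab (cInd K ρ) f) (g := 1) (ind_span U (fun x w => ?_) f)
  have h1 : IsOpen (Subtype.val '' {k : K | ρ k w = w}) := hK.isOpenMap_subtype_val _ (hρ w)
  have h2 : IsOpen ((fun g => x⁻¹ * g * x) ⁻¹' (Subtype.val '' {k : K | ρ k w = w})) :=
    h1.preimage (by fun_prop)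
  refine Filter.mem_of_superset (h2.mem_nhds ⟨1, rep_one ρ w, by simp⟩) ?_
  rintro g ⟨k, hk, e⟩
  change cInd K ρ g (cInd K ρ x (emb K ρ w)) = _
  have : g * x = x * k := by rw [e]; simp [mul_assoc]
  rw [← rep_mul, this, rep_mul, cInd_emb k.2]
  exact congrArg (fun z => cInd K ρ x (emb K ρ z)) hk

end Pool.Agent.P.MP_2ea9e4_al
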