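import Pool.Agent.P.MP_2ea9e4_al.Cover

/-!
# Untwisting: `Γ(2)` acts trivially, and the induced representation is not supercuspidal
-/

set_option maxHeartbeats 400000

noncomputable section

namespace Pool.Agent.P.MP_2ea9e4_al

open scoped Pointwise Classical

variable {W : Type} [AddCommGroup W] [Module ℂ W]

theorem rr_four : rr * rr * (rr * rr) = rr := by
  apply ext2 <;> simp [mul2, rr]

theorem rr_inv : rr⁻¹ = rr * rr := by
  apply ext2 <;> simp [mul2, rr, inv00, inv01, inv10, inv11]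

theorem rr_xx (c : F) : rr * xx (-c) * rr⁻¹ = yy c := by
  rw [rr_inv]
  apply ext2 <;> simp [mul2, rr, xx, yy]

theorem ppp : xx 2 * (rr * xx 2 * rr⁻¹) * (rr * (rr * xx 2 * rr⁻¹) * rr⁻¹) = -1 := by
  rw [rr_inv]
  apply ext2 <;> simp [mul2, rr, xx] <;> norm_num

theorem rep_mk {H : Type} [Group H] {J : Subgroup H} (R : Representation ℂ J W) {g g' : H}
    (a : g ∈ J) (a' : g' ∈ J) (h) (w : W) : R ⟨g * g', h⟩ w = R ⟨g, a⟩ (R ⟨g', a'⟩ w) :=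
  rep_mul R ⟨g, a⟩ ⟨g', a'⟩ w

/-- Elements of `J` acting by the scalar `μ`. -/
def Sc {J : Subgroup S} (R : Representation ℂ J W) (μ : ℂ) (g : S) : Prop :=
  ∃ h : g ∈ J, ∀ w, R ⟨g, h⟩ w = μ • w

theorem Sc.mul {J : Subgroup S} {R : Representation ℂ J W} {μ ν : ℂ} {g g' : S} (h : Sc R μ g)
    (h' : Sc R ν g') : Sc R (μ * ν) (g * g') := by
  obtain ⟨a, h⟩ := h
  obtain ⟨a', h'⟩ := h'
  exact ⟨J.mul_mem a a', fun w => by
    rw [rep_mk R a a', h', map_smul, h, smul_smul, mul_comm]⟩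

theorem Sc.conj {J : Subgroup S} {R : Representation ℂ J W} {μ : ℂ} {g q : S} (h : Sc R μ g)
    (hq : q ∈ J) : Sc R μ (q * g * q⁻¹) := by
  obtain ⟨a, h⟩ := h
  refine ⟨J.mul_mem (J.mul_mem hq a) (J.inv_mem hq), fun w => ?_⟩
  have : (⟨q * g * q⁻¹, J.mul_mem (J.mul_mem hq a) (J.inv_mem hq)⟩ : J) =
      ⟨q, hq⟩ * ⟨g, a⟩ * (⟨q, hq⟩ : J)⁻¹ :=
    Subtype.ext (by simp only [Subgroup.coe_mul, Subgroup.coe_inv])
  rw [this, rep_mul, rep_mul, h, map_smul, rep_inv']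

theorem Sc.mul1 {J : Subgroup S} {R : Representation ℂ J W} {g g' : S} (h : Sc R 1 g)
    (h' : Sc R 1 g') : Sc R 1 (g * g') := by simpa using h.mul h'

theorem gamma2 {J : Subgroup S} (R : Representation ℂ J W) (hsq : ∀ k ∈ K0, k * k ∈ J)
    (hsc : ∀ g ∈ J, InP 1 1 1 g → ∃ μ : ℂ, μ ^ 4 = 1 ∧ Sc R μ g) (hneg : Sc R 1 (-1)) {γ : S}
    (hγ : InP 1 1 1 γ) : Sc R 1 γ := by
  have hr : rr ∈ J := rr_four ▸ hsq _ (K0.mul_mem rr_K0 rr_K0)
  have hxJ : ∀ b, D 1 b → xx b ∈ J := fun b hb => by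
    have := hsq _ (xx_K0 ((D_pow (-1)).mul' hb (k := 0) (by omega)))
    rwa [xx_mul, show (2 : F) ^ (-1 : ℤ) * b + 2 ^ (-1 : ℤ) * b = b by field_simp; ring] at this
  have h2 : Sc R 1 (xx 2) := by
    obtain ⟨μ, h4, h⟩ := hsc _ (hxJ 2 D_two) (InP_xx D_two)
    obtain ⟨a, h1⟩ := (h.mul (h.conj hr)).mul ((h.conj hr).conj hr)
    obtain ⟨b, h2⟩ := hneg
    obtain ⟨d, h3⟩ := h
    refine ⟨d, fun w => ?_⟩
    have e := h1 w
    simp only [ppp] at e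
    rw [h2, one_smul] at e
    rw [h3, one_smul]
    conv_lhs => rw [e, smul_smul, show μ * (μ * μ * μ) = μ ^ 4 by ring, h4, one_smul]
  have h8 : ∀ b, D 3 b → Sc R 1 (xx b) := fun b hb => by
    have hb' := (D_pow (-2)).mul' hb (k := 1) (by omega)
    obtain ⟨μ, h4, h⟩ := hsc _ (hxJ _ hb') (InP_xx hb')
    have := (h.mul h).mul (h.mul h)
    simp only [xx_mul] at this
    rwa [show μ * μ * (μ * μ) = μ ^ 4 by ring, h4, show (2 : F) ^ (-2 : ℤ) * b + 2 ^ (-2 : ℤ) * b +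
      (2 ^ (-2 : ℤ) * b + 2 ^ (-2 : ℤ) * b) = b by field_simp; ring] at this
  have h4 : ∀ b, D 2 b → Sc R 1 (xx b) := fun b hb => by
    rcases hb.dich with h | h
    · exact h8 b h
    · have := (h2.mul1 h2).mul1 (h8 _ h)
      simp only [xx_mul] at this
      rwa [show (2 : F) + 2 + (b - 2 ^ (2 : ℤ)) = b by norm_num] at this
  have hx : ∀ b, D 1 b → Sc R 1 (xx b) := fun b hb => by
    rcases hb.dich with h | h
    · exact h4 b h
    · have := h2.mul1 (h4 _ h)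
      simp only [xx_mul] at this
      rwa [show (2 : F) + (b - 2 ^ (1 : ℤ)) = b by norm_num] at this
  have hy : ∀ b, D 1 b → Sc R 1 (yy b) := fun b hb => rr_xx b ▸ (hx _ hb.neg).conj hr
  have hh2 : ∀ u hu, D 2 (u - 1) → Sc R 1 (hh u hu) := fun u hu h => by
    have n1 := (h.mono one_le_two).norm_one
    have hb := (D_pow (-1)).mul' h (k := 1) (by omega)
    have := ((hy _ (D_two.div n1).neg).mul1 ((hx _ hb).mul1 (hy _ D_two))).mul1
      (hx _ (hb.div n1).neg)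
    convert this using 1
    apply ext2 <;> simp only [mul2, xx, yy, hh, mk2_00, mk2_01, mk2_10, mk2_11] <;> field_simp <;>
      ring
  have hh1 : ∀ u hu, D 1 (u - 1) → Sc R 1 (hh u hu) := fun u hu h => by
    rcases h.dich with h' | h'
    · exact hh2 u hu h'
    · have := hneg.mul1 (hh2 (-u) (neg_ne_zero.2 hu) ((h'.neg.sub D_four).of_eq (by
        norm_num; ring)))
      convert this using 1
      apply ext2 <;> simp [hh]
  have n0 := hγ.2.2.1.norm_one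
  rw [iwahori γ (ne_of_norm n0)]
  exact ((hy _ (hγ.2.1.div n0)).mul1 (hh1 _ _ hγ.2.2.1)).mul1 (hx _ (hγ.1.div n0))

theorem InP_of_K0 {j : S} (hj : j ∈ K0) (hc : D 1 (j 1 0)) : InP 0 1 1 j := by
  have h := mem_K0.1 hj
  refine ⟨h 0 1, hc, ?_, ?_⟩
  · refine (h 0 0).dich0.resolve_left fun ha => not_D_one ?_
    exact ((ha.mul0 (h 1 1)).sub ((h 0 1).zero_mul hc)).of_eq (det2 j).symm
  · refine (h 1 1).dich0.resolve_left fun ha => not_D_one ?_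
    exact (((h 0 0).zero_mul ha).sub ((h 0 1).zero_mul hc)).of_eq (det2 j).symm

theorem exists_xi {J : Subgroup S} (R : Representation ℂ J W) (hJ : J ≤ K0) {w0 : W} (h0 : w0 ≠ 0)
    (h2 : ∀ γ, InP 1 1 1 γ → Sc R 1 γ) (hX : ∀ h : xx 1 ∈ J, ∃ w, R ⟨xx 1, h⟩ w ≠ -w) :
    ∃ (ξ : W →ₗ[ℂ] ℂ) (w : W), ξ w ≠ 0 ∧ ∀ j : J, D 1 (j.1 1 0) → ∀ w, ξ (R j w) = ξ w := by
  have key : ∀ j : J, D 1 (j.1 1 0) →
      (∀ w, R j w = w) ∨ ∃ h : xx 1 ∈ J, ∀ w, R j w = R ⟨xx 1, h⟩ w := fun j hj => by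
    have hI := InP_of_K0 (hJ j.2) hj
    rcases hI.1.dich0 with h | h
    · obtain ⟨_, a⟩ := h2 j ⟨h, hI.2⟩
      exact Or.inl fun w => (a w).trans (one_smul _ _)
    · obtain ⟨m, a⟩ := h2 (xx (-1) * j) (by
        unfold InP
        simp only [mul2, xx, mk2_00, mk2_01, mk2_10, mk2_11]
        exact ⟨(h.sub hI.2.2.2).of_eq (by ring), hj.of_eq (by ring),
          (hI.2.2.1.sub hj).of_eq (by ring), hI.2.2.2.of_eq (by ring)⟩)
      have e : xx 1 * (xx (-1) * j) = j := by rw [← mul_assoc, xx_mul]; simp [xx_zero]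
      have m1 : xx 1 ∈ J := (J.mul_mem_cancel_right m).1 (by rw [e]; exact j.2)
      refine Or.inr ⟨m1, fun w => ?_⟩
      rw [show j = ⟨xx 1, m1⟩ * ⟨_, m⟩ from Subtype.ext e.symm, rep_mul, a, one_smul]
  by_cases h : xx 1 ∈ J
  · obtain ⟨w, hw⟩ := hX h
    obtain ⟨ξ, hξ⟩ := exists_functional (fun _ => w + R ⟨xx 1, h⟩ w)
      fun _ e => hw (eq_neg_of_add_eq_zero_right e)
    refine ⟨ξ ∘ₗ (LinearMap.id + R ⟨xx 1, h⟩), w, hξ 0, fun j hj w => ?_⟩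
    rcases key j hj with a | ⟨_, a⟩
    · rw [a]
    · obtain ⟨m, b⟩ := h2 (xx 1 * xx 1) (by rw [xx_mul]; exact InP_xx (D_two.of_eq (by norm_num)))
      have b' := b w
      rw [rep_mk R h h, one_smul] at b'
      simp only [LinearMap.comp_apply, LinearMap.add_apply, LinearMap.id_apply, a, b', add_comm]
  · obtain ⟨ξ, hξ⟩ := exists_functional (fun _ => w0) fun _ => h0
    refine ⟨ξ, w0, hξ 0, fun j hj w => ?_⟩
    rcases key j hj with a | ⟨a, _⟩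
    · rw [a]
    · exact absurd a h

variable {C : Type} [CommGroup C] {c : C} [TopologicalSpace C] [IsTopologicalGroup C]

theorem not_sc (h2 : c * c = 1) (h1 : c ≠ 1) {K : Subgroup (Grp F c)}
    (hK : Subgroup.center (Grp F c) ≤ K) {ρ : Representation ℂ K W} (g : S)
    (hC : {a | ∀ w, ρ ⟨ka c a, hK (ka_center a)⟩ w = w} ∈ nhds (1 : C)) (ξ : W →ₗ[ℂ] ℂ) {w0 : W}
    (h0 : ξ w0 ≠ 0)
    (hξ : ∀ j h, D 1 (j 1 0) → ∀ w, ξ (ρ ⟨io c (g * j * g⁻¹), h⟩ w) = ξ w) :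
    ¬ Supercuspidal (cInd K ρ) := by
  intro hsc
  let Pt : Grp F c → K → Prop := fun x k =>
    ∃ (n : ℕ), ∃ y ∈ K0, x = k * io c (g * TT2 (-(n + 1)) * y)
  have wd : ∀ x k k', Pt x k → Pt x k' → ∀ w, ξ (ρ k⁻¹ w) = ξ (ρ k'⁻¹ w) := by
    rintro x k k' ⟨n, y, hy, e⟩ ⟨m, y', hy', e'⟩ w
    have e1 : ((k'⁻¹ * k : K) : Grp F c) =
        io c (g * (TT2 (-(m + 1)) * (y' * y⁻¹) * (TT2 (-(n + 1)))⁻¹) * g⁻¹) := by
      rw [e] at e'
      rw [Subgroup.coe_mul, Subgroup.coe_inv, eq_mul_inv_of_mul_eq e']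
      simp [mul_assoc]
    have h := hξ _ (e1 ▸ (k'⁻¹ * k).2) (by
      have := mem_K0.1 (K0.mul_mem hy' (K0.inv_mem hy)) 1 0
      generalize y' * y⁻¹ = γ at this
      simp only [mul2, inv00, inv10, TT2, hh, mk2_10, mk2_11, ← zpow_neg]
      exact (((D_pow (- -((m : ℤ) + 1))).mul this).mul' (D_pow (- -((n : ℤ) + 1)))
        (by omega)).of_eq (by ring))
      (ρ k⁻¹ w)
    rw [← h, ← rep_mul]
    congr 2
    rw [show (⟨_, e1 ▸ (k'⁻¹ * k).2⟩ : K) = k'⁻¹ * k from Subtype.ext e1.symm,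
      mul_inv_cancel_right]
  let Ξ : Grp F c → W →ₗ[ℂ] ℂ := fun x => if h : ∃ k, Pt x k then ξ ∘ₗ ρ h.choose⁻¹ else 0
  have hΞ : ∀ x k, Pt x k → ∀ w, Ξ x w = ξ (ρ k⁻¹ w) := fun x k h w => by
    have h' : ∃ k, Pt x k := ⟨k, h⟩
    simp only [Ξ, dif_pos h']
    exact wd x _ _ h'.choose_spec h w
  have hΞ0 : ∀ x, (¬ ∃ k, Pt x k) → ∀ w, Ξ x w = 0 := fun x h w => by
    simp only [Ξ, dif_neg h, LinearMap.zero_apply]
  have left : ∀ (k₁ : K) x k, Pt x k → Pt (k₁ * x) (k₁ * k) := by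
    rintro k₁ x k ⟨n, y, hy, e⟩
    exact ⟨n, y, hy, by rw [e, Subgroup.coe_mul, ← mul_assoc]⟩
  have right : ∀ x k, ∀ y ∈ K0, ∀ a, Pt x k →
      Pt (x * (io c y * ka c a)) (k * ⟨ka c a, hK (ka_center a)⟩) := by
    rintro x k y₀ hy₀ a ⟨n, y, hy, e⟩
    refine ⟨n, y * y₀, K0.mul_mem hy hy₀, ?_⟩
    rw [e, Subgroup.coe_mul, mul_assoc (k : Grp F c) (ka c a), ka_comm]
    simp [mul_assoc]
  obtain ⟨ℓ, hℓ⟩ := exists_functional_ind (ρ := ρ) Ξ fun k₁ x w => by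
    by_cases h : ∃ k, Pt x k
    · obtain ⟨k, h⟩ := h
      rw [hΞ _ _ h, hΞ _ _ (left k₁ x k h), mul_inv_rev, rep_mul, rep_inv]
    · rw [hΞ0 _ h, hΞ0]
      rintro ⟨k, h'⟩
      exact h ⟨_, by simpa using left k₁⁻¹ _ _ h'⟩
  have hr : ∀ x, ∀ y ∈ K0, ∀ a, (∀ w, ρ ⟨ka c a, hK (ka_center a)⟩ w = w) → ∀ w,
      Ξ (x * (io c y * ka c a)) w = Ξ x w := fun x y hy a ha w => by
    by_cases h : ∃ k, Pt x k
    · obtain ⟨k, h⟩ := h
      rw [hΞ _ _ h, hΞ _ _ (right x k y hy a h), mul_inv_rev, rep_mul]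
      congr 1
      conv_lhs => rw [← ha (ρ k⁻¹ w), rep_inv]
    · rw [hΞ0 _ h, hΞ0]
      rintro ⟨k, h'⟩
      have := right _ _ _ (K0.inv_mem hy) a⁻¹ h'
      rw [mul_assoc, rep_mul_rep, mul_inv_cancel, mul_inv_cancel, map_one, map_one, mul_one,
        mul_one] at this
      exact h ⟨_, this⟩
  obtain ⟨Ω, hΩ, h⟩ := hsc (emb K ρ w0) ℓ (Subgroup.isOpen_of_mem_nhds (fstab _ ℓ) (g := 1)
    (nhds_rep ((isOpen_InP 0 0 0).mem_nhds K0.one_mem) hC fun y hy a ha =>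
      ind_ext (φ := ℓ ∘ₗ cInd K ρ (io c y * ka c a)) fun x w => by
        have a1 := hℓ x⁻¹ w
        have a2 := hℓ (x⁻¹ * (io c y * ka c a)⁻¹) w
        rw [inv_inv] at a1
        rw [mul_inv_rev, inv_inv, inv_inv, rep_mul] at a2
        rw [LinearMap.comp_apply, a1, a2, ← hr _ y hy a ha, inv_mul_cancel_right]))
  obtain ⟨R, hR⟩ := bdd_of_mod h2 h1 hΩ
  have hb : ∀ n : ℕ, ∀ j, (2 : ℝ) ^ n * ‖g⁻¹ 1 j‖ ≤ R := fun n j => by
    have a := hℓ (io c (g * TT2 (-(n + 1)))) w0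
    rw [hΞ _ 1 ⟨n, 1, K0.one_mem, by simp⟩, inv_one, rep_one, ← map_inv] at a
    have b := hR _ (h (by rw [Set.mem_ofPred_eq, a]; exact h0)) 1 j
    rw [mul_inv_rev, mul2, inv10, inv11] at b
    simp only [TT2, hh, mk2_10, mk2_00, neg_zero, zero_mul, zero_add, norm_mul, norm_two_zpow,
      neg_neg] at b
    refine le_trans (mul_le_mul_of_nonneg_right ?_ (norm_nonneg _)) b
    rw [← zpow_natCast]
    exact zpow_le_zpow_right₀ one_le_two (by omega)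
  obtain ⟨j, hj⟩ : ∃ j, g⁻¹ 1 j ≠ 0 := by
    by_contra hn
    push Not at hn
    have := det2 g⁻¹
    rw [hn 0, hn 1] at this
    simp at this
  have pos := norm_pos_iff.2 hj
  obtain ⟨n, hn⟩ := pow_unbounded_of_one_lt (R / ‖g⁻¹ 1 j‖) (one_lt_two (α := ℝ))
  rw [div_lt_iff₀ pos] at hn
  exact absurd (hb n j) (not_le.2 hn)

end Pool.Agent.P.MP_2ea9e4_al
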