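import Pool.Agent.P.MP_2ea9e4_al.NF1

/-!
# The genuine supercuspidal representation is not of the required form
-/

set_option maxHeartbeats 400000

noncomputable section

namespace Pool.Agent.P.MP_2ea9e4_al

open scoped Pointwise Classical

variable {W : Type} [AddCommGroup W] [Module ℂ W]
variable {C : Type} [CommGroup C] {c : C}

theorem dep3 (w₁ w₂ w₃ : Fin 2 → ℂ) :
    ∃ a b d : ℂ, (a ≠ 0 ∨ b ≠ 0 ∨ d ≠ 0) ∧ a • w₁ + b • w₂ + d • w₃ = 0 := by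
  have h : ¬ LinearIndependent ℂ ![w₁, w₂, w₃] := fun h => by
    simpa using h.fintype_card_le_finrank
  obtain ⟨g, h1, i, hi⟩ := Fintype.not_linearIndependent_iff.1 h
  refine ⟨g 0, g 1, g 2, ?_, by simpa [Fin.sum_univ_three] using h1⟩
  fin_cases i
  exacts [Or.inl hi, Or.inr (Or.inl hi), Or.inr (Or.inr hi)]

/-- The properties of `ind (St ⊗ χ)` transported to a second model. -/
structure Tr (K' : Subgroup (Grp F (cc c))) (ρ' : Representation ℂ K' W)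
    (E0 : (Fin 2 → ℂ) →ₗ[ℂ] indSpace K' ρ') : Prop where
  inj : Function.Injective E0
  ka_act : ∀ a f, cInd K' ρ' (ka (cc c) a) f = (eps0 a.2 : ℂ) • f
  io_act : ∀ (k : K0) w, cInd K' ρ' (io (cc c) k) (E0 w) = E0 (sig k w)
  fixed : ∀ f, (∀ γ, InP 2 2 2 γ → cInd K' ρ' (io (cc c) γ) f = f) → ∃ w, f = E0 w
  span : ∀ U : Submodule ℂ (indSpace K' ρ'), (∀ x w, cInd K' ρ' x (E0 w) ∈ U) → ∀ f, f ∈ U

variable {K' : Subgroup (Grp F (cc c))} {ρ' : Representation ℂ K' W}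
  {E0 : (Fin 2 → ℂ) →ₗ[ℂ] indSpace K' ρ'}

theorem Tr.apply (h : Tr K' ρ' E0) {k : S} (hk : k ∈ K0) (w) (y) :
    (E0 (sig ⟨k, hk⟩ w)).1 y = (E0 w).1 (y * io (cc c) k) := by
  rw [← h.io_act ⟨k, hk⟩, cInd_apply]

theorem Tr.three (h : Tr K' ρ' E0) {w x} (hx : (E0 w).1 x ≠ 0) {k : S} (hk : k ∈ K0) :
    ∃ q, (q = k ∨ q = k⁻¹ ∨ q = k * k ∨ q = (k * k)⁻¹) ∧ (E0 w).1 (x * io (cc c) q) ≠ 0 := by
  by_contra hn
  push Not at hn
  have n1 := hn _ (Or.inl rfl)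
  have n2 := hn _ (Or.inr (Or.inl rfl))
  have n3 := hn _ (Or.inr (Or.inr (Or.inl rfl)))
  have n4 := hn _ (Or.inr (Or.inr (Or.inr rfl)))
  obtain ⟨a, b, d, h0, e⟩ := dep3 w (sig ⟨k, hk⟩ w) (sig ⟨k * k, K0.mul_mem hk hk⟩ w)
  have key : ∀ y, a • (E0 w).1 y + b • (E0 w).1 (y * io (cc c) k) +
      d • (E0 w).1 (y * io (cc c) (k * k)) = 0 := fun y => by
    have := congrArg (fun v => ev K' ρ' y (E0 v)) e
    simpa only [map_add, map_smul, map_zero, ev_apply, h.apply] using this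
  have a1 := key x
  have a2 := key (x * io (cc c) k⁻¹)
  have a3 := key (x * io (cc c) (k * k)⁻¹)
  rw [mul_assoc, mul_assoc, ← map_mul, ← map_mul] at a2 a3
  rw [inv_mul_cancel, map_one, mul_one] at a2 a3
  rw [inv_mul_cancel_left] at a2
  rw [mul_inv_rev, inv_mul_cancel_right, ← mul_inv_rev] at a3
  simp only [n1, n2, n3, n4, smul_zero, add_zero, zero_add, smul_eq_zero, hx, or_false] at a1 a2 a3
  tauto

theorem odd_mul {q γ : S} (hq : q ∈ K0) (hγ : InP 1 1 1 γ) (hb : D 1 (q 0 1 - 1))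
    (hc : D 1 (q 1 0 - 1)) (ht : D 1 (q 0 0 + q 1 1 - 1)) :
    D 1 ((q * γ) 0 1 - 1) ∧ D 1 ((q * γ) 1 0 - 1) ∧ D 1 ((q * γ) 0 0 + (q * γ) 1 1 - 1) := by
  have e := mem_K0.1 hq
  obtain ⟨b, c, a, d⟩ := hγ
  simp only [mul2]
  exact ⟨((((e 0 0).zero_mul b).add ((e 0 1).zero_mul d)).add hb).of_eq (by ring),
    ((((e 1 0).zero_mul a).add ((e 1 1).zero_mul c)).add hc).of_eq (by ring),
    ((((((e 0 0).zero_mul a).add ((e 0 1).zero_mul c)).add ((e 1 0).zero_mul b)).add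
      ((e 1 1).zero_mul d)).add ht).of_eq (by ring)⟩

theorem rr_cases {q : S} (h : q = rr ∨ q = rr⁻¹ ∨ q = rr * rr ∨ q = (rr * rr)⁻¹) :
    q ∈ K0 ∧ D 1 (q 0 1 - 1) ∧ D 1 (q 1 0 - 1) ∧ D 1 (q 0 0 + q 1 1 - 1) := by
  have h1 : q = rr ∨ q = rr * rr := by
    rcases h with h | h | h | h
    · exact Or.inl h
    · exact Or.inr (h.trans rr_inv)
    · exact Or.inr h
    · exact Or.inl (by rw [h, ← rr_inv, inv_inv])
  have m : D 1 (-2 : F) := D_two.neg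
  rcases h1 with rfl | rfl
  · refine ⟨rr_K0, m.of_eq ?_, (D_zero _).of_eq ?_, m.of_eq ?_⟩ <;> simp [rr] <;> norm_num
  · refine ⟨K0.mul_mem rr_K0 rr_K0, (D_zero _).of_eq ?_, m.of_eq ?_, m.of_eq ?_⟩ <;>
      simp [rr, mul2] <;> norm_num

theorem Tr.struct (h : Tr K' ρ' E0) (h2 : c * c = 1) (hK : Subgroup.center (Grp F (cc c)) ≤ K')
    (hc : IsCompact (K'.comap (io (cc c)) : Set S)) {w0 : W} (h0 : w0 ≠ 0) :
    ∃ g : S, (∀ j, io (cc c) (g * j * g⁻¹) ∈ K' → j ∈ K0) ∧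
      (∀ k ∈ K0, io (cc c) (g * (k * k) * g⁻¹) ∈ K') ∧
        ∀ w, ∃ w', cInd K' ρ' (io (cc c) g)⁻¹ (emb K' ρ' w) = E0 w' := by
  have m1 : -1 ∈ K0 := neg_one_InP.mono le_rfl le_rfl zero_le_one
  obtain ⟨x, hx⟩ : ∃ x, (E0 1).1 x ≠ 0 := by
    by_contra hn
    push Not at hn
    exact one_ne_zero (h.inj ((Subtype.ext (funext hn) : E0 1 = 0).trans (map_zero E0).symm))
  obtain ⟨g, a, rfl⟩ := exists_rep x
  have hg : (E0 1).1 (io (cc c) g) ≠ 0 := fun e => hx (by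
    rw [← cInd_apply, h.ka_act]
    change (eps0 a.2 : ℂ) • (E0 1).1 (io (cc c) g) = 0
    rw [e, smul_zero])
  let A : Set (Grp F (cc c)) := {y | ∃ γ, InP 2 2 2 γ ∧ y * io (cc c) γ * (io (cc c) g)⁻¹ ∈ K'}
  have hA : ∀ k ∈ K', ∀ y, k * y ∈ A ↔ y ∈ A := fun k hk y =>
    exists_congr fun γ => and_congr_right fun _ => by
      rw [mul_assoc, mul_assoc, K'.mul_mem_cancel_left hk, mul_assoc]
  have hA' : ∀ δ, InP 2 2 2 δ → ∀ y, y * io (cc c) δ ∈ A → y ∈ A := by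
    rintro δ hδ y ⟨γ, hγ, e⟩
    exact ⟨δ * γ, hδ.mul (by norm_num) (by norm_num) hγ, by rwa [map_mul, ← mul_assoc]⟩
  obtain ⟨w1, hw1⟩ := h.fixed (restr ρ' A hA (E0 1)) fun δ hδ => by
    have m : δ ∈ K0 := hδ.mono zero_le_two zero_le_two zero_le_two
    ext y
    rw [cInd_apply]
    by_cases hy : y ∈ A
    · rw [restr_mem _ hy, restr_mem, ← h.apply m, sig_four ⟨δ, m⟩ hδ]
      exact hA' _ hδ.inv _ (by rwa [mul_assoc, ← map_mul, mul_inv_cancel, map_one, mul_one])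
    · rw [restr_not _ hy, restr_not _ fun hy' => hy (hA' δ hδ y hy')]
  have hs : ∀ y, (E0 w1).1 y ≠ 0 → y ∈ A := fun y hy => by
    by_contra hn
    exact hy (by rw [← hw1, restr_not _ hn])
  have hg1 : (E0 w1).1 (io (cc c) g) ≠ 0 := by
    rw [← hw1, restr_mem]
    · exact hg
    · exact ⟨1, (PP 2 2 2 (by norm_num) (by norm_num)).one_mem, by simp⟩
  let J : Subgroup S := (K'.comap (io (cc c))).comap (MulAut.conj g).toMonoidHom
  have hJ : ∀ j, j ∈ J ↔ io (cc c) (g * j * g⁻¹) ∈ K' := fun _ => Iff.rfl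
  have hJc : IsCompact (J : Set S) := by
    convert hc.image (f := fun s => g⁻¹ * s * g) (by fun_prop) using 1
    ext j
    exact ⟨fun hj => ⟨_, hj, by simp [mul_assoc]⟩, by
      rintro ⟨s, hs, rfl⟩
      simpa [hJ, mul_assoc] using hs⟩
  have hle : J ≤ K0 := by
    obtain ⟨q, hq, e⟩ := h.three hg1 rr_K0
    obtain ⟨γ, hγ, e'⟩ := hs _ e
    obtain ⟨q0, q1, q2, q3⟩ := rr_cases hq
    obtain ⟨p1, p2, p3⟩ := odd_mul q0 (hγ.mono one_le_two one_le_two one_le_two) q1 q2 q3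
    exact rigid hJc ((hJ (q * γ)).2 (by simpa [mul_assoc] using e'))
      (K0.mul_mem q0 (hγ.mono zero_le_two zero_le_two zero_le_two)) p1 p2 p3
  have hcj : ∀ κ ∈ K', (io (cc c) g)⁻¹ * κ * io (cc c) g ∈ KJ (cc c) K0 := fun κ hκ => by
    obtain ⟨s, b, rfl⟩ := exists_rep κ
    have : (io (cc c) g)⁻¹ * (io (cc c) s * ka (cc c) b) * io (cc c) g =
        io (cc c) (g⁻¹ * s * g) * ka (cc c) b := by
      rw [mul_assoc, mul_assoc, ka_comm]; simp [mul_assoc]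
    rw [this, mem_KJ (cc_sq h2) m1]
    exact hle ((hJ _).2 (by simpa [mul_assoc] using (rep_mem hK s b).1 hκ))
  have hio : ∀ k ∈ K0, io (cc c) k ∈ KJ (cc c) K0 := fun k hk => by
    simpa using (mem_KJ (cc_sq h2) m1 k 1).2 hk
  let B : Set (Grp F (cc c)) := {y | (io (cc c) g)⁻¹ * y ∈ KJ (cc c) K0}
  have hB : ∀ k ∈ K', ∀ y, k * y ∈ B ↔ y ∈ B := fun k hk y => by
    simp only [B, Set.mem_ofPred_eq]
    rw [← (KJ (cc c) K0).mul_mem_cancel_left (hcj k hk) (y := (io (cc c) g)⁻¹ * y)]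
    simp [mul_assoc]
  have hB' : ∀ x y, y ∈ B → (y * x ∈ B ↔ x ∈ KJ (cc c) K0) := fun x y hy => by
    simp only [B, Set.mem_ofPred_eq] at hy ⊢
    rw [← mul_assoc, (KJ (cc c) K0).mul_mem_cancel_left hy]
  have hsupp : ∀ w y, y ∉ B → (E0 w).1 y = 0 := by
    let Y : Submodule ℂ (Fin 2 → ℂ) := ⨅ y ∉ B, LinearMap.ker (ev K' ρ' y ∘ₗ E0)
    have hY : ∀ w, w ∈ Y ↔ ∀ y, y ∉ B → (E0 w).1 y = 0 := fun w => by simp [Y]
    have hi : ∀ k hk, ∀ w ∈ Y, sig ⟨k, hk⟩ w ∈ Y := fun k hk w hw => (hY _).2 fun y hy => by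
      rw [h.apply, (hY _).1 hw]
      intro hy'
      have := (hB' _ _ hy').2 (hio _ (K0.inv_mem hk))
      rw [mul_assoc, ← map_mul, mul_inv_cancel, map_one, mul_one] at this
      exact hy this
    intro w
    refine (hY w).1 (sig_irr Y (hi _ _) (hi _ _) (w := w1) ((hY _).2 fun y hy => ?_) ?_ w)
    · by_contra hn
      obtain ⟨γ, hγ, e⟩ := hs y hn
      have := (KJ (cc c) K0).mul_mem (hcj _ e)
        (hio _ (K0.inv_mem (hγ.mono zero_le_two zero_le_two zero_le_two)))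
      exact hy (by simpa [B, mul_assoc] using this)
    · rintro rfl
      exact hg1 (by rw [map_zero]; rfl)
  have hP : ∀ f, restr ρ' B hB f ∈ LinearMap.range E0 :=
    h.span ((LinearMap.range E0).comap (restr ρ' B hB)) fun x w => by
      rw [Submodule.mem_comap]
      by_cases hx : x ∈ KJ (cc c) K0
      · obtain ⟨s, b, rfl⟩ := exists_rep x
        have hs := (mem_KJ (cc_sq h2) m1 s b).1 hx
        rw [rep_mul, h.ka_act, ← map_smul, h.io_act ⟨s, hs⟩]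
        refine ⟨sig ⟨s, hs⟩ ((eps0 b.2 : ℂ) • w), Subtype.ext (funext fun y => ?_)⟩
        by_cases hy : y ∈ B
        · rw [restr_mem _ hy]
        · rw [restr_not _ hy, hsupp _ _ hy]
      · refine ⟨0, Subtype.ext (funext fun y => ?_)⟩
        rw [map_zero]
        by_cases hy : y ∈ B
        · rw [restr_mem _ hy, cInd_apply, hsupp _ _ fun hy' => hx ((hB' _ _ hy).1 hy')]
          rfl
        · rw [restr_not _ hy]
          rfl
  have hφ : ∀ w, ∃ w', cInd K' ρ' (io (cc c) g)⁻¹ (emb K' ρ' w) = E0 w' := fun w => by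
    obtain ⟨w', e⟩ := hP (cInd K' ρ' (io (cc c) g)⁻¹ (emb K' ρ' w))
    refine ⟨w', Eq.trans (Subtype.ext (funext fun y => ?_)) e.symm⟩
    by_cases hy : y ∈ B
    · rw [restr_mem _ hy]
    · rw [restr_not _ hy, cInd_apply, emb_not]
      exact fun hy' => hy (by simpa [B, mul_assoc] using hcj _ hy')
  refine ⟨g, fun j hj => hle ((hJ j).2 hj), fun k hk => (hJ _).1 ?_, hφ⟩
  obtain ⟨w', e⟩ := hφ w0
  obtain ⟨q, hq, e'⟩ := h.three (w := w') (x := io (cc c) g)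
    (by rw [← e, cInd_apply, mul_inv_cancel, emb_one]; exact h0) hk
  have hqJ : q ∈ J := by
    by_contra hn
    exact e' (by rw [← e, cInd_apply, emb_not]; simpa [hJ] using hn)
  rcases hq with rfl | rfl | rfl | rfl
  · exact J.mul_mem hqJ hqJ
  · simpa using J.inv_mem (J.mul_mem hqJ hqJ)
  · exact hqJ
  · exact J.inv_mem_iff.1 hqJ

variable [TopologicalSpace C] [IsTopologicalGroup C]

theorem exists_Tr {ρ₀ : Representation ℂ (KJ (cc c) K0) (Fin 2 → ℂ)} (h : IsRho ρ₀)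
    (hi : Iso (cInd _ ρ₀) (cInd K' ρ')) : ∃ E0, Tr K' ρ' E0 := by
  obtain ⟨Φ, hΦ⟩ := hi
  refine ⟨Φ.toLinearMap ∘ₗ emb _ ρ₀, fun w w' e => ?_, fun a f => ?_, fun k w => ?_,
    fun f hf => ?_, fun U hU f => ?_⟩
  · rw [← emb_one (ρ := ρ₀) w, ← emb_one (ρ := ρ₀) w', Φ.injective e]
  · obtain ⟨v, rfl⟩ := Φ.surjective f
    rw [← hΦ, h.ka_act, map_smul]
  · exact (hΦ _ _).symm.trans (congrArg Φ (h.emb_act k w))
  · obtain ⟨v, rfl⟩ := Φ.surjective f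
    obtain ⟨w, hw⟩ := h.fixed_eq (f := v) fun γ hγ => Φ.injective ((hΦ _ _).trans (hf γ hγ))
    exact ⟨w, congrArg Φ hw⟩
  · obtain ⟨v, rfl⟩ := Φ.surjective f
    refine ind_span (U.comap Φ.toLinearMap) (fun x w => ?_) v
    change Φ _ ∈ U
    rw [hΦ]
    exact hU x w

theorem not_ofForm {t : C} (ht : t ^ 4 = c) (h1 : c ≠ 1)
    {ρ₀ : Representation ℂ (KJ (cc c) K0) (Fin 2 → ℂ)} (h : IsRho ρ₀) :
    ¬ OfForm (pr c) (eps h.1) (cInd _ ρ₀) := by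
  rintro ⟨K, hK, s, hs, W, _, _, ρ, ρ', hρ, hirr, hsc, hl, hi⟩
  have h2 := h.1
  obtain ⟨E0, T⟩ := exists_Tr h hi
  obtain ⟨⟨w0, h0⟩, -⟩ := (irr_iff ρ).1 hirr
  have hK' : Subgroup.center (Grp F (cc c)) ≤ K.comap (pr c) := fun x hx => by
    obtain ⟨a, rfl⟩ := mem_center (cc_sq h2) cc_ne hx
    exact hK.2.1 (ka_center a.1)
  obtain ⟨g, g1, g2, g3⟩ := T.struct h2 hK' (hK.comap h2 h1).1 h0
  have rel : ∀ (x : Grp F (cc c)) (hx : x ∈ K.comap (pr c)), ∃ ζ : M4, ∀ w,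
      ρ ⟨pr c x, hx⟩ w = (eps0 ζ : ℂ) • ρ' ⟨x, hx⟩ w := fun x hx => by
    obtain ⟨ζ, e⟩ := (jz_bij h2).2 ⟨s ⟨pr c x, hx⟩ * x⁻¹, by
      rw [MonoidHom.mem_ker, map_mul, hs.2, map_inv, mul_inv_cancel]⟩
    have e' : s ⟨pr c x, hx⟩ = jz c ζ * x := by rw [e]; simp
    have m : (jz c ζ : Grp F (cc c)) ∈ K.comap (pr c) := hK' (ka_center _)
    refine ⟨ζ, fun w => ?_⟩
    rw [← hl.1 _ (e' ▸ (K.comap (pr c)).mul_mem m hx), ← eps_jz h2, ← hl.2 _ m,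
      ← rep_mk ρ' m hx ((K.comap (pr c)).mul_mem m hx)]
    simp only [e']
  have hka : ∀ a, ∃ ζ : M4, ∀ w, ρ ⟨ka c a, hK.2.1 (ka_center a)⟩ w = (eps0 ζ : ℂ) • w :=
    fun a => by
      obtain ⟨ζ, e⟩ := rel (ka (cc c) (a, 1)) (hK' (ka_center _))
      refine ⟨ζ, fun w => (e w).trans ?_⟩
      have := congrArg (ev _ ρ' 1) (T.ka_act (a, 1) (emb _ ρ' w))
      rw [cInd_emb (hK' (ka_center _)), map_smul, ev_apply, ev_apply, emb_one, emb_one] at this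
      rw [this]
      simp
  have e4 : ∀ ζ : M4, (eps0 ζ : ℂ) ^ 4 = 1 := fun ζ => by
    rw [← Units.val_pow_eq_pow_val, ← map_pow, pow_four_M4, map_one, Units.val_one]
  let J : Subgroup S := (K.comap (io c)).comap (MulAut.conj g).toMonoidHom
  let R : Representation ℂ J W := ρ.comp (MonoidHom.codRestrict
    ((io c).comp ((MulAut.conj g).toMonoidHom.comp J.subtype)) K fun j => j.2)
  have hR : ∀ j (hj : j ∈ J) w, R ⟨j, hj⟩ w = ρ ⟨io c (g * j * g⁻¹), hj⟩ w := fun _ _ _ => rfl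
  have hφ : ∀ j (hj : j ∈ J) w w', cInd _ ρ' (io (cc c) g)⁻¹ (emb _ ρ' w) = E0 w' →
      cInd _ ρ' (io (cc c) g)⁻¹ (emb _ ρ' (ρ' ⟨io (cc c) (g * j * g⁻¹), hj⟩ w)) =
        E0 (sig ⟨j, g1 j hj⟩ w') := fun j hj w w' e => by
    rw [← T.io_act ⟨j, g1 j hj⟩, ← e, ← cInd_emb, ← rep_mul, ← rep_mul]
    simp [mul_assoc]
  have hinj : ∀ w w', cInd _ ρ' (io (cc c) g)⁻¹ (emb _ ρ' w) =
      cInd _ ρ' (io (cc c) g)⁻¹ (emb _ ρ' w') → w = w' := fun w w' e => by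
    have := congrArg (ev _ ρ' (io (cc c) g)) e
    simpa only [ev_apply, cInd_apply, mul_inv_cancel, emb_one] using this
  have hg2 : ∀ γ, InP 1 1 1 γ → Sc R 1 γ := fun γ => gamma2 R g2 (fun j hj hj' => by
    obtain ⟨ζ, e⟩ := rel (io (cc c) (g * j * g⁻¹)) hj
    refine ⟨eps0 (ζ * chi ⟨j, g1 j hj⟩), e4 _, hj, fun w => (e w).trans ?_⟩
    obtain ⟨w', e'⟩ := g3 w
    have := hφ j hj w w' e'
    rw [sig_two _ hj', map_smul, ← e', ← map_smul, ← map_smul] at this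
    rw [hinj _ _ this, map_mul, Units.val_mul, smul_smul]) (by
    have e : io c (g * -1 * g⁻¹) = ka c t * ka c t * (ka c t * ka c t) := by
      rw [mul_neg, mul_one, neg_mul, mul_inv_cancel, io_neg_one h2]
      simp only [← map_mul]
      congr 1
      rw [← ht, pow_succ, pow_succ, pow_succ, pow_one, mul_assoc]
    have m := hK.2.1 (ka_center (c := c) t)
    have mm := K.mul_mem m m
    obtain ⟨ζ, e'⟩ := hka t
    have hj : -1 ∈ J := show io c (g * -1 * g⁻¹) ∈ K from e ▸ K.mul_mem mm mm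
    refine ⟨hj, fun w => ?_⟩
    rw [hR, show (⟨io c (g * -1 * g⁻¹), hj⟩ : K) = ⟨_, K.mul_mem mm mm⟩ from Subtype.ext e,
      rep_mk ρ mm mm, rep_mk ρ m m, rep_mk ρ m m, e', e', e', e', smul_smul, smul_smul, smul_smul,
      ← e4 ζ]
    congr 1
    ring)
  obtain ⟨ξ, w1, n1, hξ⟩ := exists_xi R g1 h0 hg2 fun hx => by
    by_contra hn
    push Not at hn
    obtain ⟨ζ, e⟩ := rel (io (cc c) (g * xx 1 * g⁻¹)) hx
    have hr : rr ∈ J := rr_four ▸ g2 _ (K0.mul_mem rr_K0 rr_K0)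
    let Y := (LinearMap.range (cInd _ ρ' (io (cc c) g)⁻¹ ∘ₗ emb _ ρ')).comap E0
    obtain ⟨w', e'⟩ := g3 w0
    refine sig_not_scalar (xx_K0 D_one) (-(eps0 ζ⁻¹ : ℂ)) fun u => T.inj ?_
    obtain ⟨w, hw⟩ : u ∈ Y := sig_irr Y (fun u ⟨w, hw⟩ => ⟨_, hφ _ hx w u hw⟩)
      (fun u ⟨w, hw⟩ => ⟨_, hφ _ hr w u hw⟩) (w := w') ⟨w0, e'⟩ (by
        rintro rfl
        exact h0 (hinj _ _ (by rw [e', map_zero, map_zero, map_zero]))) u
    have a : ρ' ⟨io (cc c) (g * xx 1 * g⁻¹), hx⟩ w = -(eps0 ζ⁻¹ : ℂ) • w := by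
      have := (e w).symm.trans (hn w)
      rw [neg_smul, ← smul_neg, ← this, smul_smul, ← Units.val_mul, ← map_mul, inv_mul_cancel]
      simp
    rw [← hφ _ hx w u hw, a, map_smul, map_smul, map_smul, ← hw]
    rfl
  refine not_sc h2 h1 hK.2.1 g ?_ ξ n1 (fun j hj hj' w => hξ ⟨j, hj⟩ hj' w) hsc.2.2
  have : Continuous fun a => (⟨ka c a, hK.2.1 (ka_center a)⟩ : K) := continuous_ka.subtype_mk _
  refine Filter.mem_of_superset (((hρ w0).preimage this).mem_nhds ?_) fun a ha w => ?_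
  · change ρ ⟨ka c 1, _⟩ w0 = w0
    simp only [map_one]
    exact rep_one ρ w0
  · obtain ⟨ζ, e⟩ := hka a
    have : (eps0 ζ : ℂ) = 1 := smul_left_injective ℂ h0 (by simpa [← e] using ha)
    rw [e, this, one_smul]

end Pool.Agent.P.MP_2ea9e4_al
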