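import Pool.Agent.P.MP_2ea9e4_al.Torus

/-!
# `GG` is the group of Galois-fixed points of `GB`
-/

set_option maxHeartbeats 400000

noncomputable section

namespace Pool.Agent.P.MP_2ea9e4_al

open scoped MatrixGroups TensorProduct

/-! ### Norm groups of `Q_2` -/

theorem aniso : ∀ B : ZMod 16, (8 * B = 8 ∨ (8 * B = 0 ∧ 4 * B = 8)) → 2 * B = 2 ∨
    ∃ b : ZMod 16, (b = 2 ∨ b = -2 ∨ b = 10) ∧ ∀ U V W : ZMod 16,
      U * U - B * (V * V) = b * (W * W) → 8 * U = 0 ∧ 8 * V = 0 ∧ 8 * W = 0 := by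
  decide +kernel

/-- Reduction modulo 16. -/
def r16 : ℤ_[2] →+* ZMod 16 := PadicInt.toZModPow 4

theorem r16_eq {x : ℤ_[2]} : r16 x = 0 ↔ D 4 x := by
  change x ∈ RingHom.ker (PadicInt.toZModPow 4) ↔ _
  rw [PadicInt.ker_toZModPow, ← PadicInt.norm_le_pow_iff_mem_span_pow]
  rfl

theorem D_eight : D 3 8 := (D_pow 3).of_eq (by norm_num)

theorem r16_unit {x : ℤ_[2]} (h : ‖(x : F)‖ = 1) : 8 * r16 x = 8 := by
  have : r16 (8 * (x - 1)) = 0 := r16_eq.2 ((D_eight.mul (D_sub_one h)).of_eq (by push_cast; rfl))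
  rw [map_mul, map_sub, map_one, map_ofNat] at this
  linear_combination this

theorem square_of_D {w : F} (h : D 3 (w - 1)) : IsSquare w := by
  let z : ℤ_[2] := ⟨w, D_zero_iff.1 (h.mono (by norm_num)).zero_of⟩
  obtain ⟨y, hy, -⟩ := hensels_lemma (F := (Polynomial.X ^ 2 - Polynomial.C z : Polynomial ℤ_[2]))
    (a := (1 : ℤ_[2])) (by
      have e1 : ‖(1 - z : ℤ_[2])‖ ≤ 2 ^ (-3 : ℤ) := h.neg.of_eq (by simp [z])
      have e2 : ‖(2 : ℤ_[2])‖ = 2⁻¹ := by simpa using PadicInt.norm_p (p := 2)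
      simp only [map_sub, map_pow, Polynomial.aeval_X, Polynomial.aeval_C, one_pow,
        Polynomial.derivative_X_pow, Polynomial.derivative_C, sub_zero, map_mul, mul_one,
        Algebra.algebraMap_self, RingHom.id_apply, Nat.cast_ofNat, e2]
      exact e1.trans_lt (by norm_num))
  refine ⟨y, ?_⟩
  have : y ^ 2 = z := by simpa [sub_eq_zero] using hy
  have := congrArg (fun t : ℤ_[2] => (t : F)) this
  simp only [PadicInt.coe_pow] at this
  rw [← pow_two, this]

theorem scale3 (u v : F) : ∃ m : F, D 0 (m * u) ∧ D 0 (m * v) ∧ D 0 m ∧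
    (‖m * u‖ = 1 ∨ ‖m * v‖ = 1 ∨ ‖m‖ = 1) := by
  have key : ∀ x y : F, x ≠ 0 → ‖y‖ ≤ ‖x‖ → D 0 (x⁻¹ * y) := fun x y hx h => by
    rw [D_zero_iff, norm_mul, norm_inv]
    exact inv_mul_le_one_of_le₀ h (norm_nonneg _)
  by_cases h1 : ‖u‖ ≤ 1 ∧ ‖v‖ ≤ 1
  · exact ⟨1, by simpa [D] using h1.1, by simpa [D] using h1.2, D_one, Or.inr (Or.inr norm_one)⟩
  · rcases le_total ‖u‖ ‖v‖ with h | h
    · have h2 : 1 < ‖v‖ := not_le.1 fun h' => h1 ⟨h.trans h', h'⟩
      have v0 : v ≠ 0 := norm_pos_iff.1 (one_pos.trans h2)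
      exact ⟨v⁻¹, key v u v0 h, key v v v0 le_rfl, by simpa using key v 1 v0 (by simpa using h2.le),
        Or.inr (Or.inl (by rw [inv_mul_cancel₀ v0, norm_one]))⟩
    · have h2 : 1 < ‖u‖ := not_le.1 fun h' => h1 ⟨h', h.trans h'⟩
      have u0 : u ≠ 0 := norm_pos_iff.1 (one_pos.trans h2)
      exact ⟨u⁻¹, key u u u0 le_rfl, key u v u0 h, by simpa using key u 1 u0 (by simpa using h2.le),
        Or.inl (by rw [inv_mul_cancel₀ u0, norm_one])⟩

theorem square_aux {β : F} (h0 : ‖β‖ = 1 ∨ ∃ w, ‖w‖ = 1 ∧ β = 2 * w)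
    (h : ∀ i, ∃ u v, u * u - β * (v * v) = bb i) : IsSquare β := by
  have d0 : D 0 β := by
    rcases h0 with h0 | ⟨w, h0, rfl⟩
    · exact D_of_norm h0
    · exact (D_two.mono zero_le_one).mul0 (D_of_norm h0)
  let B : ℤ_[2] := ⟨β, D_zero_iff.1 d0⟩
  have hB : 8 * r16 B = 8 ∨ (8 * r16 B = 0 ∧ 4 * r16 B = 8) := by
    rcases h0 with h0 | ⟨w, h0, e⟩
    · exact Or.inl (r16_unit h0)
    · have := r16_unit (x := ⟨w, h0.le⟩) h0
      have e' : B = 2 * ⟨w, h0.le⟩ := Subtype.ext e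
      rw [e', map_mul, map_ofNat]
      exact Or.inr ⟨by rw [← mul_assoc, show (8 * 2 : ZMod 16) = 0 from rfl, zero_mul],
        by rw [← mul_assoc, show (4 * 2 : ZMod 16) = 8 from rfl, this]⟩
  rcases aniso _ hB with h1 | ⟨b, hb, h1⟩
  · have : r16 (2 * (B - 1)) = 0 := by
      rw [map_mul, map_sub, map_one, map_ofNat]; linear_combination h1
    have h2 : D (1 + 3) (2 ^ (1 : ℤ) * (β - 1)) := (r16_eq.1 this).of_eq (by
      rw [zpow_one]; rfl)
    exact square_of_D (D_shift.1 h2)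
  · exfalso
    obtain ⟨i, n, e1, e2⟩ : ∃ (i : Fin 3) (n : ℤ), bb i = n ∧ b = n := by
      rcases hb with rfl | rfl | rfl
      exacts [⟨0, 2, by simp [bb], by simp⟩, ⟨1, -2, by simp [bb], by simp⟩,
        ⟨2, 10, by simp [bb], by simp⟩]
    obtain ⟨u, v, e⟩ := h i
    obtain ⟨m, a1, a2, a3, a4⟩ := scale3 u v
    let U : ℤ_[2] := ⟨_, D_zero_iff.1 a1⟩
    let V : ℤ_[2] := ⟨_, D_zero_iff.1 a2⟩
    let W : ℤ_[2] := ⟨_, D_zero_iff.1 a3⟩
    have e3 : U * U - B * (V * V) = n * (W * W) := Subtype.ext (by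
      change m * u * (m * u) - β * (m * v * (m * v)) = ((n : ℤ_[2]) : F) * (m * m)
      rw [PadicInt.coe_intCast, ← e1, ← e]
      ring)
    have e4 := congrArg r16 e3
    simp only [map_sub, map_mul, map_intCast] at e4
    obtain ⟨z1, z2, z3⟩ := h1 _ _ _ (e2 ▸ e4)
    rcases a4 with a | a | a
    · exact absurd ((r16_unit (x := U) a).symm.trans z1) (by decide)
    · exact absurd ((r16_unit (x := V) a).symm.trans z2) (by decide)
    · exact absurd ((r16_unit (x := W) a).symm.trans z3) (by decide)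

/-- If `2, -2, 10` are all norms from `Q_2(√β)` then `β` is a square. -/
theorem square_of_norms {β : F} (h0 : β ≠ 0) (h : ∀ i, ∃ u v, u * u - β * (v * v) = bb i) :
    IsSquare β := by
  obtain ⟨n, hn⟩ := exists_norm h0
  have n1 : ‖2 ^ (-n) * β‖ = 1 := by
    rw [norm_mul, hn, norm_two_zpow, ← zpow_add₀ two_ne_zero]; simp
  obtain ⟨k, hk⟩ := Int.even_or_odd' n
  have e : β = 2 ^ k * 2 ^ k * (2 ^ (-k) * 2 ^ (-k) * β) := by
    rw [zpow_neg]; have := two_zpow_ne k; field_simp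
  obtain ⟨y, hy⟩ := square_aux (β := 2 ^ (-k) * 2 ^ (-k) * β) (by
    rcases hk with rfl | rfl
    · left; rw [← n1, ← zpow_add₀ two_ne_zero]; congr 3; ring
    · refine Or.inr ⟨_, n1, ?_⟩
      rw [← mul_assoc, ← zpow_add₀ two_ne_zero, ← zpow_one_add₀ two_ne_zero]; congr 2; ring)
    fun i => by
      obtain ⟨u, v, h⟩ := h i
      refine ⟨u, 2 ^ k * v, ?_⟩
      rw [← h, zpow_neg]; have := two_zpow_ne k; field_simp
  exact ⟨2 ^ k * y, by rw [e, hy]; ring⟩

/-! ### Coordinates on `Qbar ⊗ L_b` -/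

abbrev Fb : Type := PadicAlgCl 2

/-- The coordinate attached to a functional on `L_b`. -/
def co (i : Fin 3) (φ : Lf i →ₗ[F] F) : Ab i →ₗ[Fb] Fb :=
  (TensorProduct.AlgebraTensorModule.rid F Fb Fb).toLinearMap ∘ₗ φ.baseChange Fb

/-- A pure tensor. -/
def tm (i : Fin 3) (a : Fb) (l : Lf i) : Ab i := a ⊗ₜ[F] l

theorem co_tm (i φ a l) : co i φ (tm i a l) = φ l • a := rfl

theorem Ab.ind {i : Fin 3} {p : Ab i → Prop} (h0 : p 0) (h1 : ∀ a l, p (tm i a l))
    (h2 : ∀ x y, p x → p y → p (x + y)) (x : Ab i) : p x :=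
  TensorProduct.induction_on (motive := p) x h0 h1 h2

theorem gal_tm (σ i a l) : gal σ i (tm i a l) = tm i (σ a) l := rfl

theorem gal_add (σ i x y) : gal σ i (x + y) = gal σ i x + gal σ i y :=
  map_add (Algebra.TensorProduct.map σ.toAlgHom (AlgHom.id ℚ_[2] (Lf i))) x y

theorem gal_zero (σ i) : gal σ i 0 = 0 :=
  map_zero (Algebra.TensorProduct.map σ.toAlgHom (AlgHom.id ℚ_[2] (Lf i)))

theorem incl_eq (i l) : incl i l = tm i 1 l := rfl

theorem alg_eq (i a) : algebraMap Fb (Ab i) a = tm i a 1 := rfl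

theorem tm_mul (i a b l l') : tm i a l * tm i b l' = tm i (a * b) (l * l') :=
  Algebra.TensorProduct.tmul_mul_tmul a b l l'

theorem co_gal (σ i φ) (x : Ab i) : co i φ (gal σ i x) = σ (co i φ x) := by
  induction x using Ab.ind with
  | h0 => rw [gal_zero, map_zero, map_zero]
  | h1 a l => rw [gal_tm, co_tm, co_tm, Algebra.smul_def, Algebra.smul_def, map_mul, σ.commutes]
  | h2 x y hx hy => rw [gal_add, map_add, map_add, map_add, hx, hy]

/-- `x ↦ φ (l * x)`. -/
def mulC (i : Fin 3) (l : Lf i) (φ : Lf i →ₗ[F] F) : Lf i →ₗ[F] F := φ ∘ₗ LinearMap.mulLeft F l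

theorem mulC_apply (i l φ x) : mulC i l φ x = φ (l * x) := rfl

theorem co_mul (i φ l) (x : Ab i) : co i φ (incl i l * x) = co i (mulC i l φ) x := by
  induction x using Ab.ind with
  | h0 => rw [mul_zero, map_zero, map_zero]
  | h1 a l' => rw [incl_eq, tm_mul, one_mul, co_tm, co_tm]; rfl
  | h2 x y hx hy => rw [mul_add, map_add, map_add, hx, hy]

theorem co_smul (i) (r : F) (φ) (x : Ab i) : co i (r • φ) x = r • co i φ x := by
  induction x using Ab.ind with
  | h0 => rw [map_zero, map_zero, smul_zero]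
  | h1 a l' => rw [co_tm, co_tm, smul_smul]; rfl
  | h2 x y hx hy => rw [map_add, map_add, hx, hy, smul_add]

theorem co_alg (i φ a) (x : Ab i) : co i φ (algebraMap Fb (Ab i) a * x) = a * co i φ x := by
  rw [← Algebra.smul_def, map_smul, smul_eq_mul]

instance free_Lf (i : Fin 3) : Module.Free F (Lf i) := Module.Free.of_divisionRing F (Lf i)

instance fin_Lf (i : Fin 3) : Module.Finite F (Lf i) := finDim_Lf i

/-- A basis of `L_b`. -/
def bs (i : Fin 3) : Module.Basis (Fin (Module.finrank F (Lf i))) F (Lf i) :=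
  Module.finBasis F (Lf i)

theorem expand (i) (x : Ab i) : x = ∑ j, tm i (co i ((bs i).coord j) x) (bs i j) := by
  induction x using Ab.ind with
  | h0 => simp only [map_zero]; exact (Finset.sum_eq_zero fun j _ => TensorProduct.zero_tmul _ _).symm
  | h1 a l =>
    conv_lhs => rw [← (bs i).sum_repr l]
    refine (TensorProduct.tmul_sum a _ _).trans (Finset.sum_congr rfl fun j _ => ?_)
    rw [co_tm]
    exact (TensorProduct.smul_tmul _ _ _).symm
  | h2 x y hx hy =>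
    conv_lhs => rw [hx, hy, ← Finset.sum_add_distrib]
    refine Finset.sum_congr rfl fun j _ => ?_
    rw [map_add]
    exact (TensorProduct.add_tmul _ _ _).symm

instance nontrivial_Ab (i : Fin 3) : Nontrivial (Ab i) := by
  obtain ⟨ψ, hψ⟩ := Module.Projective.exists_dual_eq_one F (one_ne_zero (α := Lf i))
  refine ⟨tm i 1 1, 0, fun h => ?_⟩
  have := congrArg (co i ψ) h
  rw [co_tm, hψ, map_zero, one_smul] at this
  exact one_ne_zero this

theorem exists_co (i) (t : (Ab i)ˣ) : ∃ φ, co i φ t ≠ 0 := by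
  by_contra h
  push Not at h
  apply t.ne_zero
  rw [expand i t]
  exact Finset.sum_eq_zero fun j _ => by rw [h]; exact TensorProduct.zero_tmul _ _

theorem fixed_F {x : Fb} (h : ∀ σ : Fb ≃ₐ[F] Fb, σ x = x) : ∃ a : F, algebraMap F Fb a = x :=
  (InfiniteGalois.mem_range_algebraMap_iff_fixed x).2 h

theorem incl_scal {i} {l : (Lf i)ˣ} :
    Units.map (incl i) l ∈ scal Fb (Ab i) ↔ l ∈ scal F (Lf i) := by
  rw [mem_scal, mem_scal]
  constructor
  · rintro ⟨a, h⟩
    obtain ⟨ψ, hψ⟩ := Module.Projective.exists_dual_eq_one F (one_ne_zero (α := Fb))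
    refine ⟨ψ a, ?_⟩
    have := congrArg ((TensorProduct.lid F (Lf i)).toLinearMap ∘ₗ ψ.rTensor (Lf i)) h
    change ψ a • (1 : Lf i) = ψ 1 • (l : Lf i) at this
    rw [hψ, one_smul] at this
    rw [← this, Algebra.algebraMap_eq_smul_one]
  · rintro ⟨a, h⟩
    refine ⟨algebraMap F Fb a, ?_⟩
    change tm i _ 1 = tm i 1 l
    rw [← h, Algebra.algebraMap_eq_smul_one (A := Fb) a, Algebra.algebraMap_eq_smul_one (A := Lf i)]
    exact TensorProduct.smul_tmul (R := F) a (1 : Fb) (1 : Lf i)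

/-! ### The groups -/

theorem mem_zp' {G : Type} [Group G] {g x : G} (h : g * g = 1) :
    x ∈ Subgroup.zpowers g ↔ x = 1 ∨ x = g := by
  constructor
  · rintro ⟨n, rfl⟩
    rw [← pow_two] at h
    simp only
    rcases Int.even_or_odd' n with ⟨k, rfl | rfl⟩
    · left; rw [zpow_mul, zpow_ofNat, h, one_zpow]
    · right; rw [zpow_add_one, zpow_mul, zpow_ofNat, h, one_zpow, one_mul]
  · rintro (rfl | rfl)
    · exact one_mem _
    · exact Subgroup.mem_zpowers _

theorem cB_sq : cB * cB = 1 := funext fun b => by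
  have h : Units.map (incl b) (gen b ^ 4 * gen b ^ 4) ∈ scal Fb (Ab b) :=
    incl_scal.2 (PU.mk_eq_one.1 (congrFun c0_sq b))
  rw [map_mul] at h
  exact PU.mk_eq_one.2 h

theorem PU.mk_eq' {i} {u v : (Ab i)ˣ} (h : PU.mk Fb u = PU.mk Fb v) :
    ∃ a, (u : Ab i) = algebraMap Fb (Ab i) a * v := by
  obtain ⟨a, h⟩ := mem_scal.1 (PU.mk_eq.1 h.symm)
  exact ⟨a, by rw [h, mul_comm, ← Units.val_mul, mul_inv_cancel_left]⟩

theorem clsB_eq {s s' : SL(2, Fb)} {t t' : ∀ i, (Ab i)ˣ} (h : clsB s' t' = clsB s t) :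
    (s' = s ∧ ∀ i, ∃ a, (t' i : Ab i) = algebraMap Fb (Ab i) a * t i) ∨
      (s' = -s ∧ ∀ i, ∃ a, (t' i : Ab i) =
        algebraMap Fb (Ab i) a * (incl i (gen i ^ 4 : (Lf i)ˣ) * t i)) := by
  rcases (mem_zp' (Prod.ext (by simp) cB_sq)).1 (QuotientGroup.eq.1 h.symm) with h1 | h1
  · have := (inv_mul_eq_one.1 h1).symm
    exact Or.inl ⟨congrArg Prod.fst this, fun i => PU.mk_eq' (congrFun (congrArg Prod.snd this) i)⟩
  · have := inv_mul_eq_iff_eq_mul.1 h1
    refine Or.inr ⟨by simpa using congrArg Prod.fst this, fun i => ?_⟩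
    obtain ⟨a, e⟩ := PU.mk_eq' (v := t i * Units.map (incl i) (gen i ^ 4))
      (congrFun (congrArg Prod.snd this) i)
    exact ⟨a, by rw [e, mul_comm (incl i _)]; rfl⟩

/-- Base change on the tori. -/
def jT (i : Fin 3) : PU F (Lf i) →* PU Fb (Ab i) :=
  QuotientGroup.map _ _ (Units.map (incl i)) fun _ h => incl_scal.2 h

/-- The Galois action on the tori. -/
def gT (σ : Fb ≃ₐ[F] Fb) (i : Fin 3) : PU Fb (Ab i) →* PU Fb (Ab i) :=
  QuotientGroup.map _ _ (Units.map (gal σ i)) fun u h => by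
    obtain ⟨a, h⟩ := mem_scal.1 h
    exact mem_scal.2 ⟨σ a, by rw [Units.coe_map, ← h]; rfl⟩

theorem gal_incl (σ i l) : gal σ i (incl i l) = incl i l := by
  rw [incl_eq, gal_tm, map_one]

theorem map_neg_one {k k' : Type} [Field k] [Field k'] (f : k →+* k') :
    Matrix.SpecialLinearGroup.map f (-1 : SL(2, k)) = -1 := by
  ext i j
  fin_cases i <;> fin_cases j <;> simp

/-- Base change. -/
def jG : GG →* GB :=
  QuotientGroup.map _ _ ((Matrix.SpecialLinearGroup.map (algebraMap F Fb)).prodMap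
    (MonoidHom.pi fun i => (jT i).comp (Pi.evalMonoidHom _ i))) (by
      rw [Subgroup.zpowers_le, Subgroup.mem_comap]
      exact (mem_zp' (Prod.ext (by simp) cB_sq)).2 (Or.inr (Prod.ext (map_neg_one _) rfl)))

/-- The Galois action. -/
def gG (σ : Fb ≃ₐ[F] Fb) : GB →* GB :=
  QuotientGroup.map _ _ ((Matrix.SpecialLinearGroup.map σ.toRingEquiv.toRingHom).prodMap
    (MonoidHom.pi fun i => (gT σ i).comp (Pi.evalMonoidHom _ i))) (by
      rw [Subgroup.zpowers_le, Subgroup.mem_comap]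
      refine (mem_zp' (Prod.ext (by simp) cB_sq)).2 (Or.inr ?_)
      refine Prod.ext (map_neg_one _) (funext fun i => ?_)
      exact congrArg (PU.mk Fb) (Units.ext (gal_incl σ i _)))

theorem jG_cls (s l) : jG (clsG s l) = clsB (Matrix.SpecialLinearGroup.map (algebraMap F Fb) s)
    fun i => Units.map (incl i) (l i) := rfl

theorem gG_cls (σ s t) : gG σ (clsB s t) =
    clsB (Matrix.SpecialLinearGroup.map σ.toRingEquiv.toRingHom s)
      fun i => Units.map (gal σ i) (t i) := rfl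

theorem clsG_surj (x : GG) : ∃ s l, x = clsG s l := by
  obtain ⟨⟨s, a⟩, rfl⟩ := QuotientGroup.mk_surjective x
  choose l hl using fun i => QuotientGroup.mk_surjective (a i)
  exact ⟨s, l, congrArg (fun a => (QuotientGroup.mk (s, a) : GG)) (funext fun i => (hl i).symm)⟩

theorem map_inj : Function.Injective
    (Matrix.SpecialLinearGroup.map (n := Fin 2) (algebraMap F Fb)) := fun s s' h => by
  ext i j
  exact (algebraMap F Fb).injective (congrArg (fun g : SL(2, Fb) => g i j) h)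

theorem jT_inj (i) : Function.Injective (jT i) := by
  rw [injective_iff_map_eq_one]
  intro a h
  obtain ⟨l, rfl⟩ := QuotientGroup.mk_surjective a
  exact PU.mk_eq_one.2 (incl_scal.1 (PU.mk_eq_one.1 h))

theorem jG_inj : Function.Injective jG := by
  rw [injective_iff_map_eq_one]
  intro x h
  obtain ⟨⟨s, a⟩, rfl⟩ := QuotientGroup.mk_surjective x
  refine (QuotientGroup.eq_one_iff _).2 ((mem_zp c0_sq).2 ?_)
  rcases (mem_zp' (Prod.ext (by simp) cB_sq)).1 ((QuotientGroup.eq_one_iff _).1 h) with h1 | h1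
  · exact Or.inl (Prod.ext (map_inj ((congrArg Prod.fst h1).trans (map_one _).symm))
      (funext fun i => jT_inj i ((congrFun (congrArg Prod.snd h1) i).trans (map_one _).symm)))
  · exact Or.inr (Prod.ext (map_inj ((congrArg Prod.fst h1).trans (map_neg_one _).symm))
      (funext fun i => jT_inj i (congrFun (congrArg Prod.snd h1) i)))

theorem descend (i) (t : (Ab i)ˣ)
    (h : ∀ σ, ∃ a, gal σ i t = algebraMap Fb (Ab i) a * t) :
    ∃ l : (Lf i)ˣ, PU.mk Fb t = PU.mk Fb (Units.map (incl i) l) := by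
  obtain ⟨φ, hφ⟩ := exists_co i t
  have key : ∀ ψ, ∃ q : F, algebraMap F Fb q = co i ψ t / co i φ t := fun ψ => fixed_F fun σ => by
    obtain ⟨a, e⟩ := h σ
    have a0 : a ≠ 0 := by
      rintro rfl
      have := co_gal σ i φ t
      rw [e, co_alg, zero_mul, eq_comm, map_eq_zero] at this
      exact hφ this
    rw [map_div₀, ← co_gal, ← co_gal, e, co_alg, co_alg, mul_div_mul_left _ _ a0]
  choose q hq using key
  let B := bs i
  have e : (t : Ab i) = algebraMap Fb (Ab i) (co i φ t) * incl i (∑ j, q (B.coord j) • B j) := by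
    rw [alg_eq, incl_eq, tm_mul, mul_one, one_mul]
    conv_lhs => rw [expand i t]
    refine Eq.trans (Finset.sum_congr rfl fun j _ => ?_) (TensorProduct.tmul_sum _ _ _).symm
    refine Eq.trans ?_ (TensorProduct.smul_tmul _ _ _)
    rw [Algebra.smul_def, hq, div_mul_cancel₀ _ hφ]
    rfl
  have l0 : ∑ j, q (B.coord j) • B j ≠ 0 := fun h0 => t.ne_zero (by
    rw [e, h0, incl_eq]
    exact mul_eq_zero_of_right _ (TensorProduct.tmul_zero _ _))
  refine ⟨Units.mk0 _ l0, (PU.mk_eq.2 (mem_scal.2 ⟨co i φ t, ?_⟩)).symm⟩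
  rw [Units.val_mul, Units.eq_inv_mul_iff_mul_eq, mul_comm]
  exact e.symm

theorem norm_eq (i) (t : (Ab i)ˣ) {x : Fb} (x0 : x ≠ 0) {β : F} (hβ : algebraMap F Fb β = x * x)
    (h : ∀ σ : Fb ≃ₐ[F] Fb, (σ x = x ∧ ∃ a, gal σ i t = algebraMap Fb (Ab i) a * t) ∨
      (σ x = -x ∧ ∃ a, gal σ i t = algebraMap Fb (Ab i) a * (incl i (gen i ^ 4 : (Lf i)ˣ) * t)))
    {σ₀ : Fb ≃ₐ[F] Fb} (h0 : σ₀ x = -x) : ∃ u v, u * u - β * (v * v) = bb i := by
  obtain ⟨φ, hφ⟩ := exists_co i t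
  set y : Lf i := ((gen i ^ 4 : (Lf i)ˣ) : Lf i) with hy
  set ψ := mulC i y φ with hψ'
  set b := algebraMap F Fb (bb i)
  have hb : ∀ σ : Fb ≃ₐ[F] Fb, σ b = b := fun σ => σ.commutes _
  have b0 : b ≠ 0 := by
    have : bb i ≠ 0 := by fin_cases i <;> simp [bb]
    simpa [b] using this
  have hψ : co i (mulC i y ψ) t = b * co i φ t := by
    rw [← Algebra.smul_def, ← co_smul]
    congr 2
    ext l
    rw [hψ', mulC_apply, mulC_apply, LinearMap.smul_apply, ← mul_assoc, hy, gen_pow,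
      ← Algebra.smul_def, map_smul]
  have ne : ∀ (σ : Fb ≃ₐ[F] Fb) a z, gal σ i t = algebraMap Fb (Ab i) a * z →
      a ≠ 0 ∧ co i φ z ≠ 0 := fun σ a z e => by
    have := co_gal σ i φ t
    rw [e, co_alg] at this
    exact mul_ne_zero_iff.1 (by rw [this]; simpa using hφ)
  have nx : x ≠ -x := fun e => x0 (by linear_combination e / 2)
  have ψ0 : co i ψ t ≠ 0 := by
    rcases h σ₀ with ⟨e, -⟩ | ⟨-, a, e⟩
    · exact absurd (e.symm.trans h0) nx
    · rw [hψ', ← co_mul]; exact (ne _ _ _ e).2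
  set ρ := co i ψ t / co i φ t with hρ
  have ρ0 : ρ ≠ 0 := div_ne_zero ψ0 hφ
  have key : ∀ σ : Fb ≃ₐ[F] Fb, (σ x = x ∧ σ ρ = ρ) ∨ (σ x = -x ∧ σ ρ = b / ρ) := fun σ => by
    rcases h σ with ⟨e1, a, e⟩ | ⟨e1, a, e⟩
    · refine Or.inl ⟨e1, ?_⟩
      rw [hρ, map_div₀, ← co_gal, ← co_gal, e, co_alg, co_alg, mul_div_mul_left _ _ (ne _ _ _ e).1]
    · refine Or.inr ⟨e1, ?_⟩
      rw [hρ, map_div₀, ← co_gal, ← co_gal, e, co_alg, co_alg, mul_div_mul_left _ _ (ne _ _ _ e).1,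
        co_mul, co_mul, hψ, ← hψ']
      field_simp
  obtain ⟨u, hu⟩ := fixed_F (x := (ρ + b / ρ) / 2) fun σ => by
    rcases key σ with ⟨-, e⟩ | ⟨-, e⟩
    · simp only [map_div₀, map_add, e, hb, map_ofNat]
    · simp only [map_div₀, map_add, e, hb, map_ofNat]
      field_simp
      ring
  obtain ⟨v, hv⟩ := fixed_F (x := (ρ - b / ρ) / (2 * x)) fun σ => by
    rcases key σ with ⟨e1, e⟩ | ⟨e1, e⟩
    · simp only [map_div₀, map_sub, map_mul, e, e1, hb, map_ofNat]
    · simp only [map_div₀, map_sub, map_mul, e, e1, hb, map_ofNat]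
      field_simp
      ring
  refine ⟨u, v, (algebraMap F Fb).injective ?_⟩
  simp only [map_sub, map_mul, hu, hv, hβ]
  change _ = b
  field_simp
  ring

theorem isPoints : IsPoints := by
  refine ⟨jG, jG_inj, jG_cls, fun s t => ⟨?_, fun h => ?_⟩⟩
  · rintro ⟨x, hx⟩ σ
    obtain ⟨s0, l, rfl⟩ := clsG_surj x
    rw [← gG_cls, ← hx, jG_cls, gG_cls]
    congr 1
    · ext i j
      exact σ.commutes _
    · exact funext fun i => Units.ext (gal_incl σ i _)
  · obtain ⟨p, q, x0⟩ : ∃ p q, s p q ≠ 0 := by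
      by_contra hn
      push Not at hn
      have := s.2
      rw [Matrix.det_fin_two, hn, hn 0 1] at this
      simp at this
    have h' := fun σ => clsB_eq (h σ)
    have hx : ∀ σ : Fb ≃ₐ[F] Fb, ∀ i, (σ (s p q) = s p q ∧
        ∃ a, gal σ i (t i) = algebraMap Fb (Ab i) a * t i) ∨ (σ (s p q) = -s p q ∧
          ∃ a, gal σ i (t i) = algebraMap Fb (Ab i) a * (incl i (gen i ^ 4 : (Lf i)ˣ) * t i)) :=
      fun σ i => (h' σ).imp (fun e => ⟨congrArg (fun g : SL(2, Fb) => g p q) e.1, e.2 i⟩)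
        fun e => ⟨congrArg (fun g : SL(2, Fb) => g p q) e.1, e.2 i⟩
    have plus : ∀ σ : Fb ≃ₐ[F] Fb, σ (s p q) ≠ -s p q := fun σ h0 => by
      obtain ⟨β, hβ⟩ := fixed_F (x := s p q * s p q) fun τ => by
        rcases hx τ 0 with e | e <;> rw [map_mul, e.1]
        ring
      obtain ⟨γ, rfl⟩ := square_of_norms (β := β) (by
        rintro rfl
        exact mul_ne_zero x0 x0 (by rw [← hβ, map_zero])) fun i =>
          norm_eq i (t i) x0 hβ (fun τ => hx τ i) h0
      rw [map_mul] at hβ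
      have : σ (s p q) = s p q := by
        rcases mul_self_eq_mul_self_iff.1 hβ with e | e
        · rw [← e, σ.commutes]
        · rw [← neg_eq_iff_eq_neg.2 e, map_neg, σ.commutes]
      exact x0 (by linear_combination (h0 - this) / 2)
    have h1 := fun σ => (h' σ).resolve_right fun e =>
      plus σ (congrArg (fun g : SL(2, Fb) => g p q) e.1)
    choose m hm using fun i j => fixed_F (x := s i j) fun σ =>
      congrArg (fun g : SL(2, Fb) => g i j) (h1 σ).1
    choose l hl using fun i => descend i (t i) fun σ => (h1 σ).2 i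
    have hd : (Matrix.of m).det = 1 := (algebraMap F Fb).injective (by
      rw [RingHom.map_det, map_one, ← s.2]
      congr 1
      ext i j
      exact hm i j)
    refine ⟨clsG ⟨_, hd⟩ l, ?_⟩
    rw [jG_cls]
    have e : Matrix.SpecialLinearGroup.map (algebraMap F Fb) ⟨_, hd⟩ = s := by
      ext i j
      exact hm i j
    rw [e]
    exact congrArg (fun a => (QuotientGroup.mk (s, a) : GB)) (funext fun i => (hl i).symm)

end Pool.Agent.P.MP_2ea9e4_al
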