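import Pool.Agent.P.MP_2ea9e4_al.Rep

/-!
# The image of `RR` is a connected reductive group over `Q_2` with rational points `GG`
-/

set_option maxHeartbeats 400000

noncomputable section

namespace Pool.Agent.P.MP_2ea9e4_al

open scoped MatrixGroups

/-- All entries lie in a given algebra of functions. -/
def MatIn {Y n : Type} (A : Subalgebra Fb (Y → Fb)) (B : Y → Matrix n n Fb) : Prop :=
  ∀ i j, (fun y => B y i j) ∈ A

theorem MatIn.const {Y n : Type} (A : Subalgebra Fb (Y → Fb)) (B : Matrix n n Fb) :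
    MatIn A fun _ => B := fun i j => A.algebraMap_mem (B i j)

theorem MatIn.mul {Y n : Type} [Fintype n] {A : Subalgebra Fb (Y → Fb)} {B C : Y → Matrix n n Fb}
    (h : MatIn A B) (h' : MatIn A C) : MatIn A fun y => B y * C y := fun i j => by
  have e : (fun y => (B y * C y) i j) = ∑ l, (fun y => B y i l) * fun y => C y l j := by
    ext y
    simp [Matrix.mul_apply]
  rw [e]
  exact A.sum_mem fun l _ => A.mul_mem (h i l) (h' l j)

theorem tau_tri (t) (b) (φ ψ χ : HH b) :
    tau t ⟨b, φ, ψ⟩ * tau t ⟨b, ψ, χ⟩ = tau t ⟨b, φ, χ⟩ := by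
  have := evH_ne ψ (t b)
  simp only [tau]
  field_simp

theorem sim_tri (b) (φ ψ χ : HH b) : sim ⟨b, φ, χ⟩ ↔ (sim ⟨b, φ, ψ⟩ ↔ sim ⟨b, ψ, χ⟩) := by
  have := tau_tri yb b φ ψ χ
  simp only [tau_yb] at this
  split_ifs at this with h1 h2 h3 h3 h2 h3 h3 <;> first | (simp [h1, h2, h3]; done) | norm_num at this

/-- Entries in the diagonalising basis. -/
def en (i i' : II) (g : GL II Fb) : Fb := (PM.1 * g.1 * (PM⁻¹).1) i i'

theorem en_mem (i i') : en i i' ∈ polyA II Fb :=
  ((MatIn.const _ _).mul entry_mem).mul (MatIn.const _ _) i i'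

theorem en_RR (i i' g t) : en i i' (RR (clsB g t)) = Matrix.blockDiagonal (blk g t) i i' := by
  rw [en, RR_val, Th_conj, BB_cls]

theorem closed_RR (M : GL II Fb)
    (h : ∀ f ∈ polyA II Fb, (∀ x ∈ (RR.range : Set (GL II Fb)), f x = 0) → f M = 0) :
    M ∈ (RR.range : Set (GL II Fb)) := by
  have use : ∀ f ∈ polyA II Fb, ∀ f' ∈ polyA II Fb,
      (∀ g t, f (RR (clsB g t)) = f' (RR (clsB g t))) → f M = f' M := fun f hf f' hf' e =>
    sub_eq_zero.1 (h _ (sub_mem hf hf') (by
      rintro _ ⟨x, rfl⟩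
      obtain ⟨g, t, rfl⟩ := clsB_surj x
      exact sub_eq_zero.2 (e g t)))
  obtain ⟨j0, h0⟩ := exists_not_sim
  obtain ⟨m, hm⟩ : ∃ m : JJ → Fin 2 → Fin 2 → GL II Fb → Fb, m = fun j p q => en (p, j) (q, j) :=
    ⟨_, rfl⟩
  have m1 : ∀ j p q, m j p q ∈ polyA II Fb := fun j p q => hm ▸ en_mem _ _
  have m2 : ∀ j p q g t, m j p q (RR (clsB g t)) = tau t j * (if sim j then 1 else g.1) p q :=
    fun j p q g t => by
      simp only [hm, en_RR, Matrix.blockDiagonal_apply_eq]
      rfl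
  obtain ⟨δ, hδ⟩ : ∃ δ, δ = m j0 0 0 * m j0 1 1 - m j0 0 1 * m j0 1 0 := ⟨_, rfl⟩
  obtain ⟨ν, hν⟩ : ∃ ν : JJ → GL II Fb → Fb, ν = fun j =>
    if sim j then m j 0 0 else m j 0 0 * m j0 1 1 - m j 0 1 * m j0 1 0 := ⟨_, rfl⟩
  have d1 : δ ∈ polyA II Fb :=
    hδ ▸ sub_mem (mul_mem (m1 _ _ _) (m1 _ _ _)) (mul_mem (m1 _ _ _) (m1 _ _ _))
  have n1 : ∀ j, ν j ∈ polyA II Fb := fun j => by
    simp only [hν]
    split_ifs
    · exact m1 _ _ _
    · exact sub_mem (mul_mem (m1 _ _ _) (m1 _ _ _)) (mul_mem (m1 _ _ _) (m1 _ _ _))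
  have dt : ∀ g : SL(2, Fb), g.1 0 0 * g.1 1 1 - g.1 0 1 * g.1 1 0 = 1 := fun g =>
    (Matrix.det_fin_two _).symm.trans g.2
  have d2 : ∀ g t, δ (RR (clsB g t)) = tau t j0 * tau t j0 := fun g t => by
    simp only [hδ, Pi.sub_apply, Pi.mul_apply, m2, if_neg h0]
    linear_combination (tau t j0 * tau t j0) * dt g
  have n2 : ∀ j g t, ν j (RR (clsB g t)) = tau t j * if sim j then 1 else tau t j0 :=
    fun j g t => by
      simp only [hν]
      split_ifs with hj
      · simp [m2, hj]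
      · simp only [Pi.sub_apply, Pi.mul_apply, m2, if_neg h0, if_neg hj]
        linear_combination (tau t j * tau t j0) * dt g
  have E1 : PM.1 * M.1 * (PM⁻¹).1 =
      Matrix.blockDiagonal fun j => Matrix.of fun p q => m j p q M := by
    ext ⟨p, j⟩ ⟨q, j'⟩
    by_cases e : j = j'
    · subst e
      rw [Matrix.blockDiagonal_apply_eq, hm]
      rfl
    · rw [Matrix.blockDiagonal_apply_ne _ _ _ e]
      exact use _ (en_mem _ _) 0 (zero_mem _) fun g t => by
        rw [en_RR, Matrix.blockDiagonal_apply_ne _ _ _ e]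
        rfl
  have E2 : ∀ j p q, sim j → m j p q M = ν j M * (1 : Matrix (Fin 2) (Fin 2) Fb) p q :=
    fun j p q hj => use _ (m1 j p q) (ν j * algebraMap Fb _ ((1 : Matrix (Fin 2) (Fin 2) Fb) p q))
      (mul_mem (n1 j) (Subalgebra.algebraMap_mem _ _)) fun g t => by
        rw [m2, Pi.mul_apply, n2, if_pos hj, if_pos hj, mul_one]
        rfl
  have E3 : ∀ j p q, ¬ sim j → δ M * m j p q M = ν j M * m j0 p q M := fun j p q hj =>
    use (δ * m j p q) (mul_mem d1 (m1 _ _ _)) (ν j * m j0 p q) (mul_mem (n1 _) (m1 _ _ _))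
      fun g t => by
        simp only [Pi.mul_apply, d2, m2, n2, if_neg hj, if_neg h0]
        ring
  have E4 : ∀ b (φ ψ χ : HH b), ν ⟨b, φ, ψ⟩ M * ν ⟨b, ψ, χ⟩ M =
      ν ⟨b, φ, χ⟩ M * (if sim ⟨b, φ, ψ⟩ ∨ sim ⟨b, ψ, χ⟩ then 1 else δ) M := fun b φ ψ χ =>
    use (ν _ * ν _) (mul_mem (n1 _) (n1 _)) (ν _ * _)
      (mul_mem (n1 _) (by split_ifs; exacts [one_mem _, d1])) fun g t => by
        simp only [Pi.mul_apply, n2, ← tau_tri t b φ ψ χ, sim_tri b φ ψ χ]
        by_cases h1 : sim ⟨b, φ, ψ⟩ <;> by_cases h2 : sim ⟨b, ψ, χ⟩ <;> simp [h1, h2, d2] <;> ring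
  have s0 : ∀ b (φ : HH b), sim ⟨b, φ, φ⟩ := fun _ _ => rfl
  have E5 : ∀ b (φ : HH b), ν ⟨b, φ, φ⟩ M = 1 := fun b φ =>
    use _ (n1 _) 1 (one_mem _) fun g t => by
      rw [n2, if_pos (s0 b φ), tau, div_self (evH_ne _ _), mul_one]
      rfl
  have d3 : (Matrix.of fun p q => m j0 p q M).det = δ M := by
    rw [Matrix.det_fin_two, hδ]
    rfl
  have d0 : δ M ≠ 0 := by
    have := ((Matrix.isUnit_iff_isUnit_det _).1 (PM * M * PM⁻¹).isUnit).ne_zero
    rw [Units.val_mul, Units.val_mul, E1, Matrix.det_blockDiagonal, Finset.prod_ne_zero_iff] at this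
    exact d3 ▸ this j0 (Finset.mem_univ _)
  obtain ⟨s, hs⟩ := IsAlgClosed.exists_eq_mul_self (δ M)
  have s1 : s ≠ 0 := fun e => d0 (by rw [hs, e, mul_zero])
  obtain ⟨τ, hτ⟩ : ∃ τ : JJ → Fb, τ = fun j => if sim j then ν j M else ν j M / s := ⟨_, rfl⟩
  have c1 : ∀ b (φ ψ χ : HH b), τ ⟨b, φ, ψ⟩ * τ ⟨b, ψ, χ⟩ = τ ⟨b, φ, χ⟩ := fun b φ ψ χ => by
    have := E4 b φ ψ χ
    simp only [hτ, sim_tri b φ ψ χ]
    by_cases h1 : sim ⟨b, φ, ψ⟩ <;> by_cases h2 : sim ⟨b, ψ, χ⟩ <;>
      simp only [h1, h2, true_or, or_true, or_self, if_true, if_false, Pi.one_apply, mul_one, hs,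
        iff_self, iff_true, true_iff] at this ⊢
    · exact this
    · rw [← this]; ring
    · rw [← this]; ring
    · field_simp
      linear_combination this
  have c2 : ∀ b (φ ψ : HH b), τ ⟨b, φ, ψ⟩ ≠ 0 := fun b φ ψ e => by
    have := c1 b φ ψ φ
    rw [e, zero_mul, hτ] at this
    simp only [if_pos (s0 b φ), E5] at this
    exact zero_ne_one this
  choose t ht using fun b => evH_surj (fun φ => τ ⟨b, φ, Lv b⟩) fun φ => c2 b φ _
  have c3 : ∀ j, tau t j = τ j := fun ⟨b, φ, ψ⟩ => by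
    rw [tau, ht, ht, div_eq_iff (c2 _ _ _), c1]
  refine ⟨clsB ⟨s⁻¹ • Matrix.of fun p q => m j0 p q M, ?_⟩ t, Units.ext ?_⟩
  · rw [Matrix.det_smul, d3, hs, Fintype.card_fin]
    field_simp
  · rw [RR_val, BB_cls, ← PM.mul_right_inj, ← PM⁻¹.mul_left_inj, Th_conj, E1]
    congr 1
    ext j p q
    simp only [blk, c3, hτ, Matrix.of_apply, Matrix.smul_apply, smul_eq_mul]
    split_ifs with hj
    · exact (E2 j p q hj).symm
    · have := E3 j p q hj
      rw [hs] at this
      simp only [Matrix.smul_apply, Matrix.of_apply, smul_eq_mul]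
      field_simp
      linear_combination -this

/-- Upper unipotent matrices. -/
def upB (a : Fb) : SL(2, Fb) := ⟨!![1, a; 0, 1], by simp⟩

/-- Lower unipotent matrices. -/
def loB (a : Fb) : SL(2, Fb) := ⟨!![1, 0; a, 1], by simp⟩

theorem four (g : SL(2, Fb)) : ∃ a b c d, g = upB a * loB b * upB c * loB d := by
  have three : ∀ g : SL(2, Fb), g.1 1 0 ≠ 0 → ∃ a b c, g = upB a * loB b * upB c := fun g h => by
    have dt := (Matrix.det_fin_two _).symm.trans g.2
    refine ⟨(g.1 0 0 - 1) / g.1 1 0, g.1 1 0, (g.1 1 1 - 1) / g.1 1 0, Subtype.ext ?_⟩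
    ext i j
    fin_cases i <;> fin_cases j <;> simp [upB, loB] <;> field_simp
    · ring
    · linear_combination -dt
    · ring
  by_cases h : g.1 1 0 = 0
  · have dt := (Matrix.det_fin_two _).symm.trans g.2
    obtain ⟨a, b, c, e⟩ := three (g * loB 1) (by
      simp only [loB, Matrix.SpecialLinearGroup.coe_mul, Matrix.mul_apply, Fin.sum_univ_two, h]
      simpa [h] using right_ne_zero_of_mul_eq_one (show g.1 0 0 * g.1 1 1 = 1 by simpa [h] using dt))
    refine ⟨a, b, c, -1, ?_⟩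
    rw [← e, mul_assoc, show loB 1 * loB (-1) = 1 from Subtype.ext (by simp [loB, Matrix.one_fin_two]),
      mul_one]
  · obtain ⟨a, b, c, e⟩ := three g h
    refine ⟨a, b, c, 0, ?_⟩
    rw [← e, show loB 0 = 1 from Subtype.ext (by simp [loB, Matrix.one_fin_two]), mul_one]

theorem irred_RR (p q : MvPolynomial (II × II) Fb) (h : ∀ g ∈ RR.range, polyVal (p * q) g = 0) :
    (∀ g ∈ RR.range, polyVal p g = 0) ∨ ∀ g ∈ RR.range, polyVal q g = 0 := by
  choose ty hty using fun (y : Par (Fin 4) (Σ b, HH b) Fb) b =>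
    evH_surj (fun φ => y.1 (Sum.inr ⟨b, φ⟩)) fun φ => y.2 _
  refine irred_of (Y := RR.range) (fun y => RR (clsB (upB (y.1 (Sum.inl 0)) *
    loB (y.1 (Sum.inl 1)) * upB (y.1 (Sum.inl 2)) * loB (y.1 (Sum.inl 3))) (ty y))) ?_ ?_ p q h
  · refine Set.Subset.antisymm (Set.range_subset_iff.2 fun y => ⟨_, rfl⟩) ?_
    rintro _ ⟨x, rfl⟩
    obtain ⟨g, t, rfl⟩ := clsB_surj x
    obtain ⟨a, b, c, d, rfl⟩ := four g
    refine ⟨⟨Sum.elim ![a, b, c, d] fun z => evH z.2 (t z.1).1, fun z => evH_ne _ _⟩, ?_⟩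
    exact congrArg (fun t => RR (clsB _ t)) (funext fun b => Units.ext (evH_inj (hty _ b)))
  · refine ((MatIn.const _ _).mul ?_).mul (MatIn.const _ PM.1)
    have u : ∀ z, MatIn (ratA (Fin 4) (Σ b, HH b) Fb) fun y => (upB (y.1 z)).1 := fun z i j => by
      fin_cases i <;> fin_cases j
      exacts [one_mem _, coord_mem z, zero_mem _, one_mem _]
    have l : ∀ z, MatIn (ratA (Fin 4) (Σ b, HH b) Fb) fun y => (loB (y.1 z)).1 := fun z i j => by
      fin_cases i <;> fin_cases j
      exacts [one_mem _, zero_mem _, coord_mem z, one_mem _]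
    rintro ⟨p, j⟩ ⟨q, j'⟩
    change (fun y => Matrix.blockDiagonal (blk _ (ty y)) (p, j) (q, j')) ∈ _
    simp only [Matrix.blockDiagonal_apply', blk, tau, hty, div_eq_mul_inv,
      Matrix.smul_apply, smul_eq_mul]
    split_ifs
    · exact mul_mem (mul_mem (coord_mem _) (inv_mem_rat _)) (MatIn.const _ _ p q)
    · exact mul_mem (mul_mem (coord_mem _) (inv_mem_rat _))
        ((((u _).mul (l _)).mul (u _)).mul (l _) p q)
    · exact zero_mem _

theorem red_RR (N : Subgroup (GL II Fb)) (h0 : N ≤ RR.range)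
    (h1 : ∀ g ∈ RR.range, ∀ u ∈ N, g * u * g⁻¹ ∈ N) (h2 : ∀ u ∈ N, IsNilpotent (u.val - 1)) :
    N = ⊥ := by
  have nil : ∀ x, RR x ∈ N → ∀ j, IsNilpotent (BB x j - 1) := fun x hx j => by
    have := h2 _ hx
    rw [RR_val, ← map_one Th, ← map_sub, IsNilpotent.map_iff Th_inj] at this
    exact this.map (Pi.evalRingHom _ j)
  rw [Subgroup.eq_bot_iff_forall]
  intro u hu
  obtain ⟨x, rfl⟩ := h0 hu
  suffices BB x = 1 by rw [BB_inj (this.trans BB.map_one.symm), map_one]
  ext1 j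
  by_cases hj : sim j
  · obtain ⟨g, t, rfl⟩ := clsB_surj x
    have := (Matrix.isNilpotent_trace_of_isNilpotent (nil _ hu j)).eq_zero
    simp only [BB_cls, blk, if_pos hj, Matrix.trace_sub, Matrix.trace_smul, Matrix.trace_one,
      Fintype.card_fin, smul_eq_mul, Nat.cast_ofNat] at this
    rw [BB_cls, blk, if_pos hj, show tau t j = 1 by linear_combination this / 2, one_smul]
    rfl
  · have key : ∀ g g' : SL(2, Fb), g * g' = 1 →
        IsNilpotent (g.1 * BB x j * g'.1 * BB x j - 1) := fun g g' e => by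
      have e1 : (clsB g 1)⁻¹ = clsB g' 1 := inv_eq_of_mul_eq_one_right (by
        change clsB (g * g') (1 * 1) = clsB 1 1
        rw [e, mul_one])
      have e2 : ∀ g, BB (clsB g 1) j = g.1 := fun g => by simp [BB_cls, blk, hj, tau]
      have := nil (clsB g 1 * x * (clsB g 1)⁻¹ * x) (by
        simp only [map_mul, map_inv]
        exact mul_mem (h1 _ ⟨_, rfl⟩ _ hu) hu) j
      simpa only [e1, map_mul, Pi.mul_apply, e2] using this
    exact unip_two (nil x hu j)
      (key (upB 1) (upB (-1)) (Subtype.ext (by simp [upB, Matrix.one_fin_two])))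
      (key (loB 1) (loB (-1)) (Subtype.ext (by simp [loB, Matrix.one_fin_two])))

theorem gal_RR (σ : Fb ≃ₐ[F] Fb) (g : GL II Fb) (h : g ∈ (RR.range : Set (GL II Fb))) :
    galM σ g ∈ (RR.range : Set (GL II Fb)) := by
  obtain ⟨x, rfl⟩ := h
  exact ⟨_, (RR_gal σ x).symm⟩

theorem connRed_RR : ConnRed RR.range :=
  ⟨descent (fun _ => fixed_F) gal_RR closed_RR, irred_RR, red_RR⟩

/-- Extension of scalars on matrices. -/
def ioM : GL II F →* GL II Fb := Matrix.GeneralLinearGroup.map (algebraMap F Fb)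

theorem ioM_inj : Function.Injective ioM := fun g g' h => by
  ext i j
  exact (algebraMap F Fb).injective (congrArg (fun g : GL II Fb => g.1 i j) h)

theorem mem_ioM {M : GL II Fb} : M ∈ ioM.range ↔ ∀ σ : Fb ≃ₐ[F] Fb, galM σ M = M := by
  constructor
  · rintro ⟨m, rfl⟩ σ
    ext i j
    exact σ.commutes _
  · intro h
    choose m hm using fun i j => fixed_F (x := M.1 i j) fun σ =>
      congrArg (fun g : GL II Fb => g.1 i j) (h σ)
    have e : (algebraMap F Fb).mapMatrix (Matrix.of m) = M.1 := Matrix.ext hm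
    have d : (Matrix.of m).det ≠ 0 := fun h0 =>
      ((Matrix.isUnit_iff_isUnit_det _).1 M.isUnit).ne_zero (by
        rw [← e, ← RingHom.map_det, h0, map_zero])
    exact ⟨Matrix.GeneralLinearGroup.mkOfDetNeZero _ d, Units.ext e⟩

theorem quot_cls : IsOpenQuotientMap fun x : S × ∀ b, (Lf b)ˣ => clsG x.1 x.2 :=
  QuotientGroup.isOpenQuotientMap_mk.comp (IsOpenQuotientMap.id.prodMap
    (IsOpenQuotientMap.piMap fun _ => QuotientGroup.isOpenQuotientMap_mk))

instance : SigmaCompactSpace S := ⟨by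
  have e : (Set.univ : Set S) = ⋃ R : ℕ, {g : S | ∀ i j, ‖g i j‖ ≤ R} :=
    (Set.eq_univ_of_forall fun g => by
      obtain ⟨R, hR⟩ := exists_nat_ge (nm g)
      exact Set.mem_iUnion.2 ⟨R, fun i j => (le_nm g i j).trans hR⟩).symm
  rw [e]
  exact isSigmaCompact_iUnion_of_isCompact _ fun R => isCompact_bdd R⟩

instance : SigmaCompactSpace GG := ⟨by
  have := isSigmaCompact_range (QuotientGroup.continuous_mk
    (N := Subgroup.zpowers ((-1, c0) : S × ∀ b, PU F (Lf b))))
  rwa [QuotientGroup.mk_surjective.range_eq] at this⟩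

theorem closed_pts : IsClosed (ratPts RR.range : Set (GL II F)) := by
  obtain ⟨T, hT⟩ := connRed_RR.1
  have e : (ratPts RR.range : Set (GL II F)) = ⋂ p ∈ T, {g | polyVal p g = 0} := by
    ext g
    have : ∀ p : MvPolynomial (II × II) F, polyVal p (ioM g) = algebraMap F Fb (polyVal p g) :=
      fun p => (MvPolynomial.comp_aeval_apply _ (Algebra.ofId F Fb) p).symm
    refine (hT (ioM g)).trans ?_
    simp only [this, map_eq_zero, Set.mem_iInter, Set.mem_ofPred_eq]
  rw [e]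
  refine isClosed_biInter fun p _ => isClosed_eq ?_ continuous_const
  exact (MvPolynomial.continuous_eval p).comp
    (continuous_pi fun x => Units.continuous_val.matrix_elem x.1 x.2)

theorem points_RR : Nonempty (GG ≃ₜ* ratPts RR.range) := by
  obtain ⟨j, j1, j2, j3⟩ := isPoints
  have j4 : ∀ x, x ∈ j.range ↔ RR x ∈ ioM.range := fun x => by
    obtain ⟨s, t, rfl⟩ := clsB_surj x
    simp only [j3, mem_ioM, RR_gal, RR_inj.eq_iff, gG_cls]
  choose r hr using fun x => (j4 (j x)).1 ⟨x, rfl⟩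
  let f : GG →* ratPts RR.range := MonoidHom.mk' (fun x => ⟨r x, j x, (hr x).symm⟩)
    fun x y => Subtype.ext (ioM_inj (by
      simp only [Subgroup.coe_mul, map_mul, hr]))
  have hb : Function.Bijective f := by
    refine ⟨fun x y h => j1 (RR_inj ?_), fun ⟨m, y, hy⟩ => ?_⟩
    · rw [← hr, ← hr]
      exact congrArg (fun z : ratPts RR.range => ioM z.1) h
    · obtain ⟨x, rfl⟩ := (j4 y).2 ⟨m, hy.symm⟩
      exact ⟨x, Subtype.ext (ioM_inj ((hr x).trans hy))⟩
  haveI := main.1.1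
  have c1 : Continuous fun x => (r x).1 := by
    refine continuous_matrix fun i i' => ?_
    rw [(algebraMap_isometry F Fb).isEmbedding.isInducing.continuous_iff,
      ← quot_cls.continuous_comp_iff]
    have e : (algebraMap F Fb ∘ fun x => (r x).1 i i') ∘ (fun x : S × ∀ b, (Lf b)ˣ =>
        clsG x.1 x.2) = fun x => ((PM⁻¹).1 * Matrix.blockDiagonal (fun a : JJ =>
          (a.2.1.hom (x.2 a.1) / a.2.2.hom (x.2 a.1)) •
            if sim a then 1 else x.1.1.map (algebraMap F Fb)) * PM.1) i i' := by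
      ext x
      refine (congrArg (fun g : GL II Fb => g.1 i i') (hr _)).trans ?_
      simp only [j2, RR_val, BB_cls, Th_eq, ← evH_incl]
      rfl
    have c : ∀ b (φ : HH b), Continuous fun x : S × ∀ b, (Lf b)ˣ => φ.hom (x.2 b) := fun b φ =>
      φ.hom.toLinearMap.continuous_of_finiteDimensional.comp
        (Units.continuous_val.comp ((continuous_apply b).comp continuous_snd))
    rw [e]
    refine Continuous.matrix_elem ((continuous_const.matrix_mul (Continuous.matrix_blockDiagonal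
      (continuous_pi fun a => ((c _ _).div (c _ _) fun x => ?_).smul ?_))).matrix_mul
        continuous_const) i i'
    · exact (map_ne_zero _).2 (x.2 a.1).ne_zero
    · split_ifs
      · exact continuous_const
      · exact (continuous_subtype_val.comp continuous_fst).matrix_map
          (algebraMap_isometry F Fb).continuous
  have c2 : Continuous f := by
    refine Continuous.subtype_mk (Units.continuous_iff.2 ⟨c1, ?_⟩) _
    have e : (fun x => ((r x)⁻¹).1) = fun x => (r x⁻¹).1 := funext fun x =>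
      congrArg (fun z : ratPts RR.range => z.1.1) (map_inv f x).symm
    rw [e]
    exact c1.comp continuous_inv
  haveI : LocallyCompactSpace (Matrix II II F) := inferInstanceAs (LocallyCompactSpace (II → II → F))
  haveI : LocallyCompactSpace (ratPts RR.range) := closed_pts.locallyCompactSpace
  exact ⟨{ MulEquiv.ofBijective f hb with
    continuous_toFun := c2
    continuous_invFun := ((Equiv.ofBijective f hb).toHomeomorphOfContinuousOpen c2
      (f.isOpenMap_of_sigmaCompact hb.2 c2)).continuous_symm }⟩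

end Pool.Agent.P.MP_2ea9e4_al
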