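import Pool.Agent.P.MP_2ea9e4_al.Alg

/-!
# Galois descent of closed sets and irreducibility of parametrised sets
-/

set_option maxHeartbeats 400000

noncomputable section

namespace Pool.Agent.P.MP_2ea9e4_al

open scoped MatrixGroups
open MvPolynomial

variable {n : Type} [Fintype n] [DecidableEq n] {K L : Type} [Field K] [Field L] [Algebra K L]

/-- The Galois action on matrices. -/
def galM (σ : L ≃ₐ[K] L) : GL n L →* GL n L :=
  Matrix.GeneralLinearGroup.map (σ : L →+* L)

theorem galM_apply (σ : L ≃ₐ[K] L) (g : GL n L) (i j : n) : galM σ g i j = σ (g i j) := rfl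

theorem polyVal_gal (σ : L ≃ₐ[K] L) (p : MvPolynomial (n × n) L) (g : GL n L) :
    polyVal (map (σ : L →+* L) p) (galM σ g) = σ (polyVal p g) := by
  induction p using MvPolynomial.induction_on with
  | C a => simp [polyVal]
  | add p q hp hq => simp only [polyVal, map_add] at hp hq ⊢; rw [hp, hq]
  | mul_X p x hp => simp only [polyVal, map_mul, map_X, aeval_X] at hp ⊢; rw [hp]; rfl

/-- Polynomial functions of the entries. -/
def polyA (n : Type) [Fintype n] [DecidableEq n] (L : Type) [Field L] : Subalgebra L (GL n L → L) :=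
  (aeval fun (x : n × n) (g : GL n L) => g x.1 x.2).range

theorem aeval_fun {α β : Type} (f : β → α → L) (p : MvPolynomial β L) (a : α) :
    aeval f p a = aeval (fun x => f x a) p :=
  comp_aeval_apply f (Pi.evalAlgHom L (fun _ : α => L) a) p

theorem entry_mem (i j : n) : (fun g : GL n L => g i j) ∈ polyA n L := ⟨X (i, j), aeval_X _ _⟩

theorem descent (h0 : ∀ x : L, (∀ σ : L ≃ₐ[K] L, σ x = x) → ∃ a, algebraMap K L a = x)
    {Y : Set (GL n L)} (h1 : ∀ σ : L ≃ₐ[K] L, ∀ g ∈ Y, galM σ g ∈ Y)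
    (h2 : ∀ g, (∀ f ∈ polyA n L, (∀ x ∈ Y, f x = 0) → f g = 0) → g ∈ Y) :
    ∃ T : Set (MvPolynomial (n × n) K), ∀ g, g ∈ Y ↔ ∀ p ∈ T, polyVal p g = 0 := by
  classical
  refine ⟨{p | ∀ x ∈ Y, polyVal p x = 0}, fun g => ⟨fun hg p hp => hp g hg, fun hg => h2 g ?_⟩⟩
  suffices ∀ p : MvPolynomial (n × n) L, (∀ x ∈ Y, polyVal p x = 0) → polyVal p g = 0 by
    rintro _ ⟨p, rfl⟩ hp
    exact (aeval_fun _ p g).trans (this p fun x hx => (aeval_fun _ p x).symm.trans (hp x hx))
  have lt : ∀ {p q : MvPolynomial (n × n) L} {m}, m ∈ q.support → coeff m p = 0 →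
      p.support ⊆ q.support → p.support.card < q.support.card := fun hm h0 hs =>
    Finset.card_lt_card ⟨hs, fun h => mem_support_iff.1 (h hm) h0⟩
  by_contra hc
  push Not at hc
  obtain ⟨f, ⟨f1, f2⟩, fm⟩ := (measure fun p : MvPolynomial (n × n) L => p.support.card).wf.has_min
    {p | (∀ x ∈ Y, polyVal p x = 0) ∧ polyVal p g ≠ 0} hc
  have f0 : f ≠ 0 := fun h => f2 (by rw [h]; exact map_zero _)
  obtain ⟨q, ⟨q0, q1, q2⟩, qm⟩ :=
    (measure fun p : MvPolynomial (n × n) L => p.support.card).wf.has_min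
      {p | p ≠ 0 ∧ (∀ x ∈ Y, polyVal p x = 0) ∧ p.support ⊆ f.support} ⟨f, f0, f1, subset_rfl⟩
  obtain ⟨m, hm⟩ := support_nonempty.2 q0
  have a0 := mem_support_iff.1 hm
  have vs : ∀ (a : L) (p : MvPolynomial (n × n) L) (x : GL n L),
      polyVal (a • p) x = a * polyVal p x :=
    fun a p x => by simp only [polyVal, map_smul, smul_eq_mul]
  have vb : ∀ (p p' : MvPolynomial (n × n) L) (x : GL n L),
      polyVal (p - p') x = polyVal p x - polyVal p' x := fun p p' x => by
    simp only [polyVal, map_sub]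
  set r := (coeff m q)⁻¹ • q with hr
  have r1 : ∀ x ∈ Y, polyVal r x = 0 := fun x hx => by rw [hr, vs, q1 x hx, mul_zero]
  have r2 : coeff m r = 1 := by rw [hr, coeff_smul, smul_eq_mul, inv_mul_cancel₀ a0]
  have r3 : r.support ⊆ q.support := support_smul
  have fix : ∀ σ : L ≃ₐ[K] L, map (σ : L →+* L) r = r := fun σ => by
    rw [← sub_eq_zero]
    by_contra h
    have s1 : (map (σ : L →+* L) r - r).support ⊆ q.support := (support_sub _ _ _).trans
      (Finset.union_subset ((support_map_subset _ _).trans r3) r3)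
    refine qm _ ⟨h, fun x hx => ?_, s1.trans q2⟩ (lt hm ?_ s1)
    · have e : x = galM σ (galM σ.symm x) := by
        ext i j
        exact (σ.apply_symm_apply _).symm
      rw [vb, r1 x hx, e, polyVal_gal, r1 _ (h1 _ x hx), map_zero, sub_zero]
    · rw [coeff_sub, coeff_map, r2, map_one, sub_self]
  obtain ⟨r', hr'⟩ : r ∈ Set.range (map (algebraMap K L)) := by
    rw [mem_range_map_iff_coeffs_subset]
    intro a ha
    obtain ⟨d, -, rfl⟩ := mem_coeffs_iff.1 ha
    exact h0 _ fun σ => by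
      have := congrArg (coeff d) (fix σ)
      rwa [coeff_map] at this
  have e : ∀ x : GL n L, polyVal r' x = polyVal r x := fun x => by
    rw [← hr']
    exact (aeval_map_algebraMap L _ r').symm
  have rg : polyVal r g = 0 := (e g).symm.trans (hg r' fun x hx => (e x).trans (r1 x hx))
  have s2 : (f - coeff m f • r).support ⊆ f.support := (support_sub _ _ _).trans
    (Finset.union_subset subset_rfl (support_smul.trans (r3.trans q2)))
  refine fm (f - coeff m f • r) ⟨fun x hx => ?_, ?_⟩ (lt (q2 hm) ?_ s2)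
  · rw [vb, vs, f1 x hx, r1 x hx, mul_zero, sub_zero]
  · rwa [vb, vs, rg, mul_zero, sub_zero]
  · rw [coeff_sub, coeff_smul, r2, smul_eq_mul, mul_one, sub_self]

/-- Parameters whose second group of coordinates is non-zero. -/
abbrev Par (α β L : Type) [Field L] : Type := {y : α ⊕ β → L // ∀ b, y (Sum.inr b) ≠ 0}

/-- Quotients of polynomial functions on the parameter space. -/
def ratA (α β L : Type) [Field L] : Subalgebra L (Par α β L → L) where
  carrier := {f | ∃ P Q : MvPolynomial (α ⊕ β) L, ∀ y : Par α β L,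
    eval y.1 Q ≠ 0 ∧ f y * eval y.1 Q = eval y.1 P}
  mul_mem' := by
    rintro f g ⟨P, Q, h⟩ ⟨P', Q', h'⟩
    refine ⟨P * P', Q * Q', fun y => ?_⟩
    rw [map_mul, map_mul, ← (h y).2, ← (h' y).2, Pi.mul_apply]
    exact ⟨mul_ne_zero (h y).1 (h' y).1, by ring⟩
  add_mem' := by
    rintro f g ⟨P, Q, h⟩ ⟨P', Q', h'⟩
    refine ⟨P * Q' + P' * Q, Q * Q', fun y => ?_⟩
    rw [map_add, map_mul, map_mul, map_mul, ← (h y).2, ← (h' y).2, Pi.add_apply]
    exact ⟨mul_ne_zero (h y).1 (h' y).1, by ring⟩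
  algebraMap_mem' a := ⟨C a, 1, fun y => by simp⟩

variable {α β : Type}

theorem coord_mem (x : α ⊕ β) : (fun y : Par α β L => y.1 x) ∈ ratA α β L :=
  ⟨X x, 1, fun y => by simp⟩

theorem inv_mem_rat (b : β) : (fun y : Par α β L => (y.1 (Sum.inr b))⁻¹) ∈ ratA α β L :=
  ⟨1, X (Sum.inr b), fun y => by simp [y.2 b]⟩

theorem rat_dom [Infinite L] [Fintype β] {f g : Par α β L → L} (hf : f ∈ ratA α β L) (hg : g ∈ ratA α β L)
    (h : ∀ y, f y * g y = 0) : (∀ y, f y = 0) ∨ ∀ y, g y = 0 := by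
  obtain ⟨P, Q, h1⟩ := hf
  obtain ⟨P', Q', h2⟩ := hg
  have e : P * P' * ∏ b : β, X (Sum.inr b) = 0 := MvPolynomial.funext fun y => by
    simp only [map_mul, map_prod, eval_X, map_zero]
    by_cases hy : ∀ b, y (Sum.inr b) ≠ 0
    · rw [← (h1 ⟨y, hy⟩).2, ← (h2 ⟨y, hy⟩).2, mul_mul_mul_comm, h, zero_mul, zero_mul]
    · push Not at hy
      obtain ⟨b, hb⟩ := hy
      rw [Finset.prod_eq_zero (Finset.mem_univ b) hb, mul_zero]
  rcases mul_eq_zero.1 ((mul_eq_zero.1 e).resolve_right
    (Finset.prod_ne_zero_iff.2 fun b _ => X_ne_zero _)) with rfl | rfl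
  · exact Or.inl fun y => (mul_eq_zero.1 ((h1 y).2.trans (map_zero _))).resolve_right (h1 y).1
  · exact Or.inr fun y => (mul_eq_zero.1 ((h2 y).2.trans (map_zero _))).resolve_right (h2 y).1

theorem irred_of [Infinite L] [Fintype β] {Y : Set (GL n L)} (θ : Par α β L → GL n L) (h0 : Set.range θ = Y)
    (h1 : ∀ i j, (fun y => θ y i j) ∈ ratA α β L) (p q : MvPolynomial (n × n) L)
    (h : ∀ g ∈ Y, polyVal (p * q) g = 0) :
    (∀ g ∈ Y, polyVal p g = 0) ∨ ∀ g ∈ Y, polyVal q g = 0 := by
  subst h0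
  have m : ∀ p : MvPolynomial (n × n) L, (fun y => polyVal p (θ y)) ∈ ratA α β L := fun p => by
    induction p using MvPolynomial.induction_on with
    | C a => simp only [polyVal, aeval_C]; exact (ratA α β L).algebraMap_mem a
    | add p q hp hq => simp only [polyVal, map_add]; exact (ratA α β L).add_mem hp hq
    | mul_X p x hp =>
      simp only [polyVal, map_mul, aeval_X]
      exact (ratA α β L).mul_mem hp (h1 x.1 x.2)
  simp only [Set.forall_mem_range] at h ⊢
  exact rat_dom (m p) (m q) fun y => (map_mul _ p q).symm.trans (h y)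

/-- A set of unipotent `2 × 2` matrices: if `A` and its products with two conjugates are
unipotent then `A = 1`. -/
theorem unip_two {A : Matrix (Fin 2) (Fin 2) L} (h : IsNilpotent (A - 1))
    (h1 : IsNilpotent (!![1, 1; 0, 1] * A * !![1, -1; 0, 1] * A - 1))
    (h2 : IsNilpotent (!![1, 0; 1, 1] * A * !![1, 0; -1, 1] * A - 1)) : A = 1 := by
  have t := (Matrix.isNilpotent_trace_of_isNilpotent h).eq_zero
  have t1 := (Matrix.isNilpotent_trace_of_isNilpotent h1).eq_zero
  have t2 := (Matrix.isNilpotent_trace_of_isNilpotent h2).eq_zero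
  have d : (A - 1).det = 0 := by
    obtain ⟨m, hm⟩ := h
    have := congrArg Matrix.det hm
    rw [Matrix.det_pow, Matrix.det_zero] at this
    exact pow_eq_zero_iff (by rintro rfl; simp at this) |>.1 this
  simp [Matrix.trace_fin_two, Matrix.det_fin_two, Matrix.mul_apply, Fin.sum_univ_two,
    Matrix.vecMul, dotProduct] at t t1 t2 d
  have e : A 1 1 = 2 - A 0 0 := by linear_combination t
  rw [e] at t1 t2 d
  have c : A 1 0 = 0 := pow_eq_zero_iff two_ne_zero |>.1 (by linear_combination -t1 - 2 * d)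
  have b : A 0 1 = 0 := pow_eq_zero_iff two_ne_zero |>.1 (by linear_combination -t2 - 2 * d)
  have a : A 0 0 - 1 = 0 := pow_eq_zero_iff two_ne_zero |>.1 (by
    rw [b] at d; linear_combination -d)
  ext i j
  fin_cases i <;> fin_cases j <;> simp [b, c, e, sub_eq_zero.1 a]
  norm_num

end Pool.Agent.P.MP_2ea9e4_al
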