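import Pool.Agent.P.MP_2ea9e4_al.Points
import Pool.Agent.P.MP_2ea9e4_al.Zar

/-!
# A faithful matrix representation of `GB` compatible with the Galois action
-/

set_option maxHeartbeats 400000

noncomputable section

namespace Pool.Agent.P.MP_2ea9e4_al

open scoped MatrixGroups Kronecker

/-- The embeddings of `L_b` in `Qbar`. -/
def HH (b : Fin 3) : Type := Lf b →ₐ[F] Fb

instance (b : Fin 3) : Fintype (HH b) := minpoly.AlgHom.fintype F (Lf b) Fb

instance (b : Fin 3) : DecidableEq (HH b) := Classical.decEq _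

/-- The underlying homomorphism. -/
def HH.hom {b : Fin 3} (φ : HH b) : Lf b →ₐ[F] Fb := φ

instance charZero_Lf (b : Fin 3) : CharZero (Lf b) := charZero_of_injective_algebraMap (algebraMap F (Lf b)).injective

/-- A basis of `L_b` indexed by the embeddings. -/
def bH (b : Fin 3) : Module.Basis (HH b) F (Lf b) :=
  (bs b).reindex (Fintype.equivFinOfCardEq (AlgHom.card F (Lf b) Fb)).symm

/-- The matrix of the embeddings. -/
def P0 (b : Fin 3) : Matrix (HH b) (HH b) Fb := Matrix.of fun φ m => φ.hom (bH b m)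

theorem P0_unit (b : Fin 3) : IsUnit (P0 b) :=
  Matrix.linearIndependent_rows_iff_isUnit.1
    ((linearIndependent_algHom_toLinearMap F (Lf b) Fb).map' _ ((bH b).constr Fb).symm.ker)

variable {b : Fin 3}

/-- The character of `Qbar ⊗ L_b` attached to an embedding. -/
def evH (φ : HH b) : Ab b →ₐ[Fb] Fb :=
  Algebra.TensorProduct.lift (AlgHom.id Fb Fb) φ.hom fun _ _ => Commute.all _ _

theorem evH_tm (φ : HH b) (a l) : evH φ (tm b a l) = a * φ.hom l := rfl

theorem evH_incl (φ : HH b) (l) : evH φ (incl b l) = φ.hom l := by rw [incl_eq, evH_tm, one_mul]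

/-- The Galois action on embeddings. -/
def actH (σ : Fb ≃ₐ[F] Fb) (φ : HH b) : HH b := σ.toAlgHom.comp φ.hom

theorem actH_apply (σ) (φ : HH b) (l) : (actH σ φ).hom l = σ (φ.hom l) := rfl

theorem actH_symm (σ : Fb ≃ₐ[F] Fb) (φ : HH b) : actH σ.symm (actH σ φ) = φ :=
  AlgHom.ext fun _ => σ.symm_apply_apply _

theorem evH_gal (σ) (φ : HH b) (u) : evH (actH σ φ) (gal σ b u) = σ (evH φ u) := by
  induction u using Ab.ind with
  | h0 => rw [gal_zero, map_zero, map_zero, map_zero]
  | h1 a l => rw [gal_tm, evH_tm, evH_tm, map_mul, actH_apply]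
  | h2 x y hx hy => rw [gal_add, map_add, map_add, map_add, hx, hy]

/-- The base-changed basis. -/
def bA (b : Fin 3) : Module.Basis (HH b) Fb (Ab b) := Algebra.TensorProduct.basis Fb (bH b)

theorem evH_eq (u : Ab b) : (fun φ => evH φ u) = (P0 b).mulVec ((bA b).equivFun u) := by
  ext φ
  conv_lhs => rw [← (bA b).sum_repr u]
  rw [map_sum]
  refine Finset.sum_congr rfl fun m _ => ?_
  have e : bA b m = incl b (bH b m) := Algebra.TensorProduct.basis_apply _ _
  rw [map_smul, e, evH_incl, smul_eq_mul, mul_comm]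
  rfl

theorem evH_bij (b : Fin 3) : Function.Bijective (AlgHom.pi fun φ : HH b => evH φ) := by
  have e : ⇑(AlgHom.pi fun φ : HH b => evH φ) =
      (P0 b).mulVec ∘ (bA b).equivFun := funext evH_eq
  rw [e]
  exact Function.Bijective.comp ⟨Matrix.mulVec_injective_iff_isUnit.2 (P0_unit b),
    Matrix.mulVec_surjective_iff_isUnit.2 (P0_unit b)⟩ (bA b).equivFun.bijective

theorem evH_inj {u v : Ab b} (h : ∀ φ, evH φ u = evH φ v) : u = v := (evH_bij b).1 (funext h)

theorem evH_surj (w : HH b → Fb) (h : ∀ φ, w φ ≠ 0) : ∃ t : (Ab b)ˣ, ∀ φ, evH φ t = w φ := by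
  obtain ⟨u, hu⟩ := (evH_bij b).2 w
  obtain ⟨v, hv⟩ := (evH_bij b).2 fun φ => (w φ)⁻¹
  have e : u * v = 1 := evH_inj fun φ => by
    rw [map_mul, map_one, show evH φ u = w φ from congrFun hu φ,
      show evH φ v = (w φ)⁻¹ from congrFun hv φ, mul_inv_cancel₀ (h φ)]
  exact ⟨⟨u, v, e, (mul_comm _ _).trans e⟩, congrFun hu⟩

theorem evH_ne (φ : HH b) (t : (Ab b)ˣ) : evH φ t ≠ 0 := (t.isUnit.map (evH φ)).ne_zero

instance (b : Fin 3) : Nonempty (HH b) := ⟨Lv b⟩

theorem scal_of {t : (Ab b)ˣ} (h : ∀ φ ψ : HH b, evH φ t.1 = evH ψ t.1) : PU.mk Fb t = 1 :=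
  PU.mk_eq_one.2 (mem_scal.2 ⟨evH (Lv b) t, evH_inj fun φ => by
    rw [AlgHom.commutes]; exact h _ _⟩)

/-- Pairs of embeddings. -/
abbrev JJ : Type := Σ b, HH b × HH b

/-- The index set of the matrices. -/
abbrev II : Type := Fin 2 × JJ

/-- The square root of `b`. -/
def yb (b : Fin 3) : (Ab b)ˣ := Units.map (incl b) (gen b ^ 4)

/-- The weight attached to a pair of embeddings. -/
def tau (t : ∀ b, (Ab b)ˣ) (j : JJ) : Fb := evH j.2.1 (t j.1) / evH j.2.2 (t j.1)

theorem tau_ne (t j) : tau t j ≠ 0 := div_ne_zero (evH_ne _ _) (evH_ne _ _)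

theorem tau_mul (t t' j) : tau (t * t') j = tau t j * tau t' j := by
  simp only [tau, Pi.mul_apply, Units.val_mul, map_mul, mul_div_mul_comm]

theorem evH_yb (φ : HH b) : evH φ (yb b) * evH φ (yb b) = algebraMap F Fb (bb b) := by
  rw [← map_mul, yb, Units.coe_map, ← map_mul, gen_pow, evH_incl, AlgHom.commutes]

/-- The two embeddings agree on the square root of `b`. -/
def sim (j : JJ) : Prop := evH j.2.1 (yb j.1) = evH j.2.2 (yb j.1)

instance : DecidablePred sim := Classical.decPred _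

theorem not_sim {j : JJ} (h : ¬ sim j) : evH j.2.1 (yb j.1) = -evH j.2.2 (yb j.1) :=
  (mul_self_eq_mul_self_iff.1 ((evH_yb _).trans (evH_yb _).symm)).resolve_left h

theorem tau_yb (j : JJ) : tau yb j = if sim j then 1 else -1 := by
  split_ifs with h
  · rw [tau, h, div_self (evH_ne _ _)]
  · rw [tau, not_sim h, neg_div, div_self (evH_ne _ _)]

theorem exists_not_sim : ∃ j, ¬ sim j := by
  by_contra h
  push Not at h
  refine c0_ne (funext fun b => jT_inj b ?_)
  rw [Pi.one_apply, map_one]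
  exact scal_of (t := yb b) fun φ ψ => h ⟨b, φ, ψ⟩

/-- The weight as a character of the torus. -/
def tauP (j : JJ) : PU Fb (Ab j.1) →* Fb :=
  QuotientGroup.lift _ (MonoidHom.mk' (M := (Ab j.1)ˣ) (G := Fbˣ)
    (fun t => Units.mk0 _ (div_ne_zero (evH_ne j.2.1 t) (evH_ne j.2.2 t))) (fun t t' => Units.ext (by
      simp only [Units.val_mk0, Units.val_mul, map_mul, mul_div_mul_comm])) |> (Units.coeHom Fb).comp)
    (by
      rintro _ ⟨a, rfl⟩
      change evH j.2.1 (algebraMap Fb _ a) / evH j.2.2 (algebraMap Fb _ a) = 1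
      rw [AlgHom.commutes, AlgHom.commutes]
      exact div_self a.ne_zero)

/-- The blocks. -/
def blk (g : SL(2, Fb)) (t : ∀ b, (Ab b)ˣ) (j : JJ) : Matrix (Fin 2) (Fin 2) Fb :=
  tau t j • if sim j then 1 else g.1

/-- The blocks as a homomorphism. -/
def BB : GB →* (JJ → Matrix (Fin 2) (Fin 2) Fb) :=
  QuotientGroup.lift _
    { toFun := fun x j => tauP j (x.2 j.1) • if sim j then 1 else x.1.1
      map_one' := funext fun j => by simp
      map_mul' := fun x y => funext fun j => by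
        simp only [Prod.snd_mul, Pi.mul_apply, map_mul, Prod.fst_mul,
          Matrix.SpecialLinearGroup.coe_mul, smul_mul_smul_comm]
        split_ifs <;> simp }
    (by
      rw [Subgroup.zpowers_le]
      refine funext fun j => ?_
      change tau yb j • (if sim j then 1 else (-1 : SL(2, Fb)).1) = 1
      rw [tau_yb]
      split_ifs <;> simp)

theorem BB_cls (g t) : BB (clsB g t) = blk g t := rfl

theorem clsB_surj (x : GB) : ∃ s t, x = clsB s t := by
  obtain ⟨⟨s, a⟩, rfl⟩ := QuotientGroup.mk_surjective x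
  choose l hl using fun i => QuotientGroup.mk_surjective (a i)
  exact ⟨s, l, congrArg (fun a => (QuotientGroup.mk (s, a) : GB)) (funext fun i => (hl i).symm)⟩

theorem BB_inj : Function.Injective BB := by
  rw [injective_iff_map_eq_one]
  intro x h
  obtain ⟨g, t, rfl⟩ := clsB_surj x
  refine (QuotientGroup.eq_one_iff _).2 ((mem_zp' (Prod.ext (by simp) cB_sq)).2 ?_)
  have h1 : ∀ j, blk g t j = 1 := congrFun h
  have h2 : ∀ j, sim j → tau t j = 1 := fun j hj => by
    simpa [blk, hj] using congrFun (congrFun (h1 j) 0) 0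
  have h3 : ∀ j, ¬ sim j → tau t j • g.1 = 1 := fun j hj => by simpa [blk, hj] using h1 j
  obtain ⟨j, hj⟩ := exists_not_sim
  have h4 : tau t j * tau t j = 1 := by
    simpa [pow_two] using congrArg Matrix.det (h3 j hj)
  have h5 : g.1 = tau t j • 1 := by rw [← h3 j hj, smul_smul, h4, one_smul]
  rcases mul_self_eq_one_iff.1 h4 with e | e
  · rw [e, one_smul] at h5
    refine Or.inl (Prod.ext (Subtype.ext h5) (funext fun b => scal_of fun φ ψ => ?_))
    refine (div_eq_one_iff_eq (evH_ne _ _)).1 (show tau t ⟨b, φ, ψ⟩ = 1 from ?_)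
    by_cases hs : sim ⟨b, φ, ψ⟩
    · exact h2 _ hs
    · simpa [h5] using congrFun (congrFun (h3 _ hs) 0) 0
  · rw [e, neg_smul, one_smul] at h5
    refine Or.inr (Prod.ext (Subtype.ext h5) (funext fun b => ?_))
    have : PU.mk Fb (t b * yb b) = 1 := scal_of fun φ ψ => by
      refine (div_eq_one_iff_eq (evH_ne _ _)).1 (show tau (t * yb) ⟨b, φ, ψ⟩ = 1 from ?_)
      rw [tau_mul, tau_yb]
      split_ifs with hs
      · rw [h2 _ hs, mul_one]
      · simpa [h5] using congrFun (congrFun (h3 _ hs) 0) 0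
    exact mul_right_cancel (b := cB b) (this.trans (congrFun cB_sq b).symm)

/-- The Galois action on pairs. -/
def actJ (σ : Fb ≃ₐ[F] Fb) : JJ ≃ JJ where
  toFun j := ⟨j.1, actH σ j.2.1, actH σ j.2.2⟩
  invFun j := ⟨j.1, actH σ.symm j.2.1, actH σ.symm j.2.2⟩
  left_inv j := by simp only [actH_symm]
  right_inv j := by
    have := fun φ : HH j.1 => actH_symm σ.symm φ
    simp only [AlgEquiv.symm_symm] at this
    simp only [this]

theorem sim_act (σ j) : sim (actJ σ j) ↔ sim j := by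
  have e : ∀ φ : HH j.1, evH (actH σ φ) (yb j.1) = σ (evH φ (yb j.1)) := fun φ => by
    rw [← evH_gal, yb, Units.coe_map, gal_incl]
  change evH (actH σ j.2.1) (yb j.1) = evH (actH σ j.2.2) (yb j.1) ↔ _
  rw [e, e, σ.injective.eq_iff, sim]

theorem BB_gal (σ x j) : BB (gG σ x) (actJ σ j) = (BB x j).map σ := by
  obtain ⟨g, t, rfl⟩ := clsB_surj x
  have e : tau (fun i => Units.map (gal σ i) (t i)) (actJ σ j) = σ (tau t j) := by
    rw [tau, tau, map_div₀, ← evH_gal, ← evH_gal]
    rfl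
  rw [gG_cls, BB_cls, BB_cls, blk, blk, e]
  ext p q
  by_cases h : sim j
  · simp [h, sim_act, Matrix.one_apply, apply_ite σ]
  · simp [h, sim_act]

theorem exists_P : ∃ P : (Matrix II II Fb)ˣ, ∀ σ : Fb ≃ₐ[F] Fb,
    P.1.map σ = P.1.submatrix ((Equiv.refl _).prodCongr (actJ σ)) id := by
  have h : IsUnit ((1 : Matrix (Fin 2) (Fin 2) Fb) ⊗ₖ
      Matrix.blockDiagonal' fun b => P0 b ⊗ₖ P0 b) := Matrix.IsUnit.kronecker isUnit_one
    ((Pi.isUnit_iff.2 fun b => Matrix.IsUnit.kronecker (P0_unit b) (P0_unit b)).map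
      (Matrix.blockDiagonal'RingHom _ Fb))
  refine ⟨h.unit, fun σ => ?_⟩
  ext ⟨p, b, φ, ψ⟩ ⟨q, b', m, m'⟩
  simp only [IsUnit.unit_spec, Matrix.map_apply, Matrix.kroneckerMap_apply, map_mul,
    Matrix.submatrix_apply, Equiv.prodCongr_apply, Prod.map, Equiv.refl_apply, id]
  congr 1
  · simp [Matrix.one_apply]
  · by_cases h : b = b'
    · subst h
      change _ = Matrix.blockDiagonal' _ ⟨b, _⟩ ⟨b, _⟩
      rw [Matrix.blockDiagonal'_apply_eq, Matrix.blockDiagonal'_apply_eq]
      exact map_mul σ _ _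
    · change _ = Matrix.blockDiagonal' _ ⟨b, _⟩ ⟨b', _⟩
      rw [Matrix.blockDiagonal'_apply_ne _ _ _ h, Matrix.blockDiagonal'_apply_ne _ _ _ h, map_zero]

/-- The change of basis. -/
def PM : (Matrix II II Fb)ˣ := exists_P.choose

/-- Block matrices in the rational basis. -/
def Th : (JJ → Matrix (Fin 2) (Fin 2) Fb) →+* Matrix II II Fb :=
  (MulSemiringAction.toRingHom _ (Matrix II II Fb) (ConjAct.toConjAct PM⁻¹)).comp
    (Matrix.blockDiagonalRingHom _ _ _)

theorem Th_eq (B) : Th B = (PM⁻¹).1 * Matrix.blockDiagonal B * PM.1 := rfl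

theorem Th_conj (B) : PM.1 * Th B * (PM⁻¹).1 = Matrix.blockDiagonal B := by
  rw [Th_eq, ← mul_assoc, ← mul_assoc, Units.mul_inv, one_mul, Units.mul_inv_cancel_right]

theorem Th_inj : Function.Injective Th := fun B B' h =>
  Matrix.blockDiagonal_injective (by rw [← Th_conj, h, Th_conj])

/-- The representation. -/
def RR : GB →* GL II Fb := (Th.toMonoidHom.comp BB).toHomUnits

theorem RR_val (x) : (RR x).1 = Th (BB x) := rfl

theorem RR_inj : Function.Injective RR := fun _ _ h => BB_inj (Th_inj (congrArg Units.val h))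

theorem RR_gal (σ : Fb ≃ₐ[F] Fb) (x) : galM σ (RR x) = RR (gG σ x) := by
  have hP := exists_P.choose_spec σ
  have e1 : ∀ B, PM.1 * Th B = Matrix.blockDiagonal B * PM.1 := fun B => by
    rw [← Th_conj, Units.inv_mul_cancel_right]
  have e2 : (PM.1 * Th (BB x)).map (σ : Fb →+* Fb) =
    (Matrix.blockDiagonal (BB x) * PM.1).map (σ : Fb →+* Fb) := by rw [e1]
  have e3 : (Matrix.blockDiagonal (BB x)).map (σ : Fb →+* Fb) = (Matrix.blockDiagonal
      (BB (gG σ x))).submatrix ((Equiv.refl _).prodCongr (actJ σ))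
        ((Equiv.refl _).prodCongr (actJ σ)) := by
    ext ⟨p, j⟩ ⟨q, j'⟩
    simp only [Matrix.map_apply, Matrix.submatrix_apply, Equiv.prodCongr_apply, Prod.map,
      Equiv.refl_apply, Matrix.blockDiagonal_apply', EmbeddingLike.apply_eq_iff_eq, BB_gal]
    split_ifs
    · rfl
    · exact map_zero _
  have hP' : PM.1.map (σ : Fb →+* Fb) = PM.1.submatrix ((Equiv.refl _).prodCongr (actJ σ)) id := hP
  rw [Matrix.map_mul, Matrix.map_mul, e3, hP', Matrix.submatrix_mul_equiv, ← e1] at e2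
  refine Units.ext (PM.mul_right_inj.1 ?_)
  ext i m
  obtain ⟨i, rfl⟩ := ((Equiv.refl (Fin 2)).prodCongr (actJ σ)).surjective i
  exact congrFun (congrFun e2 i) m

end Pool.Agent.P.MP_2ea9e4_al
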