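import Pool.Agent.P.MP_2ea9e4_al.Ind

/-!
# Congruence subgroups of `SL_2(Q_2)`
-/

noncomputable section

namespace Pool.Agent.P.MP_2ea9e4_al

open scoped MatrixGroups

abbrev F : Type := ℚ_[2]
abbrev S : Type := SL(2, ℚ_[2])

/-- `x ∈ 2 ^ i Z_2`. -/
def D (i : ℤ) (x : F) : Prop := ‖x‖ ≤ (2 : ℝ) ^ (-i)

theorem norm_two_zpow (i : ℤ) : ‖(2 : F) ^ i‖ = (2 : ℝ) ^ (-i) := by
  simpa using Padic.norm_p_zpow (p := 2) i

theorem two_zpow_ne (i : ℤ) : (2 : F) ^ i ≠ 0 := zpow_ne_zero _ two_ne_zero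

theorem D_zero (i : ℤ) : D i 0 := by
  unfold D
  rw [norm_zero]
  positivity

theorem D.add {i : ℤ} {x y : F} (hx : D i x) (hy : D i y) : D i (x + y) :=
  (IsUltrametricDist.norm_add_le_max x y).trans (max_le hx hy)

theorem D.neg {i : ℤ} {x : F} (hx : D i x) : D i (-x) := by
  unfold D at *
  rwa [norm_neg]

theorem D.sub {i : ℤ} {x y : F} (hx : D i x) (hy : D i y) : D i (x - y) := by
  rw [sub_eq_add_neg]
  exact hx.add hy.neg

theorem D.mul {i j : ℤ} {x y : F} (hx : D i x) (hy : D j y) : D (i + j) (x * y) := by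
  unfold D at *
  rw [norm_mul, neg_add, zpow_add₀ two_ne_zero]
  exact mul_le_mul hx hy (norm_nonneg _) (by positivity)

theorem D.mono {i j : ℤ} {x : F} (hx : D i x) (h : j ≤ i) : D j x :=
  le_trans hx (zpow_le_zpow_right₀ one_le_two (by omega))

theorem D.mul' {i j k : ℤ} {x y : F} (hx : D i x) (hy : D j y) (h : k ≤ i + j) : D k (x * y) :=
  (hx.mul hy).mono h

theorem D.of_eq {i : ℤ} {x y : F} (h : D i y) (e : x = y) : D i x := e ▸ h

theorem D_pow (i : ℤ) : D i (2 ^ i) := (norm_two_zpow i).le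

theorem not_D_pow (i : ℤ) : ¬ D (i + 1) (2 ^ i) := by
  unfold D
  rw [norm_two_zpow, not_le]
  exact zpow_lt_zpow_right₀ one_lt_two (by omega)

theorem D_zero_iff {x : F} : D 0 x ↔ ‖x‖ ≤ 1 := by simp [D]

theorem D_one : D 0 1 := by simp [D]

theorem D_two : D 1 2 := by simpa using D_pow 1

theorem D_four : D 2 4 := (D_pow 2).of_eq (by norm_num)

theorem not_D_one : ¬ D 1 1 := by simpa using not_D_pow 0

theorem D_one_iff {x : F} : D 1 x ↔ ‖x‖ < 1 := by
  have := Padic.norm_le_pow_iff_norm_lt_pow_add_one (p := 2) x (-1)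
  simpa [D] using this

theorem D_shift {i m : ℤ} {x : F} : D (m + i) (2 ^ m * x) ↔ D i x := by
  refine ⟨fun h => ?_, fun h => (D_pow m).mul h⟩
  have := (D_pow (-m)).mul h
  rw [← mul_assoc, ← zpow_add₀ two_ne_zero] at this
  simpa using this

theorem D.dich0 {x : F} (hx : D 0 x) : D 1 x ∨ D 1 (x - 1) := by
  let z : ℤ_[2] := ⟨x, D_zero_iff.1 hx⟩
  have h1 := PadicInt.norm_sub_zmodRepr_lt_one z
  have h2 := PadicInt.zmodRepr_lt_p z
  have h3 : ‖x - (z.zmodRepr : F)‖ < 1 := by simpa [z, PadicInt.norm_def] using h1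
  have : z.zmodRepr = 0 ∨ z.zmodRepr = 1 := by omega
  rcases this with h | h
  · left; rw [D_one_iff]; simpa [h] using h3
  · right; rw [D_one_iff]; simpa [h] using h3

theorem D.dich {i : ℤ} {x : F} (hx : D i x) : D (i + 1) x ∨ D (i + 1) (x - 2 ^ i) := by
  have e : x = 2 ^ i * (2 ^ (-i) * x) := by
    rw [← mul_assoc, ← zpow_add₀ two_ne_zero]; simp
  have h0 : D 0 (2 ^ (-i) * x) := by simpa using (D_pow (-i)).mul hx
  rcases h0.dich0 with h | h
  · exact Or.inl (((D_pow i).mul h).of_eq e)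
  · exact Or.inr (((D_pow i).mul h).of_eq (by rw [mul_sub, ← e, mul_one]))

theorem D.unit {x : F} (h0 : D 0 x) (h1 : ¬ D 1 x) : ‖x‖ = 1 :=
  le_antisymm (D_zero_iff.1 h0) (not_lt.1 fun h => h1 (D_one_iff.2 h))

theorem D.zero_of {x : F} (h : D 0 (x - 1)) : D 0 x := (h.add D_one).of_eq (by ring)

theorem D.not_of {x : F} (h : D 1 (x - 1)) : ¬ D 1 x := fun h1 =>
  not_D_one ((h1.sub h).of_eq (by ring))

theorem D.norm_one {x : F} (h : D 1 (x - 1)) : ‖x‖ = 1 :=
  (h.mono (by norm_num)).zero_of.unit h.not_of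

theorem ne_of_norm {x : F} (h : ‖x‖ = 1) : x ≠ 0 := by
  rintro rfl
  simp at h

theorem D.ne {x : F} (h : D 1 (x - 1)) : x ≠ 0 := ne_of_norm h.norm_one

theorem D_of_norm {x : F} (h : ‖x‖ = 1) : D 0 x := D_zero_iff.2 h.le

theorem D_inv {x : F} (h : ‖x‖ = 1) : D 0 x⁻¹ := D_zero_iff.2 (by rw [norm_inv, h, inv_one])

theorem D_sub_one {x : F} (h : ‖x‖ = 1) : D 1 (x - 1) :=
  ((D_of_norm h).dich0).resolve_left fun h1 => by
    rw [D_one_iff, h] at h1
    exact lt_irrefl _ h1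

theorem D.mul0 {i : ℤ} {x y : F} (hx : D i x) (hy : D 0 y) : D i (x * y) := hx.mul' hy (by omega)

theorem D.zero_mul {i : ℤ} {x y : F} (hx : D 0 x) (hy : D i y) : D i (x * y) :=
  hx.mul' hy (by omega)

theorem D.div {i : ℤ} {x u : F} (hx : D i x) (h : ‖u‖ = 1) : D i (x / u) :=
  (hx.mul0 (D_inv h)).of_eq (div_eq_mul_inv _ _)

theorem D.inv_sub {k : ℤ} {u : F} (h : D k (u - 1)) (hu : ‖u‖ = 1) : D k (u⁻¹ - 1) :=
  (h.neg.div hu).of_eq (by have := ne_of_norm hu; field_simp; ring)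

/-- `u ^ 2 - 1` gains one power of two. -/
theorem D.sq_sub {k : ℤ} {u : F} (h : D k (u - 1)) (hk : 1 ≤ k) : D (k + 1) (u * u - 1) :=
  (h.mul ((h.mono hk).add D_two)).of_eq (by ring)

theorem exists_norm {x : F} (hx : x ≠ 0) : ∃ i : ℤ, ‖x‖ = (2 : ℝ) ^ (-i) :=
  ⟨x.valuation, by simpa using Padic.norm_eq_zpow_neg_valuation hx⟩

theorem isOpen_D (i : ℤ) : IsOpen {x : F | D i x} := by
  have : {x : F | D i x} = Metric.closedBall 0 ((2 : ℝ) ^ (-i)) := by
    ext x; simp [D]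
  rw [this]
  exact IsUltrametricDist.isOpen_closedBall _ (by positivity)

theorem isClosed_D (i : ℤ) : IsClosed {x : F | D i x} :=
  isClosed_le continuous_norm continuous_const

/-! ### Matrices -/

/-- The matrix with rows `(a, b)` and `(c, d)`. -/
def mk2 (a b c d : F) (h : a * d - b * c = 1) : S :=
  ⟨!![a, b; c, d], by rw [Matrix.det_fin_two_of]; exact h⟩

@[simp] theorem mk2_00 (a b c d h) : mk2 a b c d h 0 0 = a := rfl
@[simp] theorem mk2_01 (a b c d h) : mk2 a b c d h 0 1 = b := rfl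
@[simp] theorem mk2_10 (a b c d h) : mk2 a b c d h 1 0 = c := rfl
@[simp] theorem mk2_11 (a b c d h) : mk2 a b c d h 1 1 = d := rfl

theorem det2 (g : S) : g 0 0 * g 1 1 - g 0 1 * g 1 0 = 1 := by
  have := g.2
  rwa [Matrix.det_fin_two] at this

theorem ext2 {g h : S} (h1 : g 0 0 = h 0 0) (h2 : g 0 1 = h 0 1) (h3 : g 1 0 = h 1 0)
    (h4 : g 1 1 = h 1 1) : g = h := by
  ext i j
  fin_cases i <;> fin_cases j <;> assumption

theorem mul2 (g h : S) (i j : Fin 2) : (g * h) i j = g i 0 * h 0 j + g i 1 * h 1 j := by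
  simp [Matrix.mul_apply, Fin.sum_univ_two]

theorem inv00 (g : S) : g⁻¹ 0 0 = g 1 1 := by simp [Matrix.adjugate_fin_two]
theorem inv01 (g : S) : g⁻¹ 0 1 = - g 0 1 := by simp [Matrix.adjugate_fin_two]
theorem inv10 (g : S) : g⁻¹ 1 0 = - g 1 0 := by simp [Matrix.adjugate_fin_two]
theorem inv11 (g : S) : g⁻¹ 1 1 = g 0 0 := by simp [Matrix.adjugate_fin_two]
theorem one00 : (1 : S) 0 0 = 1 := rfl
theorem one01 : (1 : S) 0 1 = 0 := rfl
theorem one10 : (1 : S) 1 0 = 0 := rfl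
theorem one11 : (1 : S) 1 1 = 1 := rfl
theorem neg2 (g : S) (i j : Fin 2) : (-g) i j = - g i j := by simp

theorem continuous_entry (i j : Fin 2) : Continuous fun g : S => g i j :=
  (continuous_apply_apply i j).comp continuous_subtype_val

/-- Upper unipotent. -/
def xx (b : F) : S := mk2 1 b 0 1 (by ring)
/-- Lower unipotent. -/
def yy (c : F) : S := mk2 1 0 c 1 (by ring)
/-- Diagonal. -/
def hh (u : F) (hu : u ≠ 0) : S := mk2 u 0 0 u⁻¹ (by field_simp; ring)
/-- The unipotent `1 + l ν ν^⊥`. -/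
def un (l p q : F) : S := mk2 (1 - l * p * q) (l * p * p) (-(l * q * q)) (1 + l * p * q) (by ring)

theorem xx_mul (a b : F) : xx a * xx b = xx (a + b) := by
  apply ext2 <;> simp [mul2, xx, add_comm]
theorem yy_mul (a b : F) : yy a * yy b = yy (a + b) := by
  apply ext2 <;> simp [mul2, yy]
theorem hh_mul (u v : F) (hu hv) : hh u hu * hh v hv = hh (u * v) (mul_ne_zero hu hv) := by
  apply ext2 <;> simp [mul2, hh, mul_comm]
theorem xx_zero : xx 0 = 1 := by apply ext2 <;> simp [xx]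
theorem yy_zero : yy 0 = 1 := by apply ext2 <;> simp [yy]
theorem xx_inv (a : F) : (xx a)⁻¹ = xx (-a) :=
  inv_eq_of_mul_eq_one_right (by rw [xx_mul, add_neg_cancel, xx_zero])
theorem yy_inv (a : F) : (yy a)⁻¹ = yy (-a) :=
  inv_eq_of_mul_eq_one_right (by rw [yy_mul, add_neg_cancel, yy_zero])
theorem hh_xx (u : F) (hu) (b : F) : hh u hu * xx b = xx (u * u * b) * hh u hu := by
  apply ext2 <;> simp [mul2, hh, xx]
  field_simp
theorem yy_hh (u : F) (hu) (c : F) : yy c * hh u hu = hh u hu * yy (u * u * c) := by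
  apply ext2 <;> simp [mul2, hh, yy]
  field_simp
theorem un_xx (b : F) : un b 1 0 = xx b := by apply ext2 <;> simp [un, xx]
theorem un_yy (c : F) : un (-c) 0 1 = yy c := by apply ext2 <;> simp [un, yy]

theorem conj_un (g : S) (l p q : F) :
    g * un l p q * g⁻¹ = un l (g 0 0 * p + g 0 1 * q) (g 1 0 * p + g 1 1 * q) := by
  have := det2 g
  apply ext2 <;> simp only [mul2, un, inv00, inv01, inv10, inv11, mk2_00, mk2_01, mk2_10, mk2_11]
  · linear_combination this
  · ring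
  · ring
  · linear_combination this

theorem iwahori (g : S) (h : g 0 0 ≠ 0) :
    g = yy (g 1 0 / g 0 0) * hh (g 0 0) h * xx (g 0 1 / g 0 0) := by
  have := det2 g
  apply ext2 <;> simp only [mul2, xx, yy, hh, mk2_00, mk2_01, mk2_10, mk2_11] <;> field_simp
  · ring
  · ring
  · ring
  · linear_combination this

/-- `b ∈ 2 ^ i Z_2`, `c ∈ 2 ^ j Z_2`, `a, d ∈ 1 + 2 ^ k Z_2`. -/
def InP (i j k : ℤ) (g : S) : Prop :=
  D i (g 0 1) ∧ D j (g 1 0) ∧ D k (g 0 0 - 1) ∧ D k (g 1 1 - 1)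

theorem InP.mono {i j k i' j' k' : ℤ} {g : S} (h : InP i j k g) (hi : i' ≤ i) (hj : j' ≤ j)
    (hk : k' ≤ k) : InP i' j' k' g :=
  ⟨h.1.mono hi, h.2.1.mono hj, h.2.2.1.mono hk, h.2.2.2.mono hk⟩

theorem InP_xx {i j k : ℤ} {b : F} (h : D i b) : InP i j k (xx b) :=
  ⟨h, D_zero _, by simpa [xx] using D_zero k, by simpa [xx] using D_zero k⟩

theorem InP_yy {i j k : ℤ} {c : F} (h : D j c) : InP i j k (yy c) :=
  ⟨D_zero _, h, by simpa [yy] using D_zero k, by simpa [yy] using D_zero k⟩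

theorem InP_hh {i j k : ℤ} {u : F} (hu) (h : D k (u - 1)) (h1 : ‖u‖ = 1) : InP i j k (hh u hu) :=
  ⟨D_zero _, D_zero _, h, h.inv_sub h1⟩

theorem InP.inv {i j k : ℤ} {g : S} (h : InP i j k g) : InP i j k g⁻¹ := by
  unfold InP
  rw [inv00, inv01, inv10, inv11]
  exact ⟨h.1.neg, h.2.1.neg, h.2.2.2, h.2.2.1⟩

theorem InP.mul {i j k : ℤ} (h0 : 0 ≤ k) (h1 : k ≤ i + j) {g g' : S} (h : InP i j k g)
    (h' : InP i j k g') : InP i j k (g * g') := by
  obtain ⟨b, c, a, d⟩ := h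
  obtain ⟨b', c', a', d'⟩ := h'
  have a0 := (a.mono h0).zero_of
  have d0 := (d.mono h0).zero_of
  have a0' := (a'.mono h0).zero_of
  have d0' := (d'.mono h0).zero_of
  unfold InP
  simp only [mul2]
  exact ⟨(a0.zero_mul b').add (b.mul0 d0'), (c.mul0 a0').add (d0.zero_mul c'),
    (((a.mul0 a0').add a').add (b.mul' c' h1)).of_eq (by ring),
    (((d.mul0 d0').add d').add (c.mul' b' (by omega))).of_eq (by ring)⟩

/-- The congruence subgroup. -/
def PP (i j k : ℤ) (h0 : 0 ≤ k) (h1 : k ≤ i + j) : Subgroup S where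
  carrier := {g | InP i j k g}
  one_mem' := by rw [← xx_zero]; exact InP_xx (D_zero _)
  mul_mem' := InP.mul h0 h1
  inv_mem' := InP.inv

theorem isOpen_InP (i j k : ℤ) : IsOpen {g : S | InP i j k g} :=
  ((isOpen_D i).preimage (continuous_entry 0 1)).inter
    (((isOpen_D j).preimage (continuous_entry 1 0)).inter
      (((isOpen_D k).preimage ((continuous_entry 0 0).sub continuous_const)).inter
        ((isOpen_D k).preimage ((continuous_entry 1 1).sub continuous_const))))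

theorem isCompact_bdd (R : ℝ) : IsCompact {g : S | ∀ i j, ‖g i j‖ ≤ R} := by
  have h : IsCompact {M : Matrix (Fin 2) (Fin 2) F | ∀ i j, ‖M i j‖ ≤ R} := by
    have : {M : Matrix (Fin 2) (Fin 2) F | ∀ i j, ‖M i j‖ ≤ R} =
        Set.pi Set.univ fun _ => Set.pi Set.univ fun _ => Metric.closedBall (0 : F) R := by
      ext M
      exact ⟨fun h i _ j _ => mem_closedBall_zero_iff.2 (h i j),
        fun h i j => mem_closedBall_zero_iff.1 (h i trivial j trivial)⟩
    rw [this]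
    exact isCompact_univ_pi fun _ => isCompact_univ_pi fun _ => isCompact_closedBall _ _
  exact Matrix.SpecialLinearGroup.isClosedEmbedding_val.isCompact_preimage h

theorem bdd_of_isCompact {A : Set S} (h : IsCompact A) : ∃ R, ∀ g ∈ A, ∀ i j, ‖g i j‖ ≤ R := by
  have hc : Continuous fun g : S => ‖g 0 0‖ + ‖g 0 1‖ + ‖g 1 0‖ + ‖g 1 1‖ :=
    (((continuous_entry 0 0).norm.add (continuous_entry 0 1).norm).add
      (continuous_entry 1 0).norm).add (continuous_entry 1 1).norm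
  obtain ⟨R, hR⟩ := h.bddAbove_image hc.continuousOn
  refine ⟨R, fun g hg i j => ?_⟩
  have := hR ⟨g, hg, rfl⟩
  have h1 := norm_nonneg (g 0 0)
  have h2 := norm_nonneg (g 0 1)
  have h3 := norm_nonneg (g 1 0)
  have h4 := norm_nonneg (g 1 1)
  simp only at this
  fin_cases i <;> fin_cases j <;> simp only [Fin.zero_eta, Fin.mk_one, Fin.isValue] <;> linarith

theorem isCompact_InP (i j k : ℤ) : IsCompact {g : S | InP i j k g} := by
  have hc : IsClosed {g : S | InP i j k g} :=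
    ((isClosed_D i).preimage (continuous_entry 0 1)).inter
      (((isClosed_D j).preimage (continuous_entry 1 0)).inter
        (((isClosed_D k).preimage ((continuous_entry 0 0).sub continuous_const)).inter
          ((isClosed_D k).preimage ((continuous_entry 1 1).sub continuous_const))))
  let m := min (min i j) (min k 0)
  refine (isCompact_bdd ((2 : ℝ) ^ (-m))).of_isClosed_subset hc fun g hg a b => ?_
  have hm : D m (1 : F) := D_one.mono (by omega)
  have h1 : D m (g 0 0) := ((hg.2.2.1.mono (by omega)).add hm).of_eq (by ring)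
  have h2 : D m (g 0 1) := hg.1.mono (by omega)
  have h3 : D m (g 1 0) := hg.2.1.mono (by omega)
  have h4 : D m (g 1 1) := ((hg.2.2.2.mono (by omega)).add hm).of_eq (by ring)
  fin_cases a <;> fin_cases b <;> assumption

theorem exists_InP_subset {U : Set S} (hU : U ∈ nhds (1 : S)) :
    ∃ m : ℤ, 1 ≤ m ∧ ∀ g, InP m m m g → g ∈ U := by
  obtain ⟨T, hT, hTU⟩ := (mem_nhds_induced Subtype.val (1 : S) U).1 hU
  obtain ⟨ε, hε, hT⟩ := Metric.mem_nhds_iff.1
    (show (T : Set (Fin 2 → Fin 2 → F)) ∈ nhds (fun i j => (1 : S) i j) from hT)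
  obtain ⟨n, hn⟩ := exists_pow_lt_of_lt_one hε (show (1 / 2 : ℝ) < 1 by norm_num)
  refine ⟨n + 1, by omega, fun g hg => hTU (hT ?_)⟩
  have key : ∀ z : F, D (n + 1) z → ‖z‖ < ε := fun z hz =>
    lt_of_le_of_lt (hz.mono (show (n : ℤ) ≤ n + 1 by omega)) (by simpa using hn)
  rw [Metric.mem_ball, dist_pi_lt_iff hε]
  intro i
  rw [dist_pi_lt_iff hε]
  intro j
  rw [dist_eq_norm]
  apply key
  fin_cases i <;> fin_cases j
  · exact hg.2.2.1
  · exact hg.1.of_eq (sub_zero _)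
  · exact hg.2.1.of_eq (sub_zero _)
  · exact hg.2.2.2

/-- `SL_2(Z_2)`. -/
def K0 : Subgroup S := PP 0 0 0 le_rfl le_rfl

theorem mem_K0 {g : S} : g ∈ K0 ↔ ∀ i j, D 0 (g i j) := by
  constructor
  · intro h i j
    fin_cases i <;> fin_cases j
    · exact h.2.2.1.zero_of
    · exact h.1
    · exact h.2.1
    · exact h.2.2.2.zero_of
  · intro h
    exact ⟨h 0 1, h 1 0, (h 0 0).sub D_one, (h 1 1).sub D_one⟩

theorem neg_one_InP {i j : ℤ} : InP i j 1 (-1) := by
  unfold InP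
  simp only [neg2, one00, one01, one10, one11, neg_zero]
  exact ⟨D_zero _, D_zero _, D_two.neg.of_eq (by ring), D_two.neg.of_eq (by ring)⟩

theorem InP_un {i j k : ℤ} {l p q : F} (h1 : D i (l * p * p)) (h2 : D j (l * q * q))
    (h3 : D k (l * p * q)) : InP i j k (un l p q) :=
  ⟨h1, h2.neg, h3.neg.of_eq (by simp [un]), h3.of_eq (by simp [un])⟩

/-- `K0` normalises the principal congruence subgroups. -/
theorem InP.conj {m : ℤ} {g k : S} (hg : InP m m m g) (hk : k ∈ K0) :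
    InP m m m (k * g * k⁻¹) := by
  obtain ⟨b, c, a, d⟩ := hg
  have h := mem_K0.1 hk
  have := det2 k
  unfold InP
  simp only [mul2, inv00, inv01, inv10, inv11]
  have p := h 0 0
  have q := h 0 1
  have r := h 1 0
  have s := h 1 1
  refine ⟨?_, ?_, ?_, ?_⟩
  · exact (((((p.mul0 q).zero_mul a).neg.add ((q.mul0 q).zero_mul c).neg).add
      ((p.mul0 p).zero_mul b)).add ((p.mul0 q).zero_mul d)).of_eq (by ring)
  · exact (((((r.mul0 s).zero_mul a).add ((s.mul0 s).zero_mul c)).add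
      ((r.mul0 r).zero_mul b).neg).add ((r.mul0 s).zero_mul d).neg).of_eq (by ring)
  · exact (((((p.mul0 s).zero_mul a).add ((q.mul0 s).zero_mul c)).add
      ((p.mul0 r).zero_mul b).neg).add ((q.mul0 r).zero_mul d).neg).of_eq
        (by linear_combination this)
  · exact (((((q.mul0 r).zero_mul a).neg.add ((q.mul0 s).zero_mul c).neg).add
      ((p.mul0 r).zero_mul b)).add ((p.mul0 s).zero_mul d)).of_eq (by linear_combination this)

/-- A non-integral matrix has a column that becomes primitive after scaling by `2 ^ N`. -/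
theorem exists_col {g : S} {n : ℤ} (hg : ∃ i j, ¬ D (-n) (g i j)) :
    ∃ (N : ℤ) (μ₁ μ₂ : F), n < N ∧ D N μ₁ ∧ D N μ₂ ∧ D 0 (g 0 0 * μ₁ + g 0 1 * μ₂) ∧
      D 0 (g 1 0 * μ₁ + g 1 1 * μ₂) ∧
        (‖g 0 0 * μ₁ + g 0 1 * μ₂‖ = 1 ∨ ‖g 1 0 * μ₁ + g 1 1 * μ₂‖ = 1) := by
  obtain ⟨⟨i, j⟩, -, hmax⟩ := Finset.exists_max_image (Finset.univ : Finset (Fin 2 × Fin 2))
    (fun ij => ‖g ij.1 ij.2‖) Finset.univ_nonempty
  obtain ⟨i0, j0, h0⟩ := hg
  have h1 : ¬ D (-n) (g i j) := fun h => h0 ((hmax (i0, j0) (Finset.mem_univ _)).trans h)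
  have hne : g i j ≠ 0 := fun h => h1 (h ▸ D_zero _)
  obtain ⟨M, hM⟩ := exists_norm hne
  have hN : n < -M := by
    by_contra h
    exact h1 (D.mono (show D M (g i j) from hM.le) (by omega))
  have hall : ∀ a b, D 0 (g a b * 2 ^ (-M)) := fun a b => by
    have : D M (g a b) := (hmax (a, b) (Finset.mem_univ _)).trans hM.le
    simpa using this.mul (D_pow (-M))
  have hu : ‖g i j * 2 ^ (-M)‖ = 1 := by
    rw [norm_mul, hM, norm_two_zpow, ← zpow_add₀ two_ne_zero]; simp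
  fin_cases j
  · refine ⟨-M, 2 ^ (-M), 0, hN, D_pow _, D_zero _, by simpa using hall 0 0,
      by simpa using hall 1 0, ?_⟩
    fin_cases i
    · left; simpa using hu
    · right; simpa using hu
  · refine ⟨-M, 0, 2 ^ (-M), hN, D_zero _, D_pow _, by simpa using hall 0 1,
      by simpa using hall 1 1, ?_⟩
    fin_cases i
    · left; simpa using hu
    · right; simpa using hu

/-- A primitive vector is the first column of an element of `K0`. -/
theorem un_conj {p q : F} (hp : D 0 p) (hq : D 0 q) (h : ‖p‖ = 1 ∨ ‖q‖ = 1) :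
    ∃ k ∈ K0, ∀ l, un l p q = k * xx l * k⁻¹ := by
  rcases h with h | h
  · refine ⟨mk2 p 0 q p⁻¹ (by have := ne_of_norm h; field_simp; ring), mem_K0.2 ?_, fun l => ?_⟩
    · intro i j
      fin_cases i <;> fin_cases j
      exacts [hp, D_zero _, hq, D_inv h]
    · rw [← un_xx, conj_un]; simp
  · refine ⟨mk2 p (-q⁻¹) q 0 (by have := ne_of_norm h; field_simp; ring), mem_K0.2 ?_, fun l => ?_⟩
    · intro i j
      fin_cases i <;> fin_cases j
      exacts [hp, (D_inv h).neg, hq, D_zero _]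
    · rw [← un_xx, conj_un]; simp

end Pool.Agent.P.MP_2ea9e4_al
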