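import Pool.Agent.P.MP_2ea9e4_al.NF2

/-!
# The compact torus `L_b^× / Q_2^×`
-/

set_option maxHeartbeats 400000

noncomputable section

namespace Pool.Agent.P.MP_2ea9e4_al

/-- The embedding of `L_b` in the algebraic closure. -/
def Lv (b : Fin 3) : Lf b →ₐ[F] PadicAlgCl 2 := (IntermediateField.adjoin ℚ_[2] {rt b}).val

theorem Lv_inj (b : Fin 3) : Function.Injective (Lv b) := Subtype.val_injective

theorem Lv_gen (b : Fin 3) : Lv b (gen b) = rt b := rfl

instance normedAlgebra_Lf (b : Fin 3) : NormedAlgebra F (Lf b) where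
  norm_smul_le a x := norm_smul_le a (Lv b x)

instance ultra_Lf (b : Fin 3) : IsUltrametricDist (Lf b) :=
  inferInstanceAs (IsUltrametricDist (IntermediateField.adjoin ℚ_[2] {rt b}))

instance finDim_Lf (b : Fin 3) : FiniteDimensional F (Lf b) :=
  IntermediateField.adjoin.finiteDimensional (Algebra.IsIntegral.isIntegral (rt b))

instance proper_Lf (b : Fin 3) : ProperSpace (Lf b) := FiniteDimensional.proper F (Lf b)

instance nonarch_units (b : Fin 3) : NonarchimedeanGroup (Lf b)ˣ where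
  is_nonarchimedean U hU := by
    obtain ⟨T, hT, hTU⟩ := (Units.isEmbedding_val₀ (G₀ := Lf b)).isInducing.nhds_eq_comap 1 ▸ hU
    obtain ⟨ε, hε, hT⟩ := Metric.mem_nhds_iff.1 hT
    have n1 : ∀ u : Lf b, ‖u - 1‖ < min ε 1 → ‖u‖ = 1 := fun u h => by
      have := IsUltrametricDist.norm_add_eq_max_of_norm_ne_norm (x := u - 1) (y := 1)
        (by rw [norm_one]; exact (h.trans_le (min_le_right _ _)).ne)
      rwa [sub_add_cancel, norm_one, max_eq_right (h.trans_le (min_le_right _ _)).le] at this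
    let V : Subgroup (Lf b)ˣ :=
      { carrier := {u | ‖(u : Lf b) - 1‖ < min ε 1}
        one_mem' := by simpa using hε
        mul_mem' := fun {u v} hu hv => by
          have : ((u * v : (Lf b)ˣ) : Lf b) - 1 = u * (v - 1) + (u - 1) := by
            rw [Units.val_mul]; ring
          change ‖_‖ < _
          rw [this]
          refine (IsUltrametricDist.norm_add_le_max _ _).trans_lt (max_lt ?_ hu)
          rw [norm_mul, n1 _ hu, one_mul]
          exact hv
        inv_mem' := fun {u} hu => by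
          have : ((u⁻¹ : (Lf b)ˣ) : Lf b) - 1 = -((u : Lf b)⁻¹ * (u - 1)) := by
            rw [Units.val_inv_eq_inv_val]; field_simp; ring
          change ‖_‖ < _
          rw [this, norm_neg, norm_mul, norm_inv, n1 _ hu, inv_one, one_mul]
          exact hu }
    refine ⟨⟨V, isOpen_lt (Units.continuous_val.sub continuous_const).norm continuous_const⟩,
      fun u hu => hTU (hT ?_)⟩
    rw [Metric.mem_ball, dist_eq_norm]
    exact lt_of_lt_of_le hu (min_le_left _ _)

instance nonarch_Tq (b : Fin 3) : NonarchimedeanGroup (PU F (Lf b)) := nonarch_quot _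

theorem mem_scal {k A : Type} [Field k] [CommRing A] [Nontrivial A] [Algebra k A] {u : Aˣ} :
    u ∈ scal k A ↔ (u : A) ∈ Set.range (algebraMap k A) := by
  constructor
  · rintro ⟨a, rfl⟩
    exact ⟨a, rfl⟩
  · rintro ⟨a, h⟩
    have : a ≠ 0 := fun h0 => u.ne_zero (by rw [← h, h0, map_zero])
    exact ⟨Units.mk0 a this, Units.ext h⟩

instance t2_Tq (b : Fin 3) : T2Space (PU F (Lf b)) := by
  haveI : IsClosed ((scal F (Lf b) : Subgroup (Lf b)ˣ) : Set (Lf b)ˣ) := by
    have := ((LinearMap.range (Algebra.linearMap F (Lf b))).closed_of_finiteDimensional).preimage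
      (Units.continuous_val (M := Lf b))
    convert this using 1
    ext u
    exact mem_scal
  exact inferInstanceAs (T2Space ((Lf b)ˣ ⧸ scal F (Lf b)))

instance compact_Tq (b : Fin 3) : CompactSpace (PU F (Lf b)) := by
  change CompactSpace ((Lf b)ˣ ⧸ scal F (Lf b))
  have hc : IsCompact {x : Lf b | 1 ≤ ‖x‖ ∧ ‖x‖ ≤ 2} :=
    (isCompact_closedBall (0 : Lf b) 2).of_isClosed_subset
      ((isClosed_le continuous_const continuous_norm).inter
        (isClosed_le continuous_norm continuous_const)) fun x hx => by simpa using hx.2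
  have hc' : IsCompact ((Units.val : (Lf b)ˣ → Lf b) ⁻¹' {x : Lf b | 1 ≤ ‖x‖ ∧ ‖x‖ ≤ 2}) := by
    rw [(Units.isEmbedding_val₀ (G₀ := Lf b)).isCompact_iff, Set.image_preimage_eq_of_subset]
    · exact hc
    · intro x hx
      exact ⟨Units.mk0 x (norm_pos_iff.1 (one_pos.trans_le hx.1)), rfl⟩
  refine ⟨(hc'.image QuotientGroup.continuous_mk).of_isClosed_subset isClosed_univ fun y _ => ?_⟩
  obtain ⟨u, rfl⟩ := QuotientGroup.mk_surjective y
  have pos : 0 < ‖(u : Lf b)‖ := norm_pos_iff.2 u.ne_zero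
  obtain ⟨n, h1, h2⟩ := exists_mem_Ico_zpow pos (one_lt_two (α := ℝ))
  let a := Units.map (algebraMap F (Lf b)).toMonoidHom (Units.mk0 (2 ^ n) (two_zpow_ne n))
  have ha : ‖((u * a : (Lf b)ˣ) : Lf b)‖ = ‖(u : Lf b)‖ * 2 ^ (-n) := by
    rw [Units.val_mul, norm_mul, ← norm_two_zpow]
    congr 1
    exact norm_algebraMap' (Lf b) ((2 : F) ^ n)
  have p2 : (0 : ℝ) < 2 ^ n := by positivity
  refine ⟨u * a, ⟨?_, ?_⟩, ?_⟩
  · rw [ha, zpow_neg, ← div_eq_mul_inv, one_le_div p2]
    exact h1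
  · rw [ha, zpow_neg, ← div_eq_mul_inv, div_le_iff₀ p2, mul_comm, ← zpow_add_one₀ two_ne_zero]
    exact h2.le
  · exact QuotientGroup.mk_mul_of_mem u ⟨_, rfl⟩

instance nonarch_pi {G : Fin 3 → Type} [∀ i, Group (G i)] [∀ i, TopologicalSpace (G i)]
    [∀ i, NonarchimedeanGroup (G i)] : NonarchimedeanGroup (∀ i, G i) where
  is_nonarchimedean U hU := by
    rw [nhds_pi, Filter.mem_pi'] at hU
    obtain ⟨I, t, ht, h⟩ := hU
    choose W hW using fun i => NonarchimedeanGroup.is_nonarchimedean (t i) (ht i)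
    exact ⟨⟨Subgroup.pi Set.univ fun i => (W i).toSubgroup,
      isOpen_set_pi Set.finite_univ fun i _ => (W i).isOpen⟩,
      fun x hx => h fun i _ => hW i (hx i trivial)⟩

theorem PU.mk_mul {k A : Type} [Field k] [CommRing A] [Algebra k A] (u v : Aˣ) :
    PU.mk k (u * v) = PU.mk k u * PU.mk k v := rfl

theorem PU.mk_eq {k A : Type} [Field k] [CommRing A] [Algebra k A] {u v : Aˣ} :
    PU.mk k u = PU.mk k v ↔ u⁻¹ * v ∈ scal k A := QuotientGroup.eq

theorem PU.mk_eq_one {k A : Type} [Field k] [CommRing A] [Algebra k A] {u : Aˣ} :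
    PU.mk k u = 1 ↔ u ∈ scal k A := QuotientGroup.eq_one_iff u

theorem gen_pow (b : Fin 3) :
    ((gen b ^ 4 : (Lf b)ˣ) : Lf b) * (gen b ^ 4 : (Lf b)ˣ) = algebraMap F (Lf b) (bb b) := by
  apply Lv_inj
  rw [map_mul, Units.val_pow_eq_pow_val, map_pow, Lv_gen, ← pow_add, rt_pow, AlgHom.commutes]

theorem c0_sq : c0 * c0 = 1 := funext fun b =>
  PU.mk_eq_one.2 (mem_scal.2 ⟨bb b, (gen_pow b).symm⟩)

theorem c0_ne : c0 ≠ 1 := fun h => by
  obtain ⟨a, h⟩ := mem_scal.1 (PU.mk_eq_one.1 (congrFun h 0))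
  have h2 : a * a = 2 := (algebraMap F (Lf 0)).injective (by rw [map_mul, h, gen_pow]; rfl)
  have a0 : a ≠ 0 := by
    rintro rfl
    norm_num at h2
  obtain ⟨i, hi⟩ := exists_norm a0
  have h3 := congrArg norm h2
  rw [norm_mul, hi, ← zpow_add₀ two_ne_zero, ← zpow_one (2 : F), norm_two_zpow] at h3
  have := zpow_right_injective₀ two_pos (by norm_num) h3
  omega

theorem main : LCTD GG ∧ AllInduced GG ∧
    ∃ (E : Type) (_ : Group E) (_ : TopologicalSpace E) (p : E →* GG),
      LCTD E ∧ IsCover p ∧ Nat.card p.ker = 4 ∧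
      (∀ K : Subgroup GG, CMC K → ∃ s, IsSplitting p K s) ∧
      ∃ ε : p.ker →* ℂˣ, Function.Injective ε ∧
        ∃ (V : Type) (_ : AddCommGroup V) (_ : Module ℂ V) (π : Representation ℂ E V),
          IrrSC π ∧ Genuine p ε π ∧ ¬ OfForm p ε π := by
  obtain ⟨ρ, hρ⟩ := exists_rho0 (c := c0) c0_sq
  have h : IsRho (c := c0) ρ := ⟨c0_sq, hρ⟩
  exact ⟨lctd_Grp (c := c0) c0_sq, allInduced (c := c0) c0_sq c0_ne, Grp F (cc c0), inferInstance,
    inferInstance, pr c0, lctd_Grp (c := cc c0) (cc_sq (c := c0) c0_sq), isCover (c := c0) c0_sq,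
    card_ker (c := c0) c0_sq, fun K hK => exists_splitting (c := c0) c0_sq c0_ne hK,
    eps (c := c0) c0_sq, eps_inj (c := c0) c0_sq, _, inferInstance,
    inferInstance, cInd _ ρ, ⟨h.smooth, h.irr, h.sc⟩, h.genuine,
    not_ofForm (c := c0) (t := fun i => PU.mk F (gen i)) rfl c0_ne h⟩

end Pool.Agent.P.MP_2ea9e4_al
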